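import Pool.Agent.H114.X21.Stm

/-!
# X21 MIN: the equation WM m is globally minimal
-/

set_option autoImplicit false

open scoped Classical

namespace Pool.Agent.H980.X21MIN

open Pool.Agent.H114.X21
open Pool.Agent.W97.MT (IsGloballyMinimal)
open WeierstrassCurve

/-- if the denominator of every admissible scaling is `1`, the equation is minimal -/
theorem min_of' {W : WeierstrassCurve ℤ} (hne : W.Δ ≠ 0)
    (h : ∀ (W' : WeierstrassCurve ℤ) (n d : ℤ), 0 < d → IsCoprime n d →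
      n ^ 12 * W.Δ = W'.Δ * d ^ 12 → n ^ 4 * W.c₄ = W'.c₄ * d ^ 4 →
      n ^ 6 * W.c₆ = W'.c₆ * d ^ 6 → d = 1) : IsGloballyMinimal W := by
  refine ⟨hne, ?_⟩
  intro W' C hC
  set r : ℚ := ((C.u⁻¹ : ℚˣ) : ℚ) with hr
  have hr0 : r ≠ 0 := Units.ne_zero _
  have h1 := congrArg WeierstrassCurve.Δ hC
  rw [WeierstrassCurve.variableChange_Δ, WeierstrassCurve.map_Δ, WeierstrassCurve.map_Δ] at h1
  have h4 := congrArg WeierstrassCurve.c₄ hC
  rw [WeierstrassCurve.variableChange_c₄, WeierstrassCurve.map_c₄, WeierstrassCurve.map_c₄] at h4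
  have h6 := congrArg WeierstrassCurve.c₆ hC
  rw [WeierstrassCurve.variableChange_c₆, WeierstrassCurve.map_c₆, WeierstrassCurve.map_c₆] at h6
  have h1' : r ^ 12 * (W.Δ : ℚ) = (W'.Δ : ℚ) := h1
  have h4' : r ^ 4 * (W.c₄ : ℚ) = (W'.c₄ : ℚ) := h4
  have h6' : r ^ 6 * (W.c₆ : ℚ) = (W'.c₆ : ℚ) := h6
  have h5 : (r.num : ℚ) = r * r.den := by
    rw [eq_comm, Rat.mul_den_eq_num]
  have g1 : (r.num : ℚ) ^ 12 * (W.Δ : ℚ) = (W'.Δ : ℚ) * (r.den : ℚ) ^ 12 := by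
    rw [h5, ← h1']; ring
  have g4 : (r.num : ℚ) ^ 4 * (W.c₄ : ℚ) = (W'.c₄ : ℚ) * (r.den : ℚ) ^ 4 := by
    rw [h5, ← h4']; ring
  have g6 : (r.num : ℚ) ^ 6 * (W.c₆ : ℚ) = (W'.c₆ : ℚ) * (r.den : ℚ) ^ 6 := by
    rw [h5, ← h6']; ring
  have k1 : r.num ^ 12 * W.Δ = W'.Δ * (r.den : ℤ) ^ 12 := by exact_mod_cast g1
  have k4 : r.num ^ 4 * W.c₄ = W'.c₄ * (r.den : ℤ) ^ 4 := by exact_mod_cast g4
  have k6 : r.num ^ 6 * W.c₆ = W'.c₆ * (r.den : ℤ) ^ 6 := by exact_mod_cast g6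
  have hcop : IsCoprime r.num (r.den : ℤ) := by
    rw [Int.isCoprime_iff_gcd_eq_one]
    have := r.reduced
    rwa [Int.gcd, Int.natAbs_natCast]
  have hd : (r.den : ℤ) = 1 := h W' r.num r.den (by exact_mod_cast r.den_pos) hcop k1 k4 k6
  rw [hd] at k1
  have h8 : W'.Δ = r.num ^ 12 * W.Δ := by rw [k1]; simp
  rw [h8, abs_mul, abs_pow]
  have hn : 1 ≤ |r.num| := Int.one_le_abs (Rat.num_ne_zero.2 hr0)
  have h9 : (1 : ℤ) ≤ |r.num| ^ 12 := one_le_pow₀ hn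
  have h10 := abs_nonneg W.Δ
  nlinarith

/-- an odd prime does not occur in the denominator -/
theorem no_odd {m : ℤ} (hsq : Squarefree m) {p : ℕ} (hp : p.Prime) (e : ℤ) (he : e = 1 ∨ p ≠ 2 ∧ e = 2 ^ 12)
    (h : (p : ℤ) ^ 12 ∣ e * ((3 ^ 4 * 7 ^ 2) * m ^ 6)) : False := by
  have := Fact.mk hp
  have hpZ : Prime (p : ℤ) := Nat.prime_iff_prime_int.1 hp
  have h1 : (p : ℤ) ^ 12 ∣ (3 ^ 4 * 7 ^ 2) * m ^ 6 := by
    rcases he with rfl | ⟨hp2, rfl⟩
    · simpa using h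
    · refine IsCoprime.dvd_of_dvd_mul_left ?_ h
      apply IsCoprime.pow
      have := (Nat.coprime_primes hp Nat.prime_two).2 hp2
      exact_mod_cast Nat.isCoprime_iff_coprime.2 this
  have hm0 : m.natAbs ≠ 0 := Int.natAbs_ne_zero.2 hsq.ne_zero
  have hsq' : Squarefree m.natAbs := Int.squarefree_natAbs.2 hsq
  have h2 : p ^ 12 ∣ (3 ^ 4 * 7 ^ 2) * m.natAbs ^ 6 := by
    have := Int.natAbs_dvd_natAbs.2 h1
    rw [Int.natAbs_mul, Int.natAbs_pow, Int.natAbs_pow, Int.natAbs_natCast] at this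
    exact this
  have h3 : 12 ≤ padicValNat p ((3 ^ 4 * 7 ^ 2) * m.natAbs ^ 6) :=
    (padicValNat_dvd_iff_le (mul_ne_zero (by norm_num) (pow_ne_zero 6 hm0))).1 h2
  rw [padicValNat.mul (by norm_num) (pow_ne_zero 6 hm0), padicValNat.pow] at h3
  have h4 : padicValNat p m.natAbs ≤ 1 := by
    by_contra h5
    push Not at h5
    have h6 : p ^ 2 ∣ m.natAbs := (padicValNat_dvd_iff_le hm0).2 h5
    rw [pow_two] at h6
    exact hp.one_lt.ne' (Nat.isUnit_iff.1 (hsq' p h6))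
  have h5 : padicValNat p (3 ^ 4 * 7 ^ 2) ≤ 5 := by
    by_contra h5
    push Not at h5
    have h6 : p ^ 6 ∣ 3 ^ 4 * 7 ^ 2 := (padicValNat_dvd_iff_le (by norm_num)).2 h5
    have h7 : p < 5 := by
      by_contra h8
      push Not at h8
      have h9 := Nat.le_of_dvd (by norm_num) h6
      have h10 : 5 ^ 6 ≤ p ^ 6 := Nat.pow_le_pow_left h8 6
      norm_num at h10
      omega
    have h8 := hp.two_le
    interval_cases p <;> revert h6 <;> decide
  omega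

theorem W1_coef (k : ℤ) : W1 (4 * k + 1) = ⟨1, 25 * k + 6, 0, 9 * (4 * k + 1) ^ 2, 0⟩ := by
  have h1 : (25 * (4 * k + 1) - 1) / 4 = 25 * k + 6 := by omega
  rw [W1, h1]

theorem dvd_of_mul {n d : ℤ} (hc : IsCoprime n d) (k : ℕ) {a b : ℤ} (h : n ^ k * a = b * d ^ k) :
    d ^ k ∣ a := by
  have h2 : d ^ k ∣ n ^ k * a := by
    rw [h]
    exact Dvd.intro_left _ rfl
  exact (IsCoprime.pow hc.symm).dvd_of_dvd_mul_left h2

theorem t_MIN : S_MIN := by
  intro m hsq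
  have hm0 : m ≠ 0 := hsq.ne_zero
  unfold WM
  split_ifs with h4
  · obtain ⟨k, rfl⟩ : ∃ k : ℤ, m = 4 * k + 1 := ⟨m / 4, by omega⟩
    have hΔ : (W1 (4 * k + 1)).Δ = (3 ^ 4 * 7 ^ 2) * (4 * k + 1) ^ 6 := by
      rw [W1_coef]
      simp only [WeierstrassCurve.Δ, WeierstrassCurve.b₂, WeierstrassCurve.b₄,
        WeierstrassCurve.b₆, WeierstrassCurve.b₈]
      ring
    refine min_of' (by rw [hΔ]; positivity) ?_
    intro W' n d hd hc k1 _ _
    by_contra hd1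
    obtain ⟨p, hp, hpd⟩ := Int.exists_prime_and_dvd (n := d) (by
      intro h
      have := Int.natAbs_eq_iff.1 h
      omega)
    have hp' : (p.natAbs).Prime := Int.prime_iff_natAbs_prime.1 hp
    have h1 : (p.natAbs : ℤ) ∣ d := Int.natAbs_dvd.2 hpd
    have h2 := (pow_dvd_pow_of_dvd h1 12).trans (dvd_of_mul hc 12 k1)
    rw [hΔ] at h2
    exact no_odd hsq hp' 1 (Or.inl rfl) (by simpa using h2)
  · have hΔ : (W2 m).Δ = 2 ^ 12 * ((3 ^ 4 * 7 ^ 2) * m ^ 6) := by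
      simp only [W2, WeierstrassCurve.Δ, WeierstrassCurve.b₂, WeierstrassCurve.b₄,
        WeierstrassCurve.b₆, WeierstrassCurve.b₈]
      ring
    have hc4 : (W2 m).c₄ = 16 * (193 * m ^ 2) := by
      simp only [W2, WeierstrassCurve.c₄, WeierstrassCurve.b₂, WeierstrassCurve.b₄]
      ring
    have hc6 : (W2 m).c₆ = 64 * (575 * m ^ 3) := by
      simp only [W2, WeierstrassCurve.c₆, WeierstrassCurve.b₂, WeierstrassCurve.b₄,
        WeierstrassCurve.b₆]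
      ring
    refine min_of' (by rw [hΔ]; positivity) ?_
    intro W' n d hd hc k1 k4 k6
    rw [hΔ] at k1
    rw [hc4] at k4
    rw [hc6] at k6
    -- `d` has no odd prime factor
    have hodd : ∀ p : ℤ, Prime p → p ∣ d → p.natAbs = 2 := by
      intro p hp hpd
      by_contra hp2
      have hp' : (p.natAbs).Prime := Int.prime_iff_natAbs_prime.1 hp
      have h1 : (p.natAbs : ℤ) ∣ d := Int.natAbs_dvd.2 hpd
      have h2 := (pow_dvd_pow_of_dvd h1 12).trans (dvd_of_mul hc 12 k1)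
      exact no_odd hsq hp' _ (Or.inr ⟨hp2, rfl⟩) h2
    by_contra hd1
    obtain ⟨p, hp, hpd⟩ := Int.exists_prime_and_dvd (n := d) (by
      intro h
      have := Int.natAbs_eq_iff.1 h
      omega)
    have h2d : (2 : ℤ) ∣ d := by
      have h1 := hodd p hp hpd
      have h2 : (p.natAbs : ℤ) ∣ d := Int.natAbs_dvd.2 hpd
      rw [h1] at h2
      exact h2
    obtain ⟨e, rfl⟩ := h2d
    have h4m : ¬ (4 : ℤ) ∣ m := by
      intro h
      have := hsq 2 (by simpa using h)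
      exact absurd (Int.isUnit_iff.1 this) (by norm_num)
    -- `e` is odd
    have he2 : ¬ (2 : ℤ) ∣ e := by
      rintro ⟨f, rfl⟩
      have h1 := dvd_of_mul hc 4 k4
      have h2 : (16 : ℤ) * 16 ∣ 16 * (193 * m ^ 2) := by
        refine Dvd.dvd.trans ⟨f ^ 4, ?_⟩ h1
        ring
      have h3 : (16 : ℤ) ∣ 193 * m ^ 2 := (mul_dvd_mul_iff_left (by norm_num)).1 h2
      have h5 : (16 : ℤ) ∣ m ^ 2 := by
        refine IsCoprime.dvd_of_dvd_mul_left ?_ h3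
        norm_num
      have h6 : (4 : ℤ) ∣ m := by
        have h7 : (4 : ℤ) ^ 2 ∣ m ^ 2 := by norm_num; exact h5
        exact (Int.pow_dvd_pow_iff (by norm_num)).1 h7
      exact h4m h6
    have he1 : e = 1 := by
      by_contra he1
      obtain ⟨q, hq, hqe⟩ := Int.exists_prime_and_dvd (n := e) (by
        intro h
        have := Int.natAbs_eq_iff.1 h
        omega)
      have h1 := hodd q hq (hqe.mul_left 2)
      have h2 : (q.natAbs : ℤ) ∣ e := Int.natAbs_dvd.2 hqe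
      rw [h1] at h2
      exact he2 h2
    subst he1
    -- `n` is odd
    have hn : n % 2 = 1 := by
      rcases Int.emod_two_eq_zero_or_one n with h | h
      · exfalso
        obtain ⟨a, b, hab⟩ := hc
        obtain ⟨c, rfl⟩ : ∃ c : ℤ, n = 2 * c := ⟨n / 2, by omega⟩
        have h2 : (2 : ℤ) ∣ 1 := ⟨a * c + b, by linear_combination -hab⟩
        norm_num at h2
      · exact h
    obtain ⟨c, rfl⟩ : ∃ c : ℤ, n = 2 * c + 1 := ⟨n / 2, by omega⟩
    have q4 : W'.c₄ = (2 * c + 1) ^ 4 * (193 * m ^ 2) := by linarith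
    have q6 : W'.c₆ = (2 * c + 1) ^ 6 * (575 * m ^ 3) := by linarith
    have d4 : W'.c₄ = W'.b₂ ^ 2 - 24 * W'.b₄ := rfl
    have d6 : W'.c₆ = -W'.b₂ ^ 3 + 36 * W'.b₂ * W'.b₄ - 216 * W'.b₆ := rfl
    have e2 : W'.b₂ = W'.a₁ ^ 2 + 4 * W'.a₂ := rfl
    have e4 : W'.b₄ = 2 * W'.a₄ + W'.a₁ * W'.a₃ := rfl
    rcases Int.emod_two_eq_zero_or_one W'.a₁ with ha | ha
    · obtain ⟨a, ha'⟩ : ∃ a : ℤ, W'.a₁ = 2 * a := ⟨W'.a₁ / 2, by omega⟩
      -- 16 divides c₄'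
      have h16 : (16 : ℤ) ∣ W'.c₄ := by
        refine ⟨(a ^ 2 + W'.a₂) ^ 2 - 3 * (W'.a₄ + a * W'.a₃), ?_⟩
        rw [d4, e2, e4, ha']
        ring
      rw [q4] at h16
      have h7 : (16 : ℤ) ∣ m ^ 2 := by
        have h8 : IsCoprime (16 : ℤ) ((2 * c + 1) ^ 4 * 193) := by
          have h9 : IsCoprime (2 : ℤ) (2 * c + 1) := ⟨-c, 1, by ring⟩
          have h10 : IsCoprime (2 : ℤ) ((2 * c + 1) ^ 4 * 193) :=
            (h9.pow_right).mul_right (by norm_num)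
          have h11 := h10.pow_left (m := 4)
          norm_num at h11
          exact h11
        refine h8.dvd_of_dvd_mul_left ?_
        rw [mul_assoc]
        exact h16
      have h6 : (4 : ℤ) ∣ m := by
        have h7' : (4 : ℤ) ^ 2 ∣ m ^ 2 := by norm_num; exact h7
        exact (Int.pow_dvd_pow_iff (by norm_num)).1 h7'
      exact h4m h6
    · obtain ⟨a, ha'⟩ : ∃ a : ℤ, W'.a₁ = 2 * a + 1 := ⟨W'.a₁ / 2, by omega⟩
      -- c₄' is odd, so m is odd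
      have hb : ∃ t : ℤ, W'.b₂ = 4 * t + 1 := ⟨a ^ 2 + a + W'.a₂, by rw [e2, ha']; ring⟩
      obtain ⟨t, ht⟩ := hb
      have hmodd : m % 2 = 1 := by
        rcases Int.emod_two_eq_zero_or_one m with h | h
        · exfalso
          obtain ⟨s, rfl⟩ : ∃ s : ℤ, m = 2 * s := ⟨m / 2, by omega⟩
          have h1 : (4 * t + 1) ^ 2 - 24 * W'.b₄ = (2 * c + 1) ^ 4 * (193 * (2 * s) ^ 2) := by
            rw [← q4, d4, ht]
          have h2 : (2 : ℤ) ∣ 1 := by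
            refine ⟨(2 * c + 1) ^ 4 * 193 * (2 * s ^ 2) + 12 * W'.b₄ - 8 * t ^ 2 - 4 * t, ?_⟩
            linear_combination h1
          norm_num at h2
        · exact h
      obtain ⟨s, rfl⟩ : ∃ s : ℤ, m = 4 * s + 3 := ⟨m / 4, by clear h4m; omega⟩
      have h1 : -(4 * t + 1) ^ 3 + 36 * (4 * t + 1) * W'.b₄ - 216 * W'.b₆ =
          (2 * c + 1) ^ 6 * (575 * (4 * s + 3) ^ 3) := by
        rw [← q6, d6, ht]
      have h2 : (4 : ℤ) ∣ 2 := by
        have e1 : (2 * c + 1) ^ 6 = 4 * (16 * c ^ 6 + 48 * c ^ 5 + 60 * c ^ 4 + 40 * c ^ 3 +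
            15 * c ^ 2 + 3 * c) + 1 := by ring
        have e2 : 575 * (4 * s + 3) ^ 3 = 4 * (575 * (16 * s ^ 3 + 36 * s ^ 2 + 27 * s) +
            3881) + 1 := by ring
        rw [e1, e2] at h1
        generalize 16 * c ^ 6 + 48 * c ^ 5 + 60 * c ^ 4 + 40 * c ^ 3 + 15 * c ^ 2 + 3 * c = X at h1
        generalize 575 * (16 * s ^ 3 + 36 * s ^ 2 + 27 * s) + 3881 = Y at h1
        refine ⟨- (16 * t ^ 3 + 12 * t ^ 2 + 3 * t) + 9 * (4 * t + 1) * W'.b₄ - 54 * W'.b₆ -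
          (4 * X * Y + X + Y), ?_⟩
        linear_combination -h1
      norm_num at h2

end Pool.Agent.H980.X21MIN
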