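import Pool.Agent.H114.X21.Stm
import Pool.Agent.H743.X17.Kit

/-!
# X21 NEC2O: local conditions at 2 (necessary), `m ≡ 1 mod 4` (helper591)

The elementary lemmas are those of helper619's proof of X17 NEC2.
-/

set_option autoImplicit false
set_option linter.all false

open scoped Classical

namespace Pool.Agent.H591.X21

open Pool.Agent.H743.X17 (LS appr sq2_dec up)
open Pool.Agent.H114.X21 (S_NEC2O)

theorem odd8 {a : ℤ} (h : a % 2 = 1) : a % 8 = 1 ∨ a % 8 = 3 ∨ a % 8 = 5 ∨ a % 8 = 7 := by omega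

/-- the possible residues of three odd numbers with product `1` modulo `8` -/
theorem tri {a b c : ℤ} (ha : a % 2 = 1) (hb : b % 2 = 1) (hc : c % 2 = 1)
    (h : (a * b * c) % 8 = 1) :
    (a % 8 = 1 ∧ b % 8 = 1 ∧ c % 8 = 1) ∨ (a % 8 = 1 ∧ b % 8 = 3 ∧ c % 8 = 3) ∨
    (a % 8 = 1 ∧ b % 8 = 5 ∧ c % 8 = 5) ∨ (a % 8 = 1 ∧ b % 8 = 7 ∧ c % 8 = 7) ∨
    (a % 8 = 3 ∧ b % 8 = 1 ∧ c % 8 = 3) ∨ (a % 8 = 3 ∧ b % 8 = 3 ∧ c % 8 = 1) ∨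
    (a % 8 = 3 ∧ b % 8 = 5 ∧ c % 8 = 7) ∨ (a % 8 = 3 ∧ b % 8 = 7 ∧ c % 8 = 5) ∨
    (a % 8 = 5 ∧ b % 8 = 1 ∧ c % 8 = 5) ∨ (a % 8 = 5 ∧ b % 8 = 3 ∧ c % 8 = 7) ∨
    (a % 8 = 5 ∧ b % 8 = 5 ∧ c % 8 = 1) ∨ (a % 8 = 5 ∧ b % 8 = 7 ∧ c % 8 = 3) ∨
    (a % 8 = 7 ∧ b % 8 = 1 ∧ c % 8 = 7) ∨ (a % 8 = 7 ∧ b % 8 = 3 ∧ c % 8 = 5) ∨
    (a % 8 = 7 ∧ b % 8 = 5 ∧ c % 8 = 3) ∨ (a % 8 = 7 ∧ b % 8 = 7 ∧ c % 8 = 1) := by
  rcases odd8 ha with h1 | h1 | h1 | h1 <;> rcases odd8 hb with h2 | h2 | h2 | h2 <;>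
    rcases odd8 hc with h3 | h3 | h3 | h3 <;> simp [Int.mul_emod, h1, h2, h3] at h ⊢

theorem uniq {k l : ℕ} {x y : ℤ} (hx : x % 2 = 1) (hy : y % 2 = 1)
    (h : (2 : ℤ) ^ k * x = 2 ^ l * y) : k = l ∧ x = y := by
  have aux : ∀ (k l : ℕ) (x y : ℤ), x % 2 = 1 → k ≤ l → (2 : ℤ) ^ k * x = 2 ^ l * y →
      k = l ∧ x = y := by
    intro k l x y hx hkl h
    obtain ⟨d, rfl⟩ := Nat.exists_eq_add_of_le hkl
    rw [pow_add, mul_assoc] at h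
    have h2 := mul_left_cancel₀ (pow_ne_zero k (by norm_num : (2 : ℤ) ≠ 0)) h
    rcases d with _ | d
    · exact ⟨by simp, by simpa using h2⟩
    · exfalso
      rw [pow_succ, mul_comm ((2 : ℤ) ^ d) 2, mul_assoc] at h2
      omega
  rcases le_total k l with hkl | hkl
  · exact aux k l x y hx hkl h
  · obtain ⟨h1, h2⟩ := aux l k y x hy hkl h.symm
    exact ⟨h1.symm, h2.symm⟩

theorem dec2 {n : ℤ} (hn : n ≠ 0) : ∃ (k : ℕ) (x : ℤ), n = 2 ^ k * x ∧ x % 2 = 1 := by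
  haveI : Fact (Nat.Prime 2) := ⟨Nat.prime_two⟩
  obtain ⟨u, hu, hu'⟩ := Pool.Agent.H468.X15.dec (p := 2) hn
  exact ⟨_, u, by exact_mod_cast hu, by
    have : ¬ (2 : ℤ) ∣ u := by exact_mod_cast hu'
    omega⟩

/-- the class of `u` from `n u` a square -/
theorem cls {n u x : ℤ} {k : ℕ} (hn : n = 2 ^ k * x) (hx : x % 2 = 1) (hu : Squarefree u)
    (h : IsSquare ((n * u : ℤ) : ℚ_[2])) :
    ((2 : ℤ) ∣ u ↔ k % 2 = 1) ∧ up 2 u % 8 = x % 8 := by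
  have hn0 : n ≠ 0 := by
    rw [hn]; exact mul_ne_zero (pow_ne_zero _ (by norm_num)) (by rintro rfl; norm_num at hx)
  obtain ⟨a, w, e, hw⟩ := sq2_dec (mul_ne_zero hn0 hu.ne_zero) h
  by_cases h2 : (2 : ℤ) ∣ u
  · obtain ⟨c, hc⟩ := h2
    have hc2 : c % 2 = 1 := by
      by_contra hcc
      have : (2 : ℤ) * 2 ∣ u := by
        rw [hc]; exact mul_dvd_mul_left 2 (by omega)
      have := hu 2 this
      rw [Int.isUnit_iff] at this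
      omega
    have hup : up 2 u = c := by
      unfold up
      rw [if_pos (by exact_mod_cast (⟨c, hc⟩ : (2 : ℤ) ∣ u)), hc]
      push_cast
      omega
    have hxc : (x * c) % 2 = 1 := by rw [Int.mul_emod, hx, hc2]; norm_num
    have e2 : (2 : ℤ) ^ (k + 1) * (x * c) = 2 ^ (2 * a) * w := by
      rw [← e, hn, hc]; ring
    obtain ⟨h3, h4⟩ := uniq hxc (by omega) e2
    refine ⟨⟨fun _ => by omega, fun _ => ⟨c, hc⟩⟩, ?_⟩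
    rw [hup]
    rw [← h4] at hw
    rcases odd8 hx with h1 | h1 | h1 | h1 <;> rcases odd8 hc2 with h2 | h2 | h2 | h2 <;>
      simp [Int.mul_emod, h1, h2] at hw ⊢
  · have hup : up 2 u = u := by
      unfold up
      rw [if_neg (by exact_mod_cast h2)]
    have hxc : (x * u) % 2 = 1 := by rw [Int.mul_emod, hx]; omega
    have e2 : (2 : ℤ) ^ k * (x * u) = 2 ^ (2 * a) * w := by
      rw [← e, hn]; ring
    obtain ⟨h3, h4⟩ := uniq hxc (by omega) e2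
    refine ⟨⟨fun h => absurd h h2, fun _ => by omega⟩, ?_⟩
    rw [hup]
    rw [← h4] at hw
    have hc2 : u % 2 = 1 := by omega
    rcases odd8 hx with h1 | h1 | h1 | h1 <;> rcases odd8 hc2 with h2 | h2 | h2 | h2 <;>
      simp [Int.mul_emod, h1, h2] at hw ⊢

/-- the square of an odd number -/
theorem osq {t : ℤ} (h : t % 2 = 1) : ∃ s : ℤ, t ^ 2 = 8 * s + 1 := by
  obtain ⟨q, rfl⟩ : ∃ q, t = 2 * q + 1 := ⟨t / 2, by omega⟩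
  rcases Int.even_or_odd' q with ⟨c, rfl | rfl⟩
  · exact ⟨2 * c * c + c, by ring⟩
  · exact ⟨2 * c * c + 3 * c + 1, by ring⟩


theorem esq {t : ℤ} (h : t % 2 = 0) : ∃ s : ℤ, t ^ 2 = 4 * s := by
  obtain ⟨q, rfl⟩ : ∃ q, t = 2 * q := ⟨t / 2, by omega⟩
  exact ⟨q ^ 2, by ring⟩

theorem pw1 (l : ℕ) (b : ℤ) : (2 : ℤ) ^ (l + 1) * b = 2 * (2 ^ l * b) := by ring
theorem pw2 (l : ℕ) (b : ℤ) : (2 : ℤ) ^ (l + 2) * b = 4 * (2 ^ l * b) := by ring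
theorem pw3 (l : ℕ) (b : ℤ) : (2 : ℤ) ^ (l + 3) * b = 8 * (2 ^ l * b) := by ring
theorem pw4 (l : ℕ) (b : ℤ) : (2 : ℤ) ^ (l + 4) * b = 16 * (2 ^ l * b) := by ring
theorem pw5 (l : ℕ) (b : ℤ) : (2 : ℤ) ^ (l + 5) * b = 32 * (2 ^ l * b) := by ring
theorem pw6 (l : ℕ) (b : ℤ) : (2 : ℤ) ^ (l + 6) * b = 64 * (2 ^ l * b) := by ring
theorem pw7 (l : ℕ) (b : ℤ) : (2 : ℤ) ^ (l + 7) * b = 128 * (2 ^ l * b) := by ring
theorem pw8 (l : ℕ) (b : ℤ) : (2 : ℤ) ^ (l + 8) * b = 256 * (2 ^ l * b) := by ring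


theorem trA {a b c : ℤ} (h : (a * b * c) % 8 = 1) (ha : a % 2 = 1) (hb : b % 2 = 1)
    (hc : c % 2 = 1) (h1 : (c - a) % 8 = 0) : b % 8 = 1 := by
  rcases tri ha hb hc h with ⟨x1, x2, x3⟩ | ⟨x1, x2, x3⟩ | ⟨x1, x2, x3⟩ | ⟨x1, x2, x3⟩ | ⟨x1, x2, x3⟩ | ⟨x1, x2, x3⟩ | ⟨x1, x2, x3⟩ | ⟨x1, x2, x3⟩ | ⟨x1, x2, x3⟩ | ⟨x1, x2, x3⟩ | ⟨x1, x2, x3⟩ | ⟨x1, x2, x3⟩ | ⟨x1, x2, x3⟩ | ⟨x1, x2, x3⟩ | ⟨x1, x2, x3⟩ | ⟨x1, x2, x3⟩ <;> omega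

theorem trB {a b c : ℤ} (h : (a * b * c) % 8 = 1) (ha : a % 2 = 1) (hb : b % 2 = 1)
    (hc : c % 2 = 1) (h1 : (c - a) % 8 = 4) : b % 8 = 5 := by
  rcases tri ha hb hc h with ⟨x1, x2, x3⟩ | ⟨x1, x2, x3⟩ | ⟨x1, x2, x3⟩ | ⟨x1, x2, x3⟩ | ⟨x1, x2, x3⟩ | ⟨x1, x2, x3⟩ | ⟨x1, x2, x3⟩ | ⟨x1, x2, x3⟩ | ⟨x1, x2, x3⟩ | ⟨x1, x2, x3⟩ | ⟨x1, x2, x3⟩ | ⟨x1, x2, x3⟩ | ⟨x1, x2, x3⟩ | ⟨x1, x2, x3⟩ | ⟨x1, x2, x3⟩ | ⟨x1, x2, x3⟩ <;> omega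

/-- the possible exponents and residues -/
theorem core21 {m t a b c : ℤ} {k l j : ℕ} (hm : m % 4 = 1) (ha : a % 2 = 1) (hb : b % 2 = 1)
    (hc : c % 2 = 1) (ht : k ≠ 0 → t % 2 = 1)
    (hP : 2 ^ k * a + 9 * (m * t ^ 2) = 2 ^ l * b) (hQ : 2 ^ k * a + 16 * (m * t ^ 2) = 2 ^ j * c)
    (hkl : (k + l + j) % 2 = 0) (h : (a * b * c) % 8 = 1) :
    k % 2 = 0 ∧ l % 2 = 0 ∧ b % 4 = 1 := by
  by_cases ht2 : t % 2 = 1
  · obtain ⟨s, hs⟩ := osq ht2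
    have hz : m * t ^ 2 = m + 8 * (m * s) := by rw [hs]; ring
    rw [hz] at hP hQ
    generalize m * s = z at hP hQ
    clear hz hs ht ht2
    rcases k with _ | _ | _ | _ | _ | k
    · -- k = 0
      obtain ⟨h1, h2⟩ := uniq (k := 0) (x := a + 16 * (m + 8 * z)) (by omega) hc (by rw [← hQ]; ring)
      subst h1
      clear hQ
      have hb8 : b % 8 = 1 := trA h ha hb hc (by omega)
      exact ⟨by omega, by omega, by omega⟩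
    · -- k = 1
      exfalso
      obtain ⟨h1, h2⟩ := uniq (k := 1) (x := a + 8 * (m + 8 * z)) (by omega) hc (by rw [← hQ]; ring)
      subst h1
      clear hQ
      have hb8 : b % 8 = 1 := trA h ha hb hc (by omega)
      obtain ⟨h3, h4⟩ := uniq (k := 0) (x := 2 * a + 9 * (m + 8 * z)) (by omega) hb
        (by rw [← hP]; ring)
      clear hP h
      omega
    · -- k = 2
      obtain ⟨h1, h2⟩ := uniq (k := 2) (x := a + 4 * (m + 8 * z)) (by omega) hc (by rw [← hQ]; ring)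
      subst h1
      clear hQ
      have hb8 : b % 8 = 5 := trB h ha hb hc (by omega)
      exact ⟨by omega, by omega, by omega⟩
    · -- k = 3
      exfalso
      obtain ⟨h1, h2⟩ := uniq (k := 3) (x := a + 2 * (m + 8 * z)) (by omega) hc (by rw [← hQ]; ring)
      subst h1
      clear hQ
      obtain ⟨h3, h4⟩ := uniq (k := 0) (x := 8 * a + 9 * (m + 8 * z)) (by omega) hb
        (by rw [← hP]; ring)
      clear hP
      have hT := tri ha hb hc h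
      clear h
      rcases hT with ⟨x1, x2, x3⟩ | ⟨x1, x2, x3⟩ | ⟨x1, x2, x3⟩ | ⟨x1, x2, x3⟩ | ⟨x1, x2, x3⟩ | ⟨x1, x2, x3⟩ | ⟨x1, x2, x3⟩ | ⟨x1, x2, x3⟩ | ⟨x1, x2, x3⟩ | ⟨x1, x2, x3⟩ | ⟨x1, x2, x3⟩ | ⟨x1, x2, x3⟩ | ⟨x1, x2, x3⟩ | ⟨x1, x2, x3⟩ | ⟨x1, x2, x3⟩ | ⟨x1, x2, x3⟩ <;> omega
    · -- k = 4
      obtain ⟨h3, h4⟩ := uniq (k := 0) (x := 16 * a + 9 * (m + 8 * z)) (by omega) hb
        (by rw [← hP]; ring)
      subst h3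
      exact ⟨by omega, by omega, by clear h; omega⟩
    · -- k ≥ 5
      rw [pw5] at hP hQ
      obtain ⟨h3, h4⟩ := uniq (k := 0) (x := 32 * (2 ^ k * a) + 9 * (m + 8 * z)) (by omega) hb
        (by rw [← hP]; ring)
      subst h3
      obtain ⟨h1, h2⟩ := uniq (k := 4) (x := 2 * (2 ^ k * a) + (m + 8 * z)) (by omega) hc
        (by rw [← hQ]; ring)
      subst h1
      clear hP hQ h
      generalize (2 : ℤ) ^ k * a = y at h2 h4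
      exact ⟨by omega, by omega, by omega⟩
  · have hk : k = 0 := by
      by_contra hk
      exact ht2 (ht hk)
    subst hk
    obtain ⟨q, hq⟩ : ∃ q, t = 2 * q := ⟨t / 2, by omega⟩
    subst hq
    have hz : m * (2 * q) ^ 2 = 4 * (m * q ^ 2) := by ring
    rw [hz] at hP hQ
    obtain ⟨h1, h2⟩ := uniq (k := 0) (x := a + 64 * (m * q ^ 2)) (by omega) hc
      (by rw [← hQ]; ring)
    subst h1
    obtain ⟨h3, h4⟩ := uniq (k := 0) (x := a + 36 * (m * q ^ 2)) (by omega) hb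
      (by rw [← hP]; ring)
    subst h3
    clear hP hQ hz ht ht2
    generalize m * q ^ 2 = z at h2 h4
    have hb8 : b % 8 = 1 := trA h ha hb hc (by omega)
    exact ⟨by omega, by omega, by omega⟩

theorem t_NEC2O : S_NEC2O := by
  intro _ m u v hm hu hv hLS
  obtain ⟨x, y, hy, hxy, hxu, hxv⟩ := hLS
  obtain ⟨r, t, hrt, hr0, hP0, hQ0, h1, h2, h3⟩ := appr (9 * m) (16 * m) hy hxy
  have g1 := h1 u hxu
  have g2 := h2 v hxv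
  clear h1 h2 hxu hxv
  obtain ⟨k, a, ek, ha⟩ := dec2 hr0
  obtain ⟨l, b, el, hb⟩ := dec2 hP0
  obtain ⟨j, c, ej, hc⟩ := dec2 hQ0
  obtain ⟨hu1, hu2⟩ := cls ek ha hu g1
  obtain ⟨hv1, hv2⟩ := cls el hb hv g2
  -- the product
  have hprod : (k + l + j) % 2 = 0 ∧ (a * b * c) % 8 = 1 := by
    obtain ⟨n, w, e, hw⟩ := sq2_dec (mul_ne_zero (mul_ne_zero hr0 hP0) hQ0) h3
    have habc : (a * b * c) % 2 = 1 := by
      rw [Int.mul_emod, Int.mul_emod a b, ha, hb, hc]; norm_num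
    have e2 : (2 : ℤ) ^ (k + l + j) * (a * b * c) = 2 ^ (2 * n) * w := by
      rw [← e, el, ej, ek]; ring
    obtain ⟨h4, h5⟩ := uniq habc (by omega) e2
    exact ⟨by omega, by rw [h5]; exact hw⟩
  obtain ⟨hkl, habc⟩ := hprod
  have ht : k ≠ 0 → t % 2 = 1 := by
    intro hk
    by_contra ht2
    have h2t : (2 : ℤ) ∣ t := by omega
    have h2r : (2 : ℤ) ∣ r := by
      rw [ek]
      exact Dvd.dvd.mul_right (dvd_pow_self 2 hk) a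
    have := hrt.isUnit_of_dvd' h2r h2t
    rw [Int.isUnit_iff] at this
    omega
  obtain ⟨c1, c2, c3⟩ := core21 (m := m) (t := t) hm ha hb hc ht (by rw [← el, ek]; ring)
    (by rw [← ej, ek]; ring) hkl habc
  have h8 : ¬ (2 : ℤ) ∣ v := by rw [hv1]; omega
  have h9 : up 2 v = v := by unfold up; rw [if_neg (by exact_mod_cast h8)]
  rw [h9] at hv2
  exact ⟨by rw [hu1]; omega, by omega⟩

end Pool.Agent.H591.X21
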