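import Pool.Agent.H114.X21.Stm
import Pool.Agent.H962.X17.Add

/-!
# X21 NEC3: local conditions at 3 (necessary), 3 inert
-/

set_option autoImplicit false
set_option linter.all false

open scoped Classical

namespace Pool.Agent.H249.X21

open Pool.Agent.H743.X17 (EAB LS up lam ind h2)
open Pool.Agent.H962.X17
open Pool.Agent.H114.X21 (S_NEC3)
open Pool.Agent.H468.X15 (ps dec pI val_of ps_of ps_unit val_unit val_p ps_p nd_mul nd_pow ps_mul
  val_mul jac_sq jac_pm jac_mul_self jac_mul_sq jac_congr ps_sq val_sq ps_pm nd_of_coprime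
  sq_val sq_ps)

theorem t_NEC3 : S_NEC3 := by
  intro hp m u v hm hu hv h
  have hpm : ¬ ((3 : ℕ) : ℤ) ∣ m := by push_cast; omega
  have Jm : J 3 m = 1 := by
    have h1 : ((3 : ℕ) : ℤ) ∣ m - -1 := by push_cast; omega
    rw [J_congr h1]
    unfold J
    rw [if_neg (by norm_num)]
  obtain ⟨r, t, hrt, a1, a2, a3, b1, b2, b3, b4, b5, b6⟩ := data hu hv h
  have key : V 3 r = 0 ∧ V 3 (r + 9 * m * t ^ 2) = 0 := by
    by_cases hr : ((3 : ℕ) : ℤ) ∣ r
    · have ht := nd_of_coprime hrt hr
      obtain ⟨-, q1, q2⟩ := L_near (n := r + 16 * m * t ^ 2) (w := m) hpm ht (by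
        rw [show r + 16 * m * t ^ 2 - m * t ^ 2 = r + ((3 : ℕ) : ℤ) * (5 * (m * t ^ 2)) by
          push_cast; ring]
        exact dvd_add hr (dvd_mul_right _ _))
      rw [q1, add_zero] at b5
      rw [q2, Jm] at b6
      have b5' := z2 b5
      obtain ⟨a, rfl⟩ := hr
      have e1 : ((3 : ℕ) : ℤ) * a + 9 * m * t ^ 2 = ((3 : ℕ) : ℤ) * (a + 3 * m * t ^ 2) := by
        push_cast; ring
      rw [e1] at a2 b5' b6 ⊢
      have c1 := right_ne_zero_of_mul a1
      have c2 := right_ne_zero_of_mul a2
      by_cases k1 : ((3 : ℕ) : ℤ) ∣ a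
      · obtain ⟨b, rfl⟩ := k1
        have e2 : ((3 : ℕ) : ℤ) * b + 3 * m * t ^ 2 = ((3 : ℕ) : ℤ) * (b + m * t ^ 2) := by
          push_cast; ring
        rw [e2] at c2 b5' ⊢
        have d1 := right_ne_zero_of_mul c1
        have d2 := right_ne_zero_of_mul c2
        rw [V_p c1, V_p d1, V_p c2, V_p d2] at b5' ⊢
        have b5'' : V 3 b = V 3 (b + m * t ^ 2) := by
          generalize V 3 b = x at *
          generalize V 3 (b + m * t ^ 2) = y at *
          clear Jm q1 q2 b6
          revert x y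
          decide
        have hz : V 3 b = 0 := by
          by_cases k2 : ((3 : ℕ) : ℤ) ∣ b
          · rw [b5'']
            exact (L_near (n := b + m * t ^ 2) (w := m) hpm ht (by
              rw [add_sub_cancel_right]; exact k2)).2.1
          · exact V_unit k2
        rw [← b5'', hz]
        decide
      · exfalso
        have e3 : ((3 : ℕ) : ℤ) ∣ (a + 3 * m * t ^ 2) - a := ⟨m * t ^ 2, by push_cast; ring⟩
        have k2 : ¬ ((3 : ℕ) : ℤ) ∣ a + 3 * m * t ^ 2 := by
          intro h'
          have := dvd_sub h' e3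
          rw [sub_sub_cancel] at this
          exact k1 this
        rw [L_p c1, L_p c2, L_unit k1, L_unit k2, J_congr e3, CharTwo.add_self_eq_zero,
          zero_add] at b6
        exact one_ne_zero b6
    · refine ⟨V_unit hr, V_unit ?_⟩
      intro h'
      apply hr
      have h1 : ((3 : ℕ) : ℤ) ∣ 9 * m * t ^ 2 := ⟨3 * m * t ^ 2, by push_cast; ring⟩
      have := dvd_sub h' h1
      rwa [add_sub_cancel_right] at this
  obtain ⟨k1, k2⟩ := key
  rw [b1] at k1
  rw [b3] at k2
  constructor
  · intro h'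
    unfold ind at k1
    rw [if_pos (by exact_mod_cast h')] at k1
    exact one_ne_zero k1
  · intro h'
    unfold ind at k2
    rw [if_pos (by exact_mod_cast h')] at k2
    exact one_ne_zero k2

end Pool.Agent.H249.X21
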