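import Pool.Agent.H962.X17.NecOdd
import Pool.Agent.H114.X21.Stm

/-!
# X21 NEC7: local conditions at 7 (necessary), 7 split
-/

set_option autoImplicit false
set_option linter.all false

open scoped Classical

namespace Pool.Agent.H726.X21

open Pool.Agent.H743.X17 Pool.Agent.H962.X17
open Pool.Agent.H468.X15 (ps dec pI val_of ps_of ps_unit val_unit val_p ps_p nd_mul nd_pow ps_mul
  val_mul jac_sq jac_pm jac_mul_self jac_mul_sq jac_congr ps_sq val_sq ps_pm nd_of_coprime
  sq_val sq_ps)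

theorem t_NEC7 : Pool.Agent.H114.X21.S_NEC7 := by
  intro hp m u v hm hu hv h
  have n1 := nd1 (p := 7)
  have J1 : J 7 (-1) = 1 := by
    unfold J
    rw [if_neg (by norm_num)]
  have hpm : ¬ ((7 : ℕ) : ℤ) ∣ m := by
    push_cast
    omega
  have Jm : J 7 m = 0 := by
    unfold J
    rw [if_pos]
    rw [jacobiSym.mod_left]
    push_cast
    rcases hm with h1 | h1 | h1 <;> rw [h1] <;> norm_num
  have n3 : ¬ ((7 : ℕ) : ℤ) ∣ 3 := by norm_num
  have n4 : ¬ ((7 : ℕ) : ℤ) ∣ 4 := by norm_num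
  have J9 : J 7 (9 * m) = 0 := by
    rw [show 9 * m = 3 ^ 2 * m by ring, J_mul (nd_pow n3 2) hpm, J_sq n3, Jm]
    rfl
  have J16 : J 7 (16 * m) = 0 := by
    rw [show 16 * m = 4 ^ 2 * m by ring, J_mul (nd_pow n4 2) hpm, J_sq n4, Jm]
    rfl
  have n9 : ¬ ((7 : ℕ) : ℤ) ∣ 9 * m := by
    rw [show 9 * m = 3 ^ 2 * m by ring]
    exact nd_mul (nd_pow n3 2) hpm
  have n16 : ¬ ((7 : ℕ) : ℤ) ∣ 16 * m := by
    rw [show 16 * m = 4 ^ 2 * m by ring]
    exact nd_mul (nd_pow n4 2) hpm
  obtain ⟨r, t, hrt, a1, a2, a3, b1, b2, b3, b4, b5, b6⟩ := data hu hv h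
  have key : V 7 r = 0 ∧ V 7 (r + 9 * m * t ^ 2) = L 7 r := by
    by_cases hr : ((7 : ℕ) : ℤ) ∣ r
    · have ht := nd_of_coprime hrt hr
      obtain ⟨-, q1, q2⟩ := L_near (n := r + 9 * m * t ^ 2) (w := 9 * m) n9 ht (by
        rw [add_sub_cancel_right]; exact hr)
      obtain ⟨-, q3, q4⟩ := L_near (n := r + 16 * m * t ^ 2) (w := 16 * m) n16 ht (by
        rw [add_sub_cancel_right]; exact hr)
      rw [q1, q3] at b5
      rw [q2, q4, J9, J16] at b6
      rw [q1]
      refine ⟨by simpa using b5, ?_⟩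
      symm
      simpa using b6
    · have hvr := V_unit hr
      refine ⟨hvr, ?_⟩
      by_cases hB : ((7 : ℕ) : ℤ) ∣ r + 9 * m * t ^ 2
      · have ht : ¬ ((7 : ℕ) : ℤ) ∣ t := by
          intro h'
          apply hr
          have h1 : ((7 : ℕ) : ℤ) ∣ 9 * m * t ^ 2 := Dvd.dvd.mul_left (Dvd.dvd.pow h' two_ne_zero) _
          have := dvd_sub hB h1
          rwa [add_sub_cancel_right] at this
        obtain ⟨-, -, q2⟩ := L_near (n := r) (w := -(9 * m)) (ndn n9) ht (by
          rw [show r - -(9 * m) * t ^ 2 = r + 9 * m * t ^ 2 by ring]; exact hB)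
        rw [show -(9 * m) = -1 * (9 * m) by ring, J_mul n1 n9, J1, J9, add_zero] at q2
        obtain ⟨s, hs⟩ := hB
        have eC : r + 16 * m * t ^ 2 = ((7 : ℕ) : ℤ) * (s + m * t ^ 2) := by
          have : r = ((7 : ℕ) : ℤ) * s - 9 * m * t ^ 2 := by linarith
          rw [this]; push_cast; ring
        rw [hs] at a2 b5 ⊢
        rw [eC] at a3 b5
        have c2 := right_ne_zero_of_mul a2
        have c3 := right_ne_zero_of_mul a3
        rw [q2]
        by_cases hs' : ((7 : ℕ) : ℤ) ∣ s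
        · have hC : ¬ ((7 : ℕ) : ℤ) ∣ s + m * t ^ 2 := by
            intro h'
            have := dvd_sub h' hs'
            rw [add_sub_cancel_left] at this
            exact nd_mul hpm (nd_pow ht 2) this
          rw [V_p c3, V_unit hC, hvr] at b5
          generalize V 7 (((7 : ℕ) : ℤ) * s) = x at *
          clear q2 J1 Jm J9 J16
          revert b5
          revert x
          decide
        · rw [V_p c2, V_unit hs']
          rfl
      · have hC : ((7 : ℕ) : ℤ) ∣ r + 16 * m * t ^ 2 - (r + 9 * m * t ^ 2) :=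
          ⟨m * t ^ 2, by push_cast; ring⟩
        have uC : ¬ ((7 : ℕ) : ℤ) ∣ r + 16 * m * t ^ 2 := by
          intro h'
          have := dvd_sub h' hC
          rw [sub_sub_cancel] at this
          exact hB this
        rw [L_unit hB, L_unit uC, J_congr hC, add_assoc, CharTwo.add_self_eq_zero,
          add_zero] at b6
        rw [V_unit hB, b6]
  obtain ⟨k1, k2⟩ := key
  rw [b2, b3] at k2
  rw [b1] at k1
  refine ⟨?_, k2⟩
  intro h'
  unfold ind at k1
  rw [if_pos (by exact_mod_cast h')] at k1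
  exact one_ne_zero k1

end Pool.Agent.H726.X21
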