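import Pool.Agent.H114.X21.Stm
import Pool.Agent.H743.X17.Add

/-!
# X21 NECINF, NECGOOD: local conditions at infinity and at the good primes (necessary)

After `Pool/Agent/H743/X17/NECA.lean` (helper962).
-/

set_option autoImplicit false
set_option linter.all false

open scoped Classical

namespace Pool.Agent.H215.X21

open Pool.Agent.H114.X21
open Pool.Agent.H743.X17 (EAB LS up lam ind h2)
open Pool.Agent.H743.X17.Q962 (V L J V_unit data)
open Pool.Agent.H468.X15 (pI nd_mul nd_pow nd_of_coprime)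

theorem t_NECINF : S_NECINF := by
  intro m u v hm hu hv h
  obtain ⟨x, y, hy, hxy, ⟨s, hs⟩, ⟨w, hw⟩⟩ := h
  obtain ⟨n1, n2, n3⟩ := Pool.Agent.H743.X17.LS.ne hy hxy
  have hy2 : 0 < y ^ 2 := by positivity
  have hs2 : 0 ≤ x * u := by rw [hs]; exact mul_self_nonneg s
  have hu0 : (u : ℝ) ≠ 0 := by exact_mod_cast hu
  have hmR : (m : ℝ) < 0 := by exact_mod_cast hm
  rw [hxy] at hy2
  push_cast at hy2
  have hx : 0 < x := by
    by_contra hcon
    push Not at hcon
    have h1 : x < 0 := lt_of_le_of_ne hcon n1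
    have h2 : x + 9 * (m : ℝ) < 0 := by linarith
    have h3 : x + 16 * (m : ℝ) < 0 := by linarith
    have h4 := mul_neg_of_pos_of_neg (mul_pos_of_neg_of_neg h1 h2) h3
    linarith
  have h2 : 0 ≤ (u : ℝ) := nonneg_of_mul_nonneg_right hs2 hx
  have h3 : 0 < (u : ℝ) := lt_of_le_of_ne h2 (Ne.symm hu0)
  exact_mod_cast h3

theorem ndp {p q : ℕ} [hp : Fact p.Prime] (hq : q.Prime) (h : p ≠ q) : ¬ (p : ℤ) ∣ (q : ℤ) :=
  fun h' => h ((Nat.prime_dvd_prime_iff_eq hp.out hq).1 (by exact_mod_cast h'))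

theorem t_NECGOOD : S_NECGOOD := by
  intro p hp m u v h2 h3 h7 hpm hu hv h
  have n2 : ¬ (p : ℤ) ∣ 2 := ndp Nat.prime_two h2
  have n3 : ¬ (p : ℤ) ∣ 3 := ndp Nat.prime_three h3
  have n7 : ¬ (p : ℤ) ∣ 7 := ndp (by norm_num : Nat.Prime 7) h7
  have n9 : ¬ (p : ℤ) ∣ 9 := by
    have := nd_pow n3 2
    norm_num at this
    exact this
  have n16 : ¬ (p : ℤ) ∣ 16 := by
    have := nd_pow n2 4
    norm_num at this
    exact this
  obtain ⟨r, t, hrt, a1, a2, a3, b1, b2, b3, b4, b5, b6⟩ := data hu hv h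
  have key : V p r = 0 ∧ V p (r + 9 * m * t ^ 2) = 0 := by
    by_cases ht : (p : ℤ) ∣ t
    · have hr : ¬ (p : ℤ) ∣ r := nd_of_coprime hrt.symm ht
      have hB : ¬ (p : ℤ) ∣ r + 9 * m * t ^ 2 := by
        intro h'
        have h1 : (p : ℤ) ∣ 9 * m * t ^ 2 := Dvd.dvd.mul_left (Dvd.dvd.pow ht two_ne_zero) _
        have := dvd_sub h' h1
        rw [add_sub_cancel_right] at this
        exact hr this
      exact ⟨V_unit hr, V_unit hB⟩
    · have nmt := nd_mul hpm (nd_pow ht 2)
      by_cases hr : (p : ℤ) ∣ r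
      · have hB : ¬ (p : ℤ) ∣ r + 9 * m * t ^ 2 := by
          intro h'
          have := dvd_sub h' hr
          rw [show r + 9 * m * t ^ 2 - r = 9 * (m * t ^ 2) by ring] at this
          exact nd_mul n9 nmt this
        have hC : ¬ (p : ℤ) ∣ r + 16 * m * t ^ 2 := by
          intro h'
          have := dvd_sub h' hr
          rw [show r + 16 * m * t ^ 2 - r = 16 * (m * t ^ 2) by ring] at this
          exact nd_mul n16 nmt this
        rw [V_unit hB, V_unit hC] at b5
        refine ⟨?_, V_unit hB⟩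
        simpa using b5
      · by_cases hB : (p : ℤ) ∣ r + 9 * m * t ^ 2
        · have hC : ¬ (p : ℤ) ∣ r + 16 * m * t ^ 2 := by
            intro h'
            have := dvd_sub h' hB
            rw [show r + 16 * m * t ^ 2 - (r + 9 * m * t ^ 2) = 7 * (m * t ^ 2) by ring] at this
            exact nd_mul n7 nmt this
          rw [V_unit hr, V_unit hC] at b5
          refine ⟨V_unit hr, ?_⟩
          simpa using b5
        · exact ⟨V_unit hr, V_unit hB⟩
  rw [b1, b3] at key
  obtain ⟨k1, k2⟩ := key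
  unfold ind at k1 k2
  constructor
  · intro h'
    rw [if_pos h'] at k1
    exact one_ne_zero k1
  · intro h'
    rw [if_pos h'] at k2
    exact one_ne_zero k2

end Pool.Agent.H215.X21
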