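import Pool.Agent.H114.X21.Stm
import Pool.Agent.H962.X17.NecOdd

/-!
# X21 NECR3: local conditions at 3 (necessary), 3 | m
-/

set_option autoImplicit false
set_option linter.all false

open scoped Classical

namespace Pool.Agent.H404.X21

open Pool.Agent.H114.X21
open Pool.Agent.H743.X17 (LS up lam ind)
open Pool.Agent.H962.X17
open Pool.Agent.H468.X15 (ps dec pI val_of ps_of ps_unit val_unit val_p ps_p nd_mul nd_pow ps_mul
  val_mul jac_sq jac_pm jac_mul_self jac_mul_sq jac_congr ps_sq val_sq ps_pm nd_of_coprime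
  sq_val sq_ps)

theorem t_NECR3 : S_NECR3 := by
  intro hp m u v hpm hm hu hv h
  have hpm : ((3 : ℕ) : ℤ) ∣ m := by exact_mod_cast hpm
  obtain ⟨m', rfl⟩ := hpm
  have hm' : ¬ ((3 : ℕ) : ℤ) ∣ m' := by
    rintro ⟨k, rfl⟩
    exact pI.not_unit (hm ((3 : ℕ) : ℤ) ⟨k, by ring⟩)
  have hpz : ((3 : ℕ) : ℤ) ≠ 0 := by norm_num
  have n1 := nd1 (p := 3)
  have J1 : J 3 (-1) = 1 := by
    unfold J
    rw [if_neg (by norm_num)]
  have Jn : ∀ w : ℤ, ¬ ((3 : ℕ) : ℤ) ∣ w → J 3 (-w) = 1 + J 3 w := fun w hw => by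
    rw [show -w = -1 * w by ring, J_mul n1 hw, J1]
  have e1 : lam 3 (-(((3 : ℕ) : ℤ) * m')) = 1 + J 3 m' := by
    have e : up 3 (-(((3 : ℕ) : ℤ) * m')) = -m' := by
      unfold up
      rw [if_pos (Dvd.dvd.neg_right (dvd_mul_right _ _)),
        show -(((3 : ℕ) : ℤ) * m') = ((3 : ℕ) : ℤ) * (-m') by ring,
        Int.mul_ediv_cancel_left _ hpz]
    rw [← Jn _ hm']
    unfold lam J
    rw [e]
  have e2 : lam 3 (((3 : ℕ) : ℤ) * m') = J 3 m' := by
    have e : up 3 (((3 : ℕ) : ℤ) * m') = m' := by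
      unfold up
      rw [if_pos (dvd_mul_right _ _), Int.mul_ediv_cancel_left _ hpz]
    unfold lam J
    rw [e]
  have e3 : lam 3 (-7) = 1 := by
    have e : up 3 (-7) = -7 := by
      unfold up
      rw [if_neg (by norm_num)]
    unfold lam
    rw [e, if_neg (by norm_num [jacobiSym])]
  rw [e1, e2, e3]
  obtain ⟨r, t, hrt, a1, a2, a3, b1, b2, b3, b4, b5, b6⟩ := data hu hv h
  rw [← b1, ← b2, ← b3, ← b4]
  clear b1 b2 b3 b4 e1 e2 e3
  by_cases hr : ((3 : ℕ) : ℤ) ∣ r
  · have ht := nd_of_coprime hrt hr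
    obtain ⟨a, rfl⟩ := hr
    have eB : ((3 : ℕ) : ℤ) * a + 9 * (((3 : ℕ) : ℤ) * m') * t ^ 2 =
      ((3 : ℕ) : ℤ) * (a + 9 * m' * t ^ 2) := by ring
    have eC : ((3 : ℕ) : ℤ) * a + 16 * (((3 : ℕ) : ℤ) * m') * t ^ 2 =
      ((3 : ℕ) : ℤ) * (a + 16 * m' * t ^ 2) := by ring
    rw [eB] at a2 b5 b6 ⊢
    rw [eC] at a3 b5 b6
    have c1 := right_ne_zero_of_mul a1
    have c2 := right_ne_zero_of_mul a2
    have c3 := right_ne_zero_of_mul a3
    rw [V_p c1, V_p c2, V_p c3] at b5
    rw [L_p c1, L_p c2, L_p c3] at b6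
    rw [V_p c1, V_p c2, L_p c1, L_p c2]
    clear a1 a2 a3 eB eC
    by_cases k1 : ((3 : ℕ) : ℤ) ∣ a
    · obtain ⟨-, q1, q2⟩ := L_near (n := a + 16 * m' * t ^ 2) (w := m') hm' ht (by
        rw [show a + 16 * m' * t ^ 2 - m' * t ^ 2 = a + ((3 : ℕ) : ℤ) * (5 * m' * t ^ 2) by
          push_cast; ring]
        exact dvd_add k1 (dvd_mul_right _ _))
      obtain ⟨b, rfl⟩ := k1
      have eB : ((3 : ℕ) : ℤ) * b + 9 * m' * t ^ 2 =
        ((3 : ℕ) : ℤ) * (b + 3 * m' * t ^ 2) := by push_cast; ring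
      rw [q1] at b5
      rw [q2] at b6
      rw [eB] at c2 b5 b6 ⊢
      have d1 := right_ne_zero_of_mul c1
      have d2 := right_ne_zero_of_mul c2
      rw [V_p d1, V_p d2] at b5 ⊢
      rw [L_p d1, L_p d2] at b6 ⊢
      clear c1 c2 c3 eB q1 q2
      by_cases k2 : ((3 : ℕ) : ℤ) ∣ b
      · obtain ⟨c, rfl⟩ := k2
        have eB : ((3 : ℕ) : ℤ) * c + 3 * m' * t ^ 2 =
          ((3 : ℕ) : ℤ) * (c + m' * t ^ 2) := by push_cast; ring
        rw [eB] at d2 b5 b6 ⊢
        have f1 := right_ne_zero_of_mul d1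
        have f2 := right_ne_zero_of_mul d2
        rw [V_p f1, V_p f2] at b5 ⊢
        rw [L_p f1, L_p f2] at b6 ⊢
        clear d1 d2 eB
        by_cases k3 : ((3 : ℕ) : ℤ) ∣ c
        · obtain ⟨-, q1, q2⟩ := L_near (n := c + m' * t ^ 2) (w := m') hm' ht (by
            rw [add_sub_cancel_right]; exact k3)
          rw [q1] at b5 ⊢
          rw [q2] at b6 ⊢
          generalize V 3 c = x1 at *
          generalize L 3 c = x2 at *
          clear q2 Jn
          generalize J 3 m' = x3 at *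
          clear J1
          revert x1 x2 x3
          decide
        · have v1 := V_unit k3
          rw [v1] at b5 ⊢
          by_cases k4 : ((3 : ℕ) : ℤ) ∣ c + m' * t ^ 2
          · obtain ⟨-, -, q2⟩ := L_near (n := c) (w := -m') (ndn hm') ht (by
              rw [show c - -m' * t ^ 2 = c + m' * t ^ 2 by ring]; exact k4)
            rw [Jn _ hm'] at q2
            rw [q2] at b6 ⊢
            generalize V 3 (c + m' * t ^ 2) = x1 at *
            generalize L 3 (c + m' * t ^ 2) = x2 at *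
            clear q2 Jn
            generalize J 3 m' = x3 at *
            clear J1
            revert x1 x2 x3
            decide
          · exfalso
            rw [V_unit k4] at b5
            revert b5
            decide
      · exfalso
        have k3 : ¬ ((3 : ℕ) : ℤ) ∣ b + 3 * m' * t ^ 2 := by
          intro h'
          apply k2
          have := dvd_sub h' (dvd_mul_right ((3 : ℕ) : ℤ) (m' * t ^ 2))
          rwa [show b + 3 * m' * t ^ 2 - ((3 : ℕ) : ℤ) * (m' * t ^ 2) = b by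
            push_cast; ring] at this
        rw [V_unit k2, V_unit k3] at b5
        revert b5
        decide
    · have v1 := V_unit k1
      have hB : ((3 : ℕ) : ℤ) ∣ a + 9 * m' * t ^ 2 - a :=
        ⟨3 * m' * t ^ 2, by push_cast; ring⟩
      have uB : ¬ ((3 : ℕ) : ℤ) ∣ a + 9 * m' * t ^ 2 := by
        intro h'
        have := dvd_sub h' hB
        rw [sub_sub_cancel] at this
        exact k1 this
      rw [v1, V_unit uB] at b5 ⊢
      rw [L_unit k1, L_unit uB, J_congr hB] at b6 ⊢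
      by_cases k2 : ((3 : ℕ) : ℤ) ∣ a + 16 * m' * t ^ 2
      · obtain ⟨-, -, q2⟩ := L_near (n := a) (w := -m') (ndn hm') ht (by
          rw [show a - -m' * t ^ 2 = a + 16 * m' * t ^ 2 - ((3 : ℕ) : ℤ) * (5 * m' * t ^ 2) by
            push_cast; ring]
          exact dvd_sub k2 (dvd_mul_right _ _))
        rw [Jn _ hm', L_unit k1] at q2
        rw [q2]
        clear q2 Jn b5 b6
        generalize J 3 m' = x3 at *
        clear J1
        revert x3
        decide
      · exfalso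
        rw [V_unit k2] at b5
        revert b5
        decide
  · obtain ⟨q1, q2, q3, q4⟩ := all_units hr (b := r + 9 * (((3 : ℕ) : ℤ) * m') * t ^ 2)
      (c := r + 16 * (((3 : ℕ) : ℤ) * m') * t ^ 2) ⟨9 * m' * t ^ 2, by ring⟩
      ⟨16 * m' * t ^ 2, by ring⟩ b6
    rw [q1, q2, q3, q4]
    simp

end Pool.Agent.H404.X21
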