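import Pool.Agent.H962.X17.NecOdd
import Pool.Agent.H114.X21.Stm

/-!
# X21 NECR7: local conditions at 7 (necessary), `7 ∣ m`
-/

set_option autoImplicit false
set_option linter.all false

open scoped Classical

namespace Pool.Agent.H628.X21

open Pool.Agent.H743.X17
open Pool.Agent.H962.X17
open Pool.Agent.H114.X21 (S_NECR7)
open Pool.Agent.H468.X15 (ps dec pI val_of ps_of ps_unit val_unit val_p ps_p nd_mul nd_pow ps_mul
  val_mul jac_sq jac_pm jac_mul_self jac_mul_sq jac_congr ps_sq val_sq ps_pm nd_of_coprime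
  sq_val sq_ps)

theorem t_NECR7 : S_NECR7 := by
  intro hp m u v hpm hm hu hv h
  have n1 := nd1 (p := 7)
  have n3 : ¬ ((7 : ℕ) : ℤ) ∣ 3 := by norm_num
  have n4 : ¬ ((7 : ℕ) : ℤ) ∣ 4 := by norm_num
  have J1 : J 7 (-1) = 1 := by
    unfold J
    rw [if_neg (by norm_num)]
  have Jn : ∀ w : ℤ, ¬ ((7 : ℕ) : ℤ) ∣ w → J 7 (-1 * w) = 1 + J 7 w := fun w hw => by
    rw [J_mul n1 hw, J1]
  have j3 : ∀ w : ℤ, ¬ ((7 : ℕ) : ℤ) ∣ w → J 7 (3 ^ 2 * w) = J 7 w := fun w hw => by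
    rw [J_mul (nd_pow n3 2) hw, J_sq n3, zero_add]
  have j4 : ∀ w : ℤ, ¬ ((7 : ℕ) : ℤ) ∣ w → J 7 (4 ^ 2 * w) = J 7 w := fun w hw => by
    rw [J_mul (nd_pow n4 2) hw, J_sq n4, zero_add]
  obtain ⟨r, t, hrt, a1, a2, a3, b1, b2, b3, b4, b5, b6⟩ := data hu hv h
  have hpm : ((7 : ℕ) : ℤ) ∣ m := by exact_mod_cast hpm
  obtain ⟨m', rfl⟩ := hpm
  have hm' : ¬ ((7 : ℕ) : ℤ) ∣ m' := by
    rintro ⟨k, rfl⟩
    exact pI.not_unit (hm ((7 : ℕ) : ℤ) ⟨k, by ring⟩)
  have hpz : ((7 : ℕ) : ℤ) ≠ 0 := by norm_num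
  have em : lam 7 (((7 : ℕ) : ℤ) * m') = J 7 m' := by
    have e : up 7 (((7 : ℕ) : ℤ) * m') = m' := by
      unfold up
      rw [if_pos (dvd_mul_right _ _), Int.mul_ediv_cancel_left _ hpz]
    unfold lam J
    rw [e]
  have en : lam 7 (-(((7 : ℕ) : ℤ) * m')) = 1 + J 7 m' := by
    have e : up 7 (-(((7 : ℕ) : ℤ) * m')) = (-1) * m' := by
      unfold up
      rw [if_pos (Dvd.dvd.neg_right (dvd_mul_right _ _)),
        show -(((7 : ℕ) : ℤ) * m') = ((7 : ℕ) : ℤ) * (-1 * m') by ring,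
        Int.mul_ediv_cancel_left _ hpz]
    rw [← Jn _ hm']
    unfold lam J
    rw [e]
  rw [em, en, ← b1, ← b2, ← b3, ← b4]
  clear b1 b2 b3 b4
  by_cases hr : ((7 : ℕ) : ℤ) ∣ r
  · have ht := nd_of_coprime hrt hr
    obtain ⟨a, rfl⟩ := hr
    have eB : ((7 : ℕ) : ℤ) * a + 9 * (((7 : ℕ) : ℤ) * m') * t ^ 2 =
      ((7 : ℕ) : ℤ) * (a + 9 * m' * t ^ 2) := by ring
    have eC : ((7 : ℕ) : ℤ) * a + 16 * (((7 : ℕ) : ℤ) * m') * t ^ 2 =
      ((7 : ℕ) : ℤ) * (a + 16 * m' * t ^ 2) := by ring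
    rw [eB] at a2 b5 b6 ⊢
    rw [eC] at a3 b5 b6
    have c1 := right_ne_zero_of_mul a1
    have c2 := right_ne_zero_of_mul a2
    have c3 := right_ne_zero_of_mul a3
    rw [V_p c1, V_p c2, V_p c3] at b5
    rw [L_p c1, L_p c2, L_p c3] at b6
    rw [V_p c1, V_p c2, L_p c1, L_p c2]
    by_cases k1 : ((7 : ℕ) : ℤ) ∣ a
    · obtain ⟨-, q1, q2⟩ := L_near (n := a + 9 * m' * t ^ 2) (w := 3 ^ 2 * m')
        (nd_mul (nd_pow n3 2) hm') ht (by
        rw [show a + 9 * m' * t ^ 2 - 3 ^ 2 * m' * t ^ 2 = a by ring]; exact k1)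
      obtain ⟨-, q3, q4⟩ := L_near (n := a + 16 * m' * t ^ 2) (w := 4 ^ 2 * m')
        (nd_mul (nd_pow n4 2) hm') ht (by
        rw [show a + 16 * m' * t ^ 2 - 4 ^ 2 * m' * t ^ 2 = a by ring]; exact k1)
      rw [j3 _ hm'] at q2
      rw [j4 _ hm'] at q4
      rw [q1, q3] at b5
      rw [q2, q4] at b6
      rw [q1, q2]
      generalize V 7 a = x1 at *
      generalize L 7 a = x2 at *
      generalize J 7 m' = x3 at *
      clear em en q2 q4 Jn J1 j3 j4
      revert x1 x2 x3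
      decide
    · have v1 := V_unit k1
      rw [v1] at b5 ⊢
      by_cases k2 : ((7 : ℕ) : ℤ) ∣ a + 9 * m' * t ^ 2
      · obtain ⟨-, -, q2⟩ := L_near (n := a) (w := -1 * (3 ^ 2 * m'))
          (nd_mul n1 (nd_mul (nd_pow n3 2) hm')) ht (by
          rw [show a - -1 * (3 ^ 2 * m') * t ^ 2 = a + 9 * m' * t ^ 2 by ring]; exact k2)
        rw [Jn _ (nd_mul (nd_pow n3 2) hm'), j3 _ hm'] at q2
        obtain ⟨s, hs⟩ := k2
        have eC' : a + 16 * m' * t ^ 2 = ((7 : ℕ) : ℤ) * (s + m' * t ^ 2) := by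
          have : a = ((7 : ℕ) : ℤ) * s - 9 * m' * t ^ 2 := by linarith
          rw [this]; push_cast; ring
        rw [hs] at c2 b5 b6 ⊢
        rw [eC'] at c3 b5 b6
        have d2 := right_ne_zero_of_mul c2
        have d3 := right_ne_zero_of_mul c3
        rw [V_p d2, V_p d3] at b5
        rw [L_p d2, L_p d3] at b6
        rw [V_p d2, L_p d2]
        by_cases k3 : ((7 : ℕ) : ℤ) ∣ s
        · obtain ⟨-, q3, q4⟩ := L_near (n := s + m' * t ^ 2) (w := m') hm' ht (by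
            rw [add_sub_cancel_right]; exact k3)
          rw [q3] at b5
          rw [q4, q2] at b6
          rw [q2]
          generalize V 7 s = x1 at *
          generalize L 7 s = x2 at *
          generalize J 7 m' = x3 at *
          clear em en q2 q4 Jn J1 j3 j4
          revert x1 x2 x3
          decide
        · have v2 := V_unit k3
          rw [v2] at b5 ⊢
          by_cases k4 : ((7 : ℕ) : ℤ) ∣ s + m' * t ^ 2
          · obtain ⟨-, q3, q4⟩ := L_near (n := s) (w := -1 * m') (nd_mul n1 hm') ht (by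
              rw [show s - -1 * m' * t ^ 2 = s + m' * t ^ 2 by ring]; exact k4)
            rw [Jn _ hm'] at q4
            rw [q2, q4]
            generalize J 7 m' = x3 at *
            clear em en q2 q4 Jn J1 j3 j4 b5 b6
            revert x3
            decide
          · exfalso
            rw [V_unit k4] at b5
            revert b5
            decide
      · exfalso
        have hC : ¬ ((7 : ℕ) : ℤ) ∣ a + 16 * m' * t ^ 2 := by
          intro h'
          apply k2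
          have := dvd_sub h' (dvd_mul_right ((7 : ℕ) : ℤ) (m' * t ^ 2))
          rwa [show a + 16 * m' * t ^ 2 - ((7 : ℕ) : ℤ) * (m' * t ^ 2) = a + 9 * m' * t ^ 2 by
            push_cast; ring] at this
        rw [V_unit k2, V_unit hC] at b5
        revert b5
        decide
  · obtain ⟨q1, q2, q3, q4⟩ := all_units hr (b := r + 9 * (((7 : ℕ) : ℤ) * m') * t ^ 2)
      (c := r + 16 * (((7 : ℕ) : ℤ) * m') * t ^ 2) ⟨9 * m' * t ^ 2, by ring⟩
      ⟨16 * m' * t ^ 2, by ring⟩ b6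
    rw [q1, q2, q3, q4]
    simp

end Pool.Agent.H628.X21
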