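import Pool.Agent.H114.X21.Stm
import Pool.Agent.H743.X17.SUFGOOD

/-!
# X21 SUF1: the local conditions for the classes `(1, v)` are sufficient
-/

set_option autoImplicit false
set_option linter.unusedSectionVars false

open scoped Classical

namespace Pool.Agent.H921.X21

open Pool.Agent.H114.X21
open Pool.Agent.H743.X17 (EAB LS up lam ind h2 LS.one LS.shiftA LS.congr sq2_of)
open Pool.Agent.H468.X15 (sq_of_jac jac_pm nd_mul sq_of_mod8 pI ppos)

theorem t_SUF1GOOD : S_SUF1GOOD := by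
  intro p hp m v hp2 hp3 hp7 hm hv
  have n2 : ¬ (p : ℤ) ∣ 2 := by
    intro h'
    exact hp2 ((Nat.prime_dvd_prime_iff_eq hp.out Nat.prime_two).1 (by exact_mod_cast h'))
  have n3 : ¬ (p : ℤ) ∣ 3 := by
    intro h'
    exact hp3 ((Nat.prime_dvd_prime_iff_eq hp.out (by norm_num)).1 (by exact_mod_cast h'))
  have n7 : ¬ (p : ℤ) ∣ 7 := by
    intro h'
    exact hp7 ((Nat.prime_dvd_prime_iff_eq hp.out (by norm_num)).1 (by exact_mod_cast h'))
  have n1 : ¬ (p : ℤ) ∣ 1 := by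
    intro h'
    exact n2 (h'.trans (one_dvd _))
  have n9 : ¬ (p : ℤ) ∣ 9 := by
    have := nd_mul n3 n3
    norm_num at this
    exact this
  have n16 : ¬ (p : ℤ) ∣ 16 := by
    have := nd_mul (nd_mul n2 n2) (nd_mul n2 n2)
    norm_num at this
    exact this
  refine Pool.Agent.H743.X17.QSUFGOOD.good hp2 (nd_mul n9 hm) (nd_mul n16 hm) ?_ n1 hv
  rw [show 9 * m - 16 * m = -(7 * m) by ring, dvd_neg]
  exact nd_mul n7 hm

section

variable {p : ℕ} [hp : Fact p.Prime]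

theorem castne {n : ℤ} (h : n ≠ 0) : ((n : ℤ) : ℚ_[p]) ≠ 0 := by exact_mod_cast h

theorem sqmul {a b c : ℤ} (h : c = a * b) (ha : IsSquare ((a : ℤ) : ℚ_[p]))
    (hb : IsSquare ((b : ℤ) : ℚ_[p])) : IsSquare ((c : ℤ) : ℚ_[p]) := by
  subst h
  push_cast
  exact IsSquare.mul ha hb

theorem sqsq {a c : ℤ} (h : c = a * a) : IsSquare ((c : ℤ) : ℚ_[p]) := by
  subst h
  exact ⟨(a : ℚ_[p]), by push_cast; ring⟩

/-- the trivial class -/
theorem c0 {m v : ℤ} (hv : IsSquare ((v : ℤ) : ℚ_[p])) : LS (9 * m) (16 * m) 1 v ℚ_[p] :=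
  (LS.one (9 * m) (16 * m)).congr (by norm_num) (by norm_num) (sqsq (a := 1) (by ring))
    (sqmul (a := 1) (b := v) (by ring) (sqsq (a := 1) (by ring)) hv)

/-- the class of `(0, 0)` -/
theorem c1 {m v : ℤ} (hm : m ≠ 0) (hv : IsSquare ((m * v : ℤ) : ℚ_[p])) :
    LS (9 * m) (16 * m) 1 v ℚ_[p] := by
  have h9 : (((9 * m : ℤ)) : ℚ_[p]) ≠ 0 := castne (by omega)
  have h16 : (((16 * m : ℤ)) : ℚ_[p]) ≠ 0 := castne (by omega)
  have h := (LS.one (p := p) (9 * m) (16 * m)).shiftA h9 h16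
  refine h.congr (castne ?_) (castne ?_) ?_ ?_
  · have e : 9 * m * (16 * m) * 1 = 144 * (m * m) := by ring
    rw [e]
    exact mul_ne_zero (by norm_num) (mul_ne_zero hm hm)
  · omega
  · exact sqsq (a := 12 * m) (by ring)
  · exact sqmul (a := 3 * 3) (b := m * v) (by ring) (sqsq rfl) hv

theorem lam_unit {n : ℤ} (h : ¬ (p : ℤ) ∣ n) :
    lam p n = if jacobiSym n p = 1 then 0 else 1 := by
  unfold lam up
  rw [if_neg h]

theorem lam_mulp {n : ℤ} : lam p ((p : ℤ) * n) = if jacobiSym n p = 1 then 0 else 1 := by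
  unfold lam up
  rw [if_pos (dvd_mul_right _ _), Int.mul_ediv_cancel_left _ ppos]

theorem divp {a : ℤ} (ha : Squarefree a) (h : (p : ℤ) ∣ a) :
    ∃ b : ℤ, a = p * b ∧ ¬ (p : ℤ) ∣ b := by
  obtain ⟨b, rfl⟩ := h
  refine ⟨b, rfl, ?_⟩
  rintro ⟨c, rfl⟩
  exact pI.not_isUnit (ha p ⟨c, by ring⟩)

/-- the odd prime divisors of `m` -/
theorem oddp (hp2 : p ≠ 2) {m v : ℤ} (hm : Squarefree m) (hv : Squarefree v) (hpm : (p : ℤ) ∣ m)
    (h : lam p v = ind p v * lam p m) : LS (9 * m) (16 * m) 1 v ℚ_[p] := by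
  have hm0 := hm.ne_zero
  by_cases hpv : (p : ℤ) ∣ v
  · obtain ⟨m', rfl, hm'⟩ := divp hm hpm
    obtain ⟨v', rfl, hv'⟩ := divp hv hpv
    refine c1 hm0 ?_
    refine sqmul (a := p * p) (b := m' * v') (by ring) (sqsq rfl) ?_
    refine sq_of_jac hp2 (nd_mul hm' hv') ?_
    rw [jacobiSym.mul_left]
    have i1 : ind p ((p : ℤ) * v') = 1 := by
      unfold ind
      rw [if_pos (dvd_mul_right _ _)]
    rw [i1, one_mul, lam_mulp, lam_mulp] at h
    rcases jac_pm hm' with h1 | h1 <;> rcases jac_pm hv' with h2 | h2 <;>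
      rw [h1, h2] at h ⊢ <;> simp at h ⊢
  · refine c0 ?_
    have i1 : ind p v = 0 := by
      unfold ind
      rw [if_neg hpv]
    rw [i1, zero_mul, lam_unit hpv] at h
    refine sq_of_jac hp2 hpv ?_
    by_contra hc
    rw [if_neg hc] at h
    exact absurd h (by decide)

end

theorem sq3 [Fact (Nat.Prime 3)] {n : ℤ} (h : n % 3 = 1) : IsSquare ((n : ℤ) : ℚ_[3]) := by
  refine sq_of_jac (by norm_num) (by push_cast; omega) ?_
  rw [jacobiSym.mod_left]
  push_cast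
  rw [h]
  norm_num

theorem sq7 [Fact (Nat.Prime 7)] {n : ℤ} (h : n % 7 = 1 ∨ n % 7 = 2 ∨ n % 7 = 4) :
    IsSquare ((n : ℤ) : ℚ_[7]) := by
  refine sq_of_jac (by norm_num) (by push_cast; omega) ?_
  rw [jacobiSym.mod_left]
  push_cast
  rcases h with h | h | h <;> rw [h] <;> norm_num

theorem bad3 [Fact (Nat.Prime 3)] {m v : ℤ} (hm : m % 3 = 2) (hv : ¬ (3 : ℤ) ∣ v) :
    LS (9 * m) (16 * m) 1 v ℚ_[3] := by
  have h : v % 3 = 1 ∨ v % 3 = 2 := by omega
  rcases h with h | h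
  · exact c0 (sq3 h)
  · refine c1 (by rintro rfl; omega) (sq3 ?_)
    rw [Int.mul_emod, hm, h]
    norm_num

theorem bad7 [Fact (Nat.Prime 7)] {m v : ℤ} (hm : m % 7 = 1 ∨ m % 7 = 2 ∨ m % 7 = 4)
    (hv : ¬ (7 : ℤ) ∣ v) : LS (9 * m) (16 * m) 1 v ℚ_[7] := by
  by_cases h : v % 7 = 1 ∨ v % 7 = 2 ∨ v % 7 = 4
  · exact c0 (sq7 h)
  · have hv' : v % 7 = 3 ∨ v % 7 = 5 ∨ v % 7 = 6 := by omega
    have sm : IsSquare ((m : ℤ) : ℚ_[7]) := sq7 hm
    have m0 : m ≠ 0 := by rintro rfl; omega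
    have s1 : IsSquare ((m * (m + 9 * m) * (m + 16 * m) : ℤ) : ℚ_[7]) := by
      refine sqmul (a := m * m * m) (b := 170) (by ring) ?_ (sq7 (by norm_num))
      exact sqmul rfl (sqmul rfl sm sm) sm
    have s2 : IsSquare (((m + 9 * m) * v : ℤ) : ℚ_[7]) := by
      refine sqmul (a := m) (b := 10 * v) (by ring) sm (sq7 ?_)
      omega
    obtain ⟨y, hy⟩ := s1
    refine ⟨m, y, ?_, ?_, ?_, ?_⟩
    · rintro rfl
      rw [mul_zero] at hy
      have : m * (m + 9 * m) * (m + 16 * m) = 0 := by exact_mod_cast hy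
      have h9 : m * (m + 9 * m) * (m + 16 * m) = 170 * (m * m * m) := by ring
      rw [h9] at this
      exact mul_ne_zero (by norm_num) (mul_ne_zero (mul_ne_zero m0 m0) m0) this
    · rw [sq y, ← hy]
      push_cast
      ring
    · push_cast
      rw [mul_one]
      exact sm
    · push_cast at s2 ⊢
      exact s2

theorem bad2 [Fact (Nat.Prime 2)] {m v : ℤ} (hm : m ≠ 0) (ho : m % 4 = 1 → v % 4 = 1)
    (he : m % 4 ≠ 1 → ((up 2 v % 8 = 1 ∧ ¬ (2 : ℤ) ∣ v) ∨
      (((2 : ℤ) ∣ v ↔ (2 : ℤ) ∣ m) ∧ (up 2 v * up 2 m) % 8 = 1))) :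
    LS (9 * m) (16 * m) 1 v ℚ_[2] := by
  by_cases h4 : m % 4 = 1
  · have hv4 := ho h4
    have h5 : v % 8 = 1 ∨ v % 8 = 5 := by omega
    rcases h5 with h5 | h5
    · exact c0 (sq_of_mod8 h5)
    · have h6 : m % 8 = 1 ∨ m % 8 = 5 := by omega
      rcases h6 with h6 | h6
      · have sm : IsSquare ((m : ℤ) : ℚ_[2]) := sq_of_mod8 h6
        have s1 : IsSquare ((4 * m * (4 * m + 9 * m) * (4 * m + 16 * m) : ℤ) : ℚ_[2]) := by
          refine sqmul (a := m * m * m) (b := 4 * 4 * 65) (by ring) ?_ ?_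
          · exact sqmul rfl (sqmul rfl sm sm) sm
          · exact sqmul rfl (sqsq rfl) (sq_of_mod8 (by norm_num))
        have s2 : IsSquare (((4 * m + 9 * m) * v : ℤ) : ℚ_[2]) := by
          refine sqmul (a := m) (b := 13 * v) (by ring) sm (sq_of_mod8 ?_)
          omega
        have s3 : IsSquare ((4 * m : ℤ) : ℚ_[2]) :=
          sqmul (a := 2 * 2) (b := m) (by ring) (sqsq rfl) sm
        obtain ⟨y, hy⟩ := s1
        refine ⟨4 * m, y, ?_, ?_, ?_, ?_⟩
        · rintro rfl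
          rw [mul_zero] at hy
          have : 4 * m * (4 * m + 9 * m) * (4 * m + 16 * m) = 0 := by exact_mod_cast hy
          have h9 : 4 * m * (4 * m + 9 * m) * (4 * m + 16 * m) = 1040 * (m * m * m) := by ring
          rw [h9] at this
          exact mul_ne_zero (by norm_num) (mul_ne_zero (mul_ne_zero hm hm) hm) this
        · rw [sq y, ← hy]
          push_cast
          ring
        · push_cast at s3 ⊢
          rw [mul_one]
          exact s3
        · push_cast at s2 ⊢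
          exact s2
      · refine c1 hm (sq_of_mod8 ?_)
        rw [Int.mul_emod, h5, h6]
        norm_num
  · rcases he h4 with ⟨h1, h2⟩ | ⟨h1, h2⟩
    · refine c0 (sq_of_mod8 ?_)
      unfold up at h1
      rw [if_neg (by exact_mod_cast h2)] at h1
      exact h1
    · refine c1 hm ?_
      by_cases hv2 : (2 : ℤ) ∣ v
      · have hm2 := h1.1 hv2
        unfold up at h2
        rw [if_pos (by exact_mod_cast hv2), if_pos (by exact_mod_cast hm2)] at h2
        obtain ⟨v', rfl⟩ := hv2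
        obtain ⟨m', rfl⟩ := hm2
        push_cast at h2
        rw [Int.mul_ediv_cancel_left _ (by norm_num), Int.mul_ediv_cancel_left _ (by norm_num)] at h2
        refine sqmul (a := 2 * 2) (b := v' * m') (by ring) (sqsq rfl) (sq_of_mod8 h2)
      · have hm2 : ¬ (2 : ℤ) ∣ m := fun h => hv2 (h1.2 h)
        unfold up at h2
        rw [if_neg (by exact_mod_cast hv2), if_neg (by exact_mod_cast hm2)] at h2
        rw [mul_comm]
        exact sq_of_mod8 h2

theorem t_SUF1BAD : S_SUF1BAD := by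
  intro p hp m v hK hv hV hbad
  have hm0 := hK.sqf.ne_zero
  by_cases hp2 : p = 2
  · subst hp2
    exact bad2 hm0 hV.o2 hV.e2
  by_cases hpm : (p : ℤ) ∣ m
  · exact oddp hp2 hK.sqf hv hpm (hV.odd p hp.out hp2 hpm)
  have hpv := hV.dvd p hp.out hp2 hpm
  rcases hbad with h | rfl | rfl | h
  · exact absurd h hp2
  · have hpm' : ¬ (3 : ℤ) ∣ m := by exact_mod_cast hpm
    have := hK.c3
    exact bad3 (by omega) (by exact_mod_cast hpv)
  · have hpm' : ¬ (7 : ℤ) ∣ m := by exact_mod_cast hpm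
    have := hK.c7
    exact bad7 (by omega) (by exact_mod_cast hpv)
  · exact absurd h hpm

end Pool.Agent.H921.X21
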