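import Pool.Agent.H114.X21.Stm
import Pool.Graph.R_seed8.TH841.SH.Alg

/-!
# X21 TORS: the torsion subgroup of E_m(Q) has order four
-/

set_option autoImplicit false

open scoped Classical

namespace Pool.Agent.H980.X21TORS

open Pool.Agent.H743.X17 (EAB)
open Pool.Agent.H114.X21
open Pool.Agent.TH841.SH
open WeierstrassCurve

/-! ### 2-adic norms -/

theorem n2 : ‖(2 : ℚ_[2])‖ = 1 / 2 := by
  have := Padic.norm_p (p := 2)
  simpa using this

theorem n4 : ‖(4 : ℚ_[2])‖ = 1 / 4 := by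
  have : (4 : ℚ_[2]) = 2 ^ 2 := by norm_num
  rw [this, norm_pow, n2]
  norm_num

theorem n16 : ‖(16 : ℚ_[2])‖ = 1 / 16 := by
  have : (16 : ℚ_[2]) = 2 ^ 4 := by norm_num
  rw [this, norm_pow, n2]
  norm_num

/-- the values of the norm are powers of two -/
theorem disc0 {x : ℚ_[2]} (h : ‖x‖ < 1) : ‖x‖ ≤ 1 / 2 := by
  have h1 := (Padic.norm_le_pow_iff_norm_lt_pow_add_one x (-1)).2 (by simpa using h)
  simpa using h1

theorem disc (k : ℕ) {x : ℚ_[2]} (h : ‖x‖ < (1 / 2) ^ k) : ‖x‖ ≤ (1 / 2) ^ (k + 1) := by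
  have h2 : ‖x / 2 ^ k‖ = ‖x‖ / (1 / 2) ^ k := by rw [norm_div, norm_pow, n2]
  have h3 : ‖x / 2 ^ k‖ < 1 := by
    rw [h2, div_lt_one (by positivity)]
    exact h
  have h4 := disc0 h3
  rw [h2, div_le_iff₀ (by positivity)] at h4
  rw [pow_succ]
  linarith

theorem nadd {a b : ℚ_[2]} (h : ‖b‖ < ‖a‖) : ‖a + b‖ = ‖a‖ := by
  have h1 := IsUltrametricDist.norm_add_eq_max_of_norm_ne_norm (x := a) (y := b) h.ne'
  rw [h1, max_eq_left h.le]

theorem nsub {a b : ℚ_[2]} (h : ‖b‖ < ‖a‖) : ‖a - b‖ = ‖a‖ := by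
  rw [sub_eq_add_neg]
  exact nadd (by rwa [norm_neg])

theorem nle {a b : ℚ_[2]} {c : ℝ} (h1 : ‖a‖ ≤ c) (h2 : ‖b‖ ≤ c) : ‖a + b‖ ≤ c :=
  (IsUltrametricDist.norm_add_le_max a b).trans (max_le h1 h2)

theorem nle' {a b : ℚ_[2]} {c : ℝ} (h1 : ‖a‖ ≤ c) (h2 : ‖b‖ ≤ c) : ‖a - b‖ ≤ c := by
  rw [sub_eq_add_neg]
  exact nle h1 (by rwa [norm_neg])

theorem unit_sub_one {a : ℚ_[2]} (h : ‖a‖ = 1) : ‖a - 1‖ ≤ 1 / 2 := by
  obtain ⟨x, rfl⟩ : ∃ x : ℤ_[2], (x : ℚ_[2]) = a := ⟨⟨a, h.le⟩, rfl⟩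
  apply disc0
  have hx : ¬ ‖x‖ < 1 := by
    rw [PadicInt.norm_def, h]
    exact lt_irrefl 1
  have h1 : PadicInt.toZMod x = 1 := by
    have h2 : PadicInt.toZMod x ≠ 0 := by
      intro h3
      apply hx
      have h4 : x ∈ RingHom.ker (PadicInt.toZMod (p := 2)) := h3
      rw [PadicInt.ker_toZMod, IsLocalRing.mem_maximalIdeal, PadicInt.mem_nonunits] at h4
      exact h4
    revert h2
    generalize PadicInt.toZMod x = t
    revert t
    decide
  have h2 : x - 1 ∈ RingHom.ker (PadicInt.toZMod (p := 2)) := by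
    rw [RingHom.mem_ker, map_sub, h1, map_one, sub_self]
  rw [PadicInt.ker_toZMod, IsLocalRing.mem_maximalIdeal, PadicInt.mem_nonunits,
    PadicInt.norm_def] at h2
  simpa using h2

/-- the square of a unit is `1` modulo `8` -/
theorem sq_unit {a : ℚ_[2]} (h : ‖a‖ = 1) : ‖a ^ 2 - 1‖ ≤ 1 / 8 := by
  have h1 := unit_sub_one h
  have h2 : ‖a + 1‖ ≤ 1 / 2 := by
    have : a + 1 = (a - 1) + 2 := by ring
    rw [this]
    exact nle h1 n2.le
  have e : a ^ 2 - 1 = (a - 1) * (a + 1) := by ring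
  rw [e, norm_mul]
  have p1 := norm_nonneg (a - 1)
  have p2 := norm_nonneg (a + 1)
  rcases lt_or_eq_of_le h1 with h3 | h3
  · have h4 := disc 1 (x := a - 1) (by simpa using h3)
    norm_num at h4
    nlinarith
  · have h5 : ‖(a - 1) / 2‖ = 1 := by rw [norm_div, h3, n2]; norm_num
    have h6 := unit_sub_one h5
    have h7 : ‖a + 1‖ ≤ 1 / 4 := by
      have e2 : a + 1 = 2 * (((a - 1) / 2 - 1) + 2) := by ring
      rw [e2, norm_mul, n2]
      have h8 : ‖((a - 1) / 2 - 1) + 2‖ ≤ 1 / 2 := nle h6 n2.le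
      linarith
    nlinarith

/-! ### the curve -/

/-- the curve over `ℚ` -/
abbrev E (m : ℤ) : WeierstrassCurve ℚ := EAB (9 * m) (16 * m)

theorem isR (m : ℤ) : IsR (E m) 0 (-(9 * m)) (-(16 * m)) := by
  constructor
  · rfl
  · show (((9 * m : ℤ) : ℚ) + ((16 * m : ℤ) : ℚ)) = _
    push_cast
    ring
  · rfl
  · show (((9 * m : ℤ) : ℚ) * ((16 * m : ℤ) : ℚ)) = _
    push_cast
    ring
  · show (0 : ℚ) = _
    ring

section

variable {m : ℤ}

theorem nm_le (m : ℤ) : ‖(m : ℚ_[2])‖ ≤ 1 := Padic.norm_int_le_one m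

theorem n16m (m : ℤ) : ‖(16 : ℚ_[2]) * m‖ ≤ 1 / 16 := by
  rw [norm_mul, n16]
  have := nm_le m
  nlinarith

theorem n9 : ‖(9 : ℚ_[2])‖ = 1 := by
  have h : (9 : ℚ_[2]) = 1 + 8 := by norm_num
  have h8 : ‖(8 : ℚ_[2])‖ = 1 / 8 := by
    have : (8 : ℚ_[2]) = 2 ^ 3 := by norm_num
    rw [this, norm_pow, n2]
    norm_num
  rw [h, nadd, norm_one]
  rw [h8, norm_one]
  norm_num

theorem n8 : ‖(8 : ℚ_[2])‖ = 1 / 8 := by
  have : (8 : ℚ_[2]) = 2 ^ 3 := by norm_num
  rw [this, norm_pow, n2]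
  norm_num

theorem n9m (m : ℤ) : ‖(9 : ℚ_[2]) * m‖ = ‖(m : ℚ_[2])‖ := by
  rw [norm_mul, n9, one_mul]

theorem n144 : ‖(144 : ℚ_[2])‖ = 1 / 16 := by
  have : (144 : ℚ_[2]) = 16 * 9 := by norm_num
  rw [this, norm_mul, n16, n9, mul_one]

theorem dbl {x y : ℚ} (hn : (E m).toAffine.Nonsingular x y) (hy : y ≠ 0) :
    ∃ (X Y : ℚ) (hn' : (E m).toAffine.Nonsingular X Y),
      (Affine.Point.some x y hn : (E m).toAffine.Point) + .some x y hn = .some X Y hn' ∧
      X = ((x ^ 2 - 144 * m ^ 2) / (2 * y)) ^ 2 ∧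
      X + 9 * m = ((x ^ 2 + 18 * m * x + 144 * m ^ 2) / (2 * y)) ^ 2 ∧
      X + 16 * m = ((x ^ 2 + 32 * m * x + 144 * m ^ 2) / (2 * y)) ^ 2 := by
  obtain ⟨X, Y, hn', h1, h2⟩ := (isR m).dup two_ne_zero hn hy
  obtain ⟨X2, Y2, hn2, h3, h4⟩ := (isR m).rot.dup two_ne_zero hn hy
  obtain ⟨X3, Y3, hn3, h5, h6⟩ := (isR m).rot.rot.dup two_ne_zero hn hy
  rw [h1] at h3 h5
  obtain ⟨rfl, rfl⟩ : X = X2 ∧ Y = Y2 := by simpa using h3
  obtain ⟨rfl, rfl⟩ : X = X3 ∧ Y = Y3 := by simpa using h5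
  refine ⟨X, Y, hn', h1, ?_, ?_, ?_⟩
  · rw [← sub_zero X, h2]
    congr 2
    ring
  · rw [← sub_neg_eq_add, h4]
    congr 2
    ring
  · rw [← sub_neg_eq_add, h6]
    congr 2
    ring

theorem eqn {x y : ℚ} (hn : (E m).toAffine.Nonsingular x y) :
    (y : ℚ_[2]) ^ 2 = x * (x + 9 * m) * (x + 16 * m) := by
  have h := ((isR m).eqn x y).1 hn.1
  have h2 : y ^ 2 = x * (x + 9 * m) * (x + 16 * m) := by
    rw [h]; ring
  exact_mod_cast h2

theorem norm_dbl {x y X : ℚ} (hX : X = ((x ^ 2 - 144 * m ^ 2) / (2 * y)) ^ 2) (hy : y ≠ 0) :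
    ‖(X : ℚ_[2])‖ * ‖(y : ℚ_[2])‖ ^ 2 = 4 * ‖(x : ℚ_[2]) ^ 2 - 144 * m ^ 2‖ ^ 2 := by
  have hy' : (y : ℚ_[2]) ≠ 0 := by exact_mod_cast hy
  have h1 : (X : ℚ_[2]) * (4 * (y : ℚ_[2]) ^ 2) = ((x : ℚ_[2]) ^ 2 - 144 * m ^ 2) ^ 2 := by
    rw [hX]
    push_cast
    field_simp
    ring
  have h2 := congrArg norm h1
  rw [norm_mul, norm_mul, norm_pow, norm_pow, n4] at h2
  linarith

/-- a point with `|x|₂ > 1` has infinite order -/
theorem big {x y : ℚ} (hn : (E m).toAffine.Nonsingular x y) (hx : 1 < ‖(x : ℚ_[2])‖) :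
    ¬ IsOfFinAddOrder (Affine.Point.some x y hn : (E m).toAffine.Point) := by
  have step : ∀ (x y : ℚ) (hn : (E m).toAffine.Nonsingular x y), 1 < ‖(x : ℚ_[2])‖ →
      ∃ (X Y : ℚ) (hn' : (E m).toAffine.Nonsingular X Y),
      (Affine.Point.some x y hn : (E m).toAffine.Point) + .some x y hn = .some X Y hn' ∧
      ‖(X : ℚ_[2])‖ = 4 * ‖(x : ℚ_[2])‖ := by
    intro x y hn hx
    have he := eqn hn
    have h1 : ‖(x : ℚ_[2]) + 9 * m‖ = ‖(x : ℚ_[2])‖ := nadd (by
      rw [n9m]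
      exact (nm_le m).trans_lt hx)
    have h2 : ‖(x : ℚ_[2]) + 16 * m‖ = ‖(x : ℚ_[2])‖ := nadd (by
      have := n16m m
      linarith)
    have h3 : ‖(y : ℚ_[2])‖ ^ 2 = ‖(x : ℚ_[2])‖ ^ 3 := by
      rw [← norm_pow, he, norm_mul, norm_mul, h1, h2]
      ring
    have hxp : 0 < ‖(x : ℚ_[2])‖ := by linarith
    have hy : y ≠ 0 := by
      intro h
      rw [h, Rat.cast_zero, norm_zero] at h3
      have : 0 < ‖(x : ℚ_[2])‖ ^ 3 := by positivity
      rw [← h3] at this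
      norm_num at this
    obtain ⟨X, Y, hn', h4, h5, -, -⟩ := dbl hn hy
    refine ⟨X, Y, hn', h4, ?_⟩
    have h6 := norm_dbl h5 hy
    have h7 : ‖(x : ℚ_[2]) ^ 2 - 144 * (m : ℚ_[2]) ^ 2‖ = ‖(x : ℚ_[2])‖ ^ 2 := by
      rw [← norm_pow]
      apply nsub
      rw [norm_mul, norm_pow, norm_pow, n144]
      have := nm_le m
      have := norm_nonneg (m : ℚ_[2])
      nlinarith
    rw [h7, h3] at h6
    have h8 : ‖(x : ℚ_[2])‖ ^ 3 * (‖(X : ℚ_[2])‖ - 4 * ‖(x : ℚ_[2])‖) = 0 := by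
      linear_combination h6
    rcases mul_eq_zero.1 h8 with h9 | h9
    · exact absurd h9 (by positivity)
    · linarith
  have all : ∀ n : ℕ, ∃ (X Y : ℚ) (hn' : (E m).toAffine.Nonsingular X Y),
      2 ^ n • (Affine.Point.some x y hn : (E m).toAffine.Point) = .some X Y hn' ∧
      ‖(X : ℚ_[2])‖ = 4 ^ n * ‖(x : ℚ_[2])‖ := by
    intro n
    induction n with
    | zero => exact ⟨x, y, hn, by rw [pow_zero, one_nsmul], by rw [pow_zero, one_mul]⟩
    | succ n ih =>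
      obtain ⟨X1, Y1, hn1, h3, h4⟩ := ih
      have h5 : 1 < ‖(X1 : ℚ_[2])‖ := by
        rw [h4]
        have : (1 : ℝ) ≤ 4 ^ n := one_le_pow₀ (by norm_num)
        nlinarith
      obtain ⟨X2, Y2, hn2, h6, h7⟩ := step _ _ hn1 h5
      refine ⟨X2, Y2, hn2, ?_, ?_⟩
      · rw [pow_succ, mul_nsmul, two_nsmul, h3]
        exact h6
      · rw [h7, h4, pow_succ]
        ring
  intro hfin
  have hf : (AddSubmonoid.multiples (Affine.Point.some x y hn : (E m).toAffine.Point) :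
      Set (E m).toAffine.Point).Finite := finite_multiples.2 hfin
  refine Set.infinite_of_injective_forall_mem
    (f := fun n : ℕ => 2 ^ n • (Affine.Point.some x y hn : (E m).toAffine.Point)) ?_ ?_ hf
  · intro a b hab
    simp only at hab
    obtain ⟨X1, Y1, hn1, h1, e1⟩ := all a
    obtain ⟨X2, Y2, hn2, h3, e2⟩ := all b
    rw [h1, h3] at hab
    obtain ⟨rfl, rfl⟩ : X1 = X2 ∧ Y1 = Y2 := by simpa using hab
    rw [e2] at e1
    have h5 : (0 : ℝ) < ‖(x : ℚ_[2])‖ := by linarith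
    have h6 : (4 : ℝ) ^ b = 4 ^ a := mul_right_cancel₀ h5.ne' e1
    exact (pow_right_injective₀ (by norm_num : (0 : ℝ) < 4) (by norm_num) h6).symm
  · intro n
    exact ⟨2 ^ n, rfl⟩

theorem fin_dbl {P : (E m).toAffine.Point} (h : IsOfFinAddOrder P) : IsOfFinAddOrder (P + P) := by
  rw [← two_nsmul]
  exact h.nsmul

/-- a torsion point which is not of order two has `|x|₂ < 1` -/
theorem small {x y : ℚ} (hn : (E m).toAffine.Nonsingular x y) (hy : y ≠ 0)
    (hfin : IsOfFinAddOrder (Affine.Point.some x y hn : (E m).toAffine.Point)) :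
    ‖(x : ℚ_[2])‖ < 1 := by
  by_contra hcon
  rcases lt_or_eq_of_le (not_lt.1 hcon) with h1 | h1
  · exact big hn h1 hfin
  · obtain ⟨X, Y, hn', h4, h5, -, -⟩ := dbl hn hy
    have hfin2 := fin_dbl hfin
    rw [h4] at hfin2
    refine big hn' ?_ hfin2
    have he := eqn hn
    have h2 : ‖(x : ℚ_[2]) + 16 * m‖ = 1 := by
      rw [nadd, ← h1]
      rw [← h1]
      have := n16m m
      linarith
    have h3 : ‖(x : ℚ_[2]) + 9 * m‖ ≤ 1 := nle h1.symm.le (by rw [n9m]; exact nm_le m)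
    have hy2 : ‖(y : ℚ_[2])‖ ^ 2 ≤ 1 := by
      rw [← norm_pow, he, norm_mul, norm_mul, h2, ← h1, one_mul, mul_one]
      exact h3
    have h6 := norm_dbl h5 hy
    have h7 : ‖(x : ℚ_[2]) ^ 2 - 144 * (m : ℚ_[2]) ^ 2‖ = 1 := by
      rw [nsub, norm_pow, ← h1, one_pow]
      rw [norm_mul, norm_pow, norm_pow, n144, ← h1]
      have := nm_le m
      have := norm_nonneg (m : ℚ_[2])
      nlinarith
    rw [h7] at h6
    have hyp : 0 < ‖(y : ℚ_[2])‖ := norm_pos_iff.2 (by exact_mod_cast hy)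
    by_contra hc
    have hc' := not_lt.1 hc
    have : ‖(X : ℚ_[2])‖ * ‖(y : ℚ_[2])‖ ^ 2 ≤ 1 * 1 := by gcongr
    linarith

theorem not7 (q : ℚ) : q ^ 2 ≠ 7 := by
  intro h
  have h1 : IsSquare ((7 : ℕ) : ℚ) := ⟨q, by push_cast; rw [← h, sq]⟩
  rw [Rat.isSquare_natCast_iff] at h1
  obtain ⟨k, hk⟩ := h1
  rcases Nat.lt_or_ge k 3 with h2 | h2
  · interval_cases k <;> omega
  · nlinarith

/-- the double of a torsion point -/
theorem facts (hm : m < 0) {x y : ℚ} (hn : (E m).toAffine.Nonsingular x y) (hy : y ≠ 0)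
    (hfin : IsOfFinAddOrder (Affine.Point.some x y hn : (E m).toAffine.Point)) :
    ∃ (Z Y R S T : ℚ) (hn' : (E m).toAffine.Nonsingular Z Y), Y ≠ 0 ∧
      IsOfFinAddOrder (Affine.Point.some Z Y hn' : (E m).toAffine.Point) ∧
      Z = ((x ^ 2 - 144 * m ^ 2) / (2 * y)) ^ 2 ∧ Z = R ^ 2 ∧ Z + 9 * m = S ^ 2 ∧
      Z + 16 * m = T ^ 2 ∧ ‖(Z : ℚ_[2])‖ < 1 := by
  obtain ⟨Z, Y, hn', h4, h5, h6, h7⟩ := dbl hn hy
  have hfin2 := fin_dbl hfin
  rw [h4] at hfin2
  have hmQ : (m : ℚ) < 0 := by exact_mod_cast hm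
  have hY : Y ≠ 0 := by
    intro h0
    have he := ((isR m).eqn Z Y).1 hn'.1
    rw [h0] at he
    have hprod : (Z - 0) * (Z - -(9 * (m : ℚ))) * (Z - -(16 * m)) = 0 := by rw [← he]; ring
    generalize (x ^ 2 - 144 * (m : ℚ) ^ 2) / (2 * y) = r at *
    generalize (x ^ 2 + 18 * m * x + 144 * (m : ℚ) ^ 2) / (2 * y) = s at *
    generalize (x ^ 2 + 32 * m * x + 144 * (m : ℚ) ^ 2) / (2 * y) = t at *
    rcases mul_eq_zero.1 hprod with h8 | h8
    · rcases mul_eq_zero.1 h8 with h9 | h9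
      · nlinarith [sq_nonneg s]
      · nlinarith [sq_nonneg t]
    · have hZ : Z = -(16 * m) := by linarith
      have hr0 : r ≠ 0 := by
        intro hr
        rw [hr] at h5
        nlinarith
      apply not7 (4 * s / r)
      rw [div_pow, mul_pow, ← h5, ← h6, hZ]
      have hm0 : (m : ℚ) ≠ 0 := hmQ.ne
      field_simp
      ring
  exact ⟨Z, Y, _, _, _, hn', hY, hfin2, h5, h5, h6, h7, small hn' hY hfin2⟩

theorem sq_small {z r : ℚ_[2]} (h : z = r ^ 2) (hz : ‖z‖ < 1) : ‖r‖ ≤ 1 / 2 := by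
  apply disc0
  by_contra hc
  have h1 := not_lt.1 hc
  rw [h, norm_pow] at hz
  nlinarith

theorem norm_one_of_sq {s : ℚ_[2]} (h : ‖s‖ ^ 2 = 1) : ‖s‖ = 1 := by
  have h5 := norm_nonneg s
  nlinarith

/-- the norm of a square is not one half -/
theorem not_half {s : ℚ_[2]} (h5 : ‖s‖ ^ 2 = 1 / 2) : False := by
  have h6 : ‖s‖ < 1 := by
    by_contra hc
    nlinarith [not_lt.1 hc]
  have h7 := disc0 h6
  nlinarith [norm_nonneg s]

/-- the torsion points have order at most two -/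
theorem two_of_tors (hsq : Squarefree m) (hm : m < 0) {P : (E m).toAffine.Point}
    (hfin : IsOfFinAddOrder P) : P + P = 0 := by
  have h4m : ¬ (4 : ℤ) ∣ m := by
    intro h
    have := hsq 2 (by simpa using h)
    exact absurd (Int.isUnit_iff.1 this) (by norm_num)
  rcases P with _ | ⟨x, y, hn⟩
  · exact add_zero _
  by_cases hy : y = 0
  · exact ((isR m).add_self two_ne_zero hn).2 hy
  exfalso
  obtain ⟨Z, Y, R, S, T, hn1, hY, hf1, -, hR, hS, hT, hZ⟩ := facts hm hn hy hfin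
  have hR' : (Z : ℚ_[2]) = (R : ℚ_[2]) ^ 2 := by exact_mod_cast hR
  have hS' : (Z : ℚ_[2]) + 9 * m = (S : ℚ_[2]) ^ 2 := by exact_mod_cast hS
  have hT' : (Z : ℚ_[2]) + 16 * m = (T : ℚ_[2]) ^ 2 := by exact_mod_cast hT
  have hRn := sq_small hR' hZ
  have hZ4 : ‖(Z : ℚ_[2])‖ ≤ 1 / 4 := by
    rw [hR', norm_pow]
    nlinarith [norm_nonneg (R : ℚ_[2])]
  -- `m` is odd
  have hodd : ‖(m : ℚ_[2])‖ = 1 := by
    by_contra h1
    have h2 : ‖(m : ℚ_[2])‖ < 1 := lt_of_le_of_ne (nm_le m) h1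
    have h3 : (2 : ℤ) ∣ m := by
      have := (Padic.norm_intCast_lt_one_iff (p := 2) (k := m)).1 h2
      simpa using this
    have h4 : ‖(m : ℚ_[2])‖ = 1 / 2 := by
      obtain ⟨k, rfl⟩ := h3
      have hk : ‖(k : ℚ_[2])‖ = 1 := by
        by_contra h5
        have h6 : ‖(k : ℚ_[2])‖ < 1 := lt_of_le_of_ne (nm_le k) h5
        have h7 := (Padic.norm_intCast_lt_one_iff (p := 2) (k := k)).1 h6
        apply h4m
        obtain ⟨l, hl⟩ := h7
        exact ⟨l, by rw [hl]; push_cast; ring⟩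
      push_cast
      rw [norm_mul, hk, n2, mul_one]
    have h5 : ‖(S : ℚ_[2])‖ ^ 2 = 1 / 2 := by
      rw [← norm_pow, ← hS', add_comm, nadd (by rw [n9m, h4]; linarith), n9m, h4]
    exact not_half h5
  -- `m = 1` modulo `8` up to `Z`
  have hSn : ‖(S : ℚ_[2])‖ = 1 := by
    apply norm_one_of_sq
    rw [← norm_pow, ← hS', add_comm, nadd (by rw [n9m, hodd]; linarith), n9m, hodd]
  have hS8 := sq_unit hSn
  rw [← hS'] at hS8
  have h4mn : ‖(4 : ℚ_[2]) * m‖ = 1 / 4 := by rw [norm_mul, n4, hodd, mul_one]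
  rcases lt_or_eq_of_le hRn with hR2 | hR2
  · -- `|R| ≤ 1/4`
    have hR4 : ‖(R : ℚ_[2])‖ ≤ 1 / 4 := by
      have := disc 1 (x := (R : ℚ_[2])) (by simpa using hR2)
      norm_num at this ⊢
      exact this
    have hZ16 : ‖(Z : ℚ_[2])‖ ≤ 1 / 16 := by
      rw [hR', norm_pow]
      nlinarith [norm_nonneg (R : ℚ_[2])]
    have hm1 : ‖(m : ℚ_[2]) - 1‖ ≤ 1 / 8 := by
      have e : (m : ℚ_[2]) - 1 = ((Z + 9 * m - 1) - Z) - 8 * m := by ring
      rw [e]
      refine nle' (nle' hS8 (by linarith)) ?_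
      rw [norm_mul, n8, hodd, mul_one]
    have hw : ‖(R : ℚ_[2]) / 4‖ ≤ 1 := by
      rw [norm_div, n4]
      linarith
    have hT4 : ((T : ℚ_[2]) / 4) ^ 2 = ((R : ℚ_[2]) / 4) ^ 2 + m := by
      rw [div_pow, ← hT', hR']
      ring
    generalize hw' : (R : ℚ_[2]) / 4 = w at hw hT4
    generalize (T : ℚ_[2]) / 4 = t at hT4
    have hwle : ‖w‖ ≤ 1 / 4 := by
      rcases lt_or_eq_of_le hw with h1 | h1
      · have h2 := disc0 h1
        rcases lt_or_eq_of_le h2 with h3 | h3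
        · have := disc 1 (x := w) (by simpa using h3)
          norm_num at this ⊢
          exact this
        · -- `|w| = 1/2`
          exfalso
          have hw2 : ‖w ^ 2‖ = 1 / 4 := by
            rw [norm_pow, h3]
            norm_num
          have ht : ‖t‖ = 1 := by
            apply norm_one_of_sq
            rw [← norm_pow, hT4, add_comm, nadd, hodd]
            rw [hw2, hodd]
            norm_num
          have h5 := sq_unit ht
          rw [hT4] at h5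
          have e : w ^ 2 = (w ^ 2 + m - 1) - (m - 1) := by ring
          rw [e] at hw2
          have h6 := nle' h5 hm1
          rw [hw2] at h6
          norm_num at h6
      · -- `|w| = 1`
        exfalso
        have h5 := sq_unit h1
        have e : w ^ 2 + m = 2 + ((w ^ 2 - 1) + (m - 1)) := by ring
        have h6 : ‖t‖ ^ 2 = 1 / 2 := by
          rw [← norm_pow, hT4, e, nadd, n2]
          rw [n2]
          have := nle h5 hm1
          linarith
        exact not_half h6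
    have hZw : ‖(Z : ℚ_[2])‖ ≤ 1 / 256 := by
      have e : (Z : ℚ_[2]) = 16 * w ^ 2 := by
        rw [hR', ← hw']
        ring
      rw [e, norm_mul, norm_pow, n16]
      nlinarith [norm_nonneg w]
    -- the double of the double
    obtain ⟨Z', Y', hn2, h4, h5, -, -⟩ := dbl hn1 hY
    have hfin2 := fin_dbl hf1
    rw [h4] at hfin2
    refine big hn2 ?_ hfin2
    have he := eqn hn1
    have hdb := norm_dbl h5 hY
    have h6 : ‖(Z : ℚ_[2]) + 9 * m‖ = 1 := by
      rw [hS', norm_pow, hSn, one_pow]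
    have h16m : ‖(16 : ℚ_[2]) * m‖ = 1 / 16 := by rw [norm_mul, n16, hodd, mul_one]
    have h7 : ‖(Z : ℚ_[2]) + 16 * m‖ = 1 / 16 := by
      rw [add_comm, nadd, h16m]
      rw [h16m]
      linarith
    have h8 : ‖(Y : ℚ_[2])‖ ^ 2 = ‖(Z : ℚ_[2])‖ * (1 / 16) := by
      rw [← norm_pow, he, norm_mul, norm_mul, h6, h7, mul_one]
    have h9 : ‖(Z : ℚ_[2]) ^ 2 - 144 * (m : ℚ_[2]) ^ 2‖ = 1 / 16 := by
      have h10 : ‖144 * (m : ℚ_[2]) ^ 2‖ = 1 / 16 := by
        rw [norm_mul, norm_pow, n144, hodd]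
        norm_num
      rw [← norm_neg, neg_sub, nsub, h10]
      rw [h10, norm_pow]
      nlinarith [norm_nonneg (Z : ℚ_[2])]
    rw [h8, h9] at hdb
    by_contra hc
    have hc' := not_lt.1 hc
    have h11 : ‖(Z' : ℚ_[2])‖ * (‖(Z : ℚ_[2])‖ * (1 / 16)) ≤ 1 * (1 / 256 * (1 / 16)) := by
      gcongr
    rw [hdb] at h11
    norm_num at h11
  · -- `|Z| = 1/4`
    have hw : ‖(R : ℚ_[2]) / 2‖ = 1 := by
      rw [norm_div, hR2, n2]
      norm_num
    have hT4 : ((T : ℚ_[2]) / 2) ^ 2 = ((R : ℚ_[2]) / 2) ^ 2 + 4 * m := by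
      rw [div_pow, ← hT', hR']
      ring
    have h1 := sq_unit hw
    generalize (R : ℚ_[2]) / 2 = w at hw hT4 h1
    generalize (T : ℚ_[2]) / 2 = t at hT4
    have ht : ‖t‖ = 1 := by
      apply norm_one_of_sq
      rw [← norm_pow, hT4, nadd, norm_pow, hw, one_pow]
      rw [h4mn, norm_pow, hw]
      norm_num
    have h2 := sq_unit ht
    rw [hT4] at h2
    have e : (4 : ℚ_[2]) * m = (w ^ 2 + 4 * m - 1) - (w ^ 2 - 1) := by ring
    rw [e] at h4mn
    have h3 := nle' h2 h1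
    rw [h4mn] at h3
    norm_num at h3

theorem t_TORS : S_TORS := by
  intro m hK
  have hsq := hK.sqf
  have hm : m ≠ 0 := hsq.ne_zero
  have hmQ : (m : ℚ) ≠ 0 := by exact_mod_cast hm
  have hW := isR m
  have hns : ∀ x : ℚ, x * (x + 9 * m) * (x + 16 * m) = 0 → (E m).toAffine.Nonsingular x 0 := by
    intro x hx
    refine hW.nons two_ne_zero ?_ ?_ ?_ ?_
    · intro h
      apply hmQ
      linarith
    · intro h
      apply hmQ
      linarith
    · intro h
      apply hmQ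
      linarith
    · rw [← sub_eq_zero]
      linear_combination -hx
  have g0 := hns 0 (by ring)
  have g1 := hns (-(9 * m)) (by ring)
  have g2 := hns (-(16 * m)) (by ring)
  set T0 : (E m).toAffine.Point := .some 0 0 g0 with hT0
  set T1 : (E m).toAffine.Point := .some (-(9 * m)) 0 g1 with hT1
  set T2 : (E m).toAffine.Point := .some (-(16 * m)) 0 g2 with hT2
  have key : ((AddCommGroup.torsion (E m).toAffine.Point : AddSubgroup _) :
      Set (E m).toAffine.Point) = (({0, T0, T1, T2} : Finset (E m).toAffine.Point) :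
        Set (E m).toAffine.Point) := by
    ext P
    simp only [SetLike.mem_coe, Finset.coe_insert, Finset.coe_singleton, Set.mem_insert_iff,
      Set.mem_singleton_iff]
    constructor
    · intro hP
      have hfin : IsOfFinAddOrder P := hP
      have h3 := two_of_tors hsq hK.neg hfin
      rcases hW.tors two_ne_zero h3 with h | ⟨h5, h⟩ | ⟨h5, h⟩ | ⟨h5, h⟩
      · exact Or.inl h
      · exact Or.inr (Or.inl h)
      · exact Or.inr (Or.inr (Or.inl h))
      · exact Or.inr (Or.inr (Or.inr h))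
    · have hall : ∀ (T : (E m).toAffine.Point), T + T = 0 → T ∈ (AddCommGroup.torsion _ :
          AddSubgroup (E m).toAffine.Point) := by
        intro T hT
        show IsOfFinAddOrder T
        rw [isOfFinAddOrder_iff_nsmul_eq_zero]
        exact ⟨2, by norm_num, by rw [two_nsmul]; exact hT⟩
      rintro (rfl | rfl | rfl | rfl)
      · exact hall _ (add_zero _)
      · exact hall _ ((hW.add_self two_ne_zero g0).2 rfl)
      · exact hall _ ((hW.add_self two_ne_zero g1).2 rfl)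
      · exact hall _ ((hW.add_self two_ne_zero g2).2 rfl)
  have n1 : (0 : (E m).toAffine.Point) ≠ T0 := (Affine.Point.some_ne_zero _).symm
  have n2 : (0 : (E m).toAffine.Point) ≠ T1 := (Affine.Point.some_ne_zero _).symm
  have n3 : (0 : (E m).toAffine.Point) ≠ T2 := (Affine.Point.some_ne_zero _).symm
  have n4 : T0 ≠ T1 := by
    intro h
    rw [hT0, hT1] at h
    have h5 : (0 : ℚ) = -(9 * m) := (Affine.Point.some.inj h).1
    apply hmQ
    linarith
  have n5 : T0 ≠ T2 := by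
    intro h
    rw [hT0, hT2] at h
    have h5 : (0 : ℚ) = -(16 * m) := (Affine.Point.some.inj h).1
    apply hmQ
    linarith
  have n6 : T1 ≠ T2 := by
    intro h
    rw [hT1, hT2] at h
    have h5 : (-(9 * m) : ℚ) = -(16 * m) := (Affine.Point.some.inj h).1
    apply hmQ
    linarith
  have hc : Nat.card (AddCommGroup.torsion (E m).toAffine.Point) =
      (({0, T0, T1, T2} : Finset (E m).toAffine.Point) : Set (E m).toAffine.Point).ncard := by
    rw [← key]
    rfl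
  show Nat.card (AddCommGroup.torsion (E m).toAffine.Point) = 4
  rw [hc, Set.ncard_coe_finset, Finset.card_insert_of_notMem, Finset.card_insert_of_notMem,
    Finset.card_insert_of_notMem, Finset.card_singleton]
  · simp only [Finset.mem_singleton]
    exact n6
  · simp only [Finset.mem_insert, Finset.mem_singleton, not_or]
    exact ⟨n4, n5⟩
  · simp only [Finset.mem_insert, Finset.mem_singleton, not_or]
    exact ⟨n1, n2, n3⟩

end

end Pool.Agent.H980.X21TORS
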