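import Pool.Agent.H114.X21.Stm

/-! # US: the first component of a Selmer class (helper287, for helper114) -/

set_option autoImplicit false
set_option linter.all false

namespace Pool.Agent.H287.X21

open Pool.Agent.H743.X17 (up lam ind h2)
open Pool.Agent.N969.P15 (Qc Qe)
open Pool.Agent.H114.X21

theorem lam0 {p : ℕ} {n : ℤ} (h : lam p n = 0) : jacobiSym (up p n) p = 1 := by
  unfold lam at h
  by_contra hc
  rw [if_neg hc] at h
  exact absurd h (by decide)

theorem lameq {p : ℕ} {a b : ℤ} (h : lam p a = lam p b) :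
    jacobiSym (up p a) p = 1 ↔ jacobiSym (up p b) p = 1 := by
  unfold lam at h
  by_cases h1 : jacobiSym (up p a) p = 1 <;> by_cases h2 : jacobiSym (up p b) p = 1
  · exact ⟨fun _ => h2, fun _ => h1⟩
  · rw [if_pos h1, if_neg h2] at h
    exact absurd h (by decide)
  · rw [if_neg h1, if_pos h2] at h
    exact absurd h (by decide)
  · exact ⟨fun h3 => absurd h3 h1, fun h3 => absurd h3 h2⟩

/-- the cofactor of a prime divisor of a squarefree integer is prime to it -/
theorem cof {p : ℕ} (hp : p.Prime) {n : ℤ} (hn : Squarefree n) (h : (p : ℤ) ∣ n) :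
    ¬ (p : ℤ) ∣ n / p := by
  intro h2
  obtain ⟨k, hk⟩ := h
  have hp0 : (p : ℤ) ≠ 0 := by exact_mod_cast hp.ne_zero
  rw [hk, Int.mul_ediv_cancel_left _ hp0] at h2
  obtain ⟨j, hj⟩ := h2
  have h3 : (p : ℤ) * p ∣ n := ⟨j, by rw [hk, hj]; ring⟩
  have h4 := hn _ h3
  have h5 := Int.natAbs_of_isUnit h4
  rw [Int.natAbs_natCast] at h5
  exact hp.one_lt.ne' h5

theorem jne {p : ℕ} (hp : p.Prime) {a : ℤ} (h : ¬ (p : ℤ) ∣ a) :
    jacobiSym a p = 1 ∨ jacobiSym a p = -1 := by
  haveI : Fact p.Prime := ⟨hp⟩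
  apply jacobiSym.eq_one_or_neg_one
  have h1 : IsCoprime (p : ℤ) a :=
    (Prime.coprime_iff_not_dvd (Nat.prime_iff_prime_int.1 hp)).2 h
  have h2 := h1.symm
  rwa [Int.isCoprime_iff_gcd_eq_one] at h2

/-- the symbols at the odd primes dividing `m` -/
theorem key {m u v : ℤ} (hm : Squarefree m) (hu : Squarefree u) (h : LC m u v) {p : ℕ}
    (hp : p.Prime) (hp2 : p ≠ 2) (hpm : (p : ℤ) ∣ m) :
    (¬ (p : ℤ) ∣ u → jacobiSym u p = 1) ∧
      ((p : ℤ) ∣ u → jacobiSym (u / p * (-m / p)) p = 1) := by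
  have h0 : lam p u = ind p u * lam p (-m) := by
    by_cases h7 : p = 7
    · subst h7
      exact (h.r7 (by exact_mod_cast hpm)).1
    · exact (h.odd p hp hp2 h7 hpm).1
  constructor
  · intro hu'
    have h1 : lam p u = 0 := by
      rw [h0, ind, if_neg hu', zero_mul]
    have h2 := lam0 h1
    rwa [up, if_neg hu'] at h2
  · intro hu'
    have h1 : lam p u = lam p (-m) := by
      rw [h0, ind, if_pos hu', one_mul]
    have h2 := lameq h1
    have hpm' : (p : ℤ) ∣ -m := (dvd_neg).2 hpm
    rw [up, if_pos hu', up, if_pos hpm'] at h2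
    rw [jacobiSym.mul_left]
    have hm' : Squarefree (-m) := by
      intro x hx
      exact hm x ((dvd_neg).1 hx)
    rcases jne hp (cof hp hu hu') with h3 | h3 <;> rcases jne hp (cof hp hm' hpm') with h4 | h4
    · rw [h3, h4]; norm_num
    · rw [h3, h4] at h2; exact absurd (h2.1 rfl) (by norm_num)
    · rw [h3, h4] at h2; exact absurd (h2.2 rfl) (by norm_num)
    · rw [h3, h4]; norm_num

/-- the odd primes dividing `u` divide `m` -/
theorem dv {m u v : ℤ} (h : LC m u v) {p : ℕ} (hp : p.Prime) (hp2 : p ≠ 2) (hpu : (p : ℤ) ∣ u) :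
    (p : ℤ) ∣ m := by
  by_contra hpm
  by_cases h7 : p = 7
  · subst h7
    exact (h.s7 (by exact_mod_cast hpm)).1 (by exact_mod_cast hpu)
  · exact (h.good p hp hp2 h7 hpm).1 hpu

theorem t_US : S_US := by
  intro m hK hG u v hu hv h
  have hneg := hK.neg
  have hm := hK.sqf
  have hup := h.pos
  set n : ℕ := m.natAbs with hn
  set d : ℕ := u.natAbs with hd
  have hnm : (n : ℤ) = -m := by omega
  have hdu : (d : ℤ) = u := by omega
  have hnsq : Squarefree n := by
    rw [hn, Int.squarefree_natAbs]; exact hm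
  have hdsq : Squarefree d := by
    rw [hd, Int.squarefree_natAbs]; exact hu
  have hpdm : ∀ p : ℕ, ((p : ℤ) ∣ m ↔ p ∣ n) := by
    intro p
    rw [hn, Int.natCast_dvd]
  have hpdu : ∀ p : ℕ, ((p : ℤ) ∣ u ↔ p ∣ d) := by
    intro p
    rw [hd, Int.natCast_dvd]
  have hfin : d = 1 ∨ d = n → u = 1 ∨ u = -m := by
    rintro (h1 | h1)
    · left; rw [← hdu, h1]; rfl
    · right; rw [← hdu, h1, hnm]
  by_cases h4 : m % 4 = 1
  · have hQ := hG.1 h4
    rw [← hn] at hQ
    have h2u := (h.o2 h4).1
    have h2m : ¬ (2 : ℤ) ∣ m := by omega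
    have hdvd : d ∣ n := by
      rw [← Nat.prod_primeFactors_of_squarefree hdsq]
      apply Finset.prod_primes_dvd
      · intro p hp
        exact (Nat.prime_of_mem_primeFactors hp).prime
      · intro p hp
        have hpp := Nat.prime_of_mem_primeFactors hp
        have hpd := Nat.dvd_of_mem_primeFactors hp
        have hp2 : p ≠ 2 := by
          rintro rfl
          exact h2u (by exact_mod_cast (hpdu 2).2 hpd)
        exact (hpdm p).1 (dv h hpp hp2 ((hpdu p).2 hpd))
    obtain ⟨c, hc⟩ := hdvd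
    have hn0 : n ≠ 0 := hnsq.ne_zero
    have hodd : ∀ p : ℕ, p ∣ n → p ≠ 2 := by
      rintro p hp rfl
      exact h2m (by exact_mod_cast (hpdm 2).2 hp)
    have hcop : Nat.Coprime d c := by
      rw [hc] at hnsq
      exact Nat.coprime_of_squarefree_mul hnsq
    have hA : ∀ p ∈ c.primeFactors, jacobiSym d p = 1 := by
      intro p hp
      have hpp := Nat.prime_of_mem_primeFactors hp
      have hpc := Nat.dvd_of_mem_primeFactors hp
      have hpn : p ∣ n := hc ▸ Dvd.dvd.mul_left hpc d
      have hpd : ¬ p ∣ d := by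
        intro h5
        exact hpp.one_lt.ne' (Nat.eq_one_of_dvd_coprimes hcop h5 hpc)
      have := (key hm hu h hpp (hodd p hpn) ((hpdm p).2 hpn)).1 (fun h5 => hpd ((hpdu p).1 h5))
      rw [hdu]; exact this
    have hB : ∀ p ∈ d.primeFactors, jacobiSym c p = 1 := by
      intro p hp
      have hpp := Nat.prime_of_mem_primeFactors hp
      have hpd := Nat.dvd_of_mem_primeFactors hp
      have hpn : p ∣ n := hc ▸ Dvd.dvd.mul_right hpd c
      have h5 := (key hm hu h hpp (hodd p hpn) ((hpdm p).2 hpn)).2 ((hpdu p).2 hpd)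
      have hp0 : (p : ℤ) ≠ 0 := by exact_mod_cast hpp.ne_zero
      have hcf := cof hpp hu ((hpdu p).2 hpd)
      obtain ⟨k, hk⟩ := (hpdu p).2 hpd
      have e1 : u / p = k := by rw [hk]; exact Int.mul_ediv_cancel_left _ hp0
      have e2 : -m / p = k * c := by
        rw [← hnm, hc]
        push_cast
        rw [hdu, hk, mul_assoc]
        exact Int.mul_ediv_cancel_left _ hp0
      rw [e1] at hcf
      rw [e1, e2, jacobiSym.mul_left, jacobiSym.mul_left] at h5
      rcases jne hpp hcf with h6 | h6 <;> rw [h6] at h5 <;> linarith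
    rcases hQ d c hc.symm hA hB with h1 | h1
    · exact hfin (Or.inl h1)
    · apply hfin; right; rw [hc, h1, mul_one]
  · have hQ := hG.2 h4
    rw [← hn] at hQ
    have e4 : 4 * n / 4 = n := by omega
    have hA : ∀ p ∈ d.primeFactors, p ∣ 4 * n := by
      intro p hp
      have hpp := Nat.prime_of_mem_primeFactors hp
      have hpd := Nat.dvd_of_mem_primeFactors hp
      by_cases hp2 : p = 2
      · subst hp2; omega
      · exact Dvd.dvd.mul_left ((hpdm p).1 (dv h hpp hp2 ((hpdu p).2 hpd))) 4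
    have hB : ∀ p ∈ (4 * n).primeFactors, p ≠ 2 →
        (if p ∣ d then jacobiSym ((d / p * (4 * n / 4 / p) : ℕ) : ℤ) p else jacobiSym d p) = 1 := by
      intro p hp hp2
      have hpp := Nat.prime_of_mem_primeFactors hp
      have hp4n := Nat.dvd_of_mem_primeFactors hp
      have hpn : p ∣ n := by
        rcases (Nat.Prime.dvd_mul hpp).1 hp4n with h5 | h5
        · have : p ∣ 2 ^ 2 := by norm_num; exact h5
          exact absurd ((Nat.prime_dvd_prime_iff_eq hpp Nat.prime_two).1
            (hpp.dvd_of_dvd_pow this)) hp2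
        · exact h5
      have h5 := key hm hu h hpp hp2 ((hpdm p).2 hpn)
      split_ifs with hpd
      · have h6 := h5.2 ((hpdu p).2 hpd)
        rw [e4]
        push_cast
        rw [hdu, hnm]
        exact h6
      · have h6 := h5.1 (fun h7 => hpd ((hpdu p).1 h7))
        rw [hdu]; exact h6
    rcases hQ d hdsq hA hB with h1 | h1
    · exact hfin (Or.inl h1)
    · apply hfin; right; rw [h1, e4]

end Pool.Agent.H287.X21
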