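import Pool.Agent.H743.X17.SYSB
import Pool.Agent.H114.X21.Stm
import Pool.Graph.R_pool_sql_team_seeded_63374d34.N875.X15.Lin

/-!
# X21 VB: no nontrivial class `(1, v)` implies that there is no ideal class of order four
-/

set_option autoImplicit false

open scoped Classical

namespace Pool.Agent.H551.X21

open Pool.Agent.H743.X17 (up lam ind LL RS lS al)
open Pool.Agent.H743.X17.QSYSB
open Pool.Agent.H114.X21 (VD Gm S_VB)
open Pool.Agent.N969.P15 (Qc Qe)
open Pool.Agent.N875.X15 (ker_transpose)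

section rows

variable {m : ℤ} {y : ℕ → ZMod 2}

theorem row2' (hm : Squarefree m)
    (h : ∀ p ∈ RS m, ∑ q ∈ RS m, LL m p q * y q = 0) (h2 : 2 ∈ RS m) :
    f8 (V' m y) = f8 (M' m) * y 2 := by
  have h1 := h 2 h2
  rw [← Finset.add_sum_erase _ _ h2, ← f8_M' hm] at h1
  have e : ∑ q ∈ (RS m).erase 2, LL m 2 q * y q = ∑ q ∈ (RS m).erase 2, lS m q 2 * y q := by
    refine Finset.sum_congr rfl fun r hr => ?_
    rw [LL_off (Ne.symm (Finset.mem_erase.1 hr).1)]
  rw [e, ← f8_V' hm] at h1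
  exact (z2_eq_of_add h1).symm

theorem e2V (hm : Squarefree m)
    (h : ∀ p ∈ RS m, ∑ q ∈ RS m, LL m p q * y q = 0) (h1 : m % 4 ≠ 1) :
    ((up 2 (Vv m y) % 8 = 1 ∧ ¬ (2 : ℤ) ∣ Vv m y) ∨
    (((2 : ℤ) ∣ Vv m y ↔ (2 : ℤ) ∣ m) ∧ (up 2 (Vv m y) * up 2 m) % 8 = 1)) := by
  have h0 := not_four hm
  have h2 := (two_mem_RS hm).2 h1
  have hrow := row2' hm h h2
  have hV4 := V'_mod4 (y := y) hm
  have hM4 := M'_mod4 hm
  have hVe := V_eq (y := y) h2
  have hme := m_eq hm h2
  have hv2 : vq m 2 = if m % 4 = 3 then -1 else if m % 8 = 2 then 2 else -2 := by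
    unfold vq; rw [if_pos rfl]
  by_cases h3 : m % 4 = 3
  · -- `m ≡ 3 mod 4`
    rw [if_pos h3] at hv2
    rw [hv2] at hVe hme
    have hum : up 2 m = m ∧ ¬ (2 : ℤ) ∣ m := up2_odd (by omega)
    rcases z2 (y 2) with hy | hy
    · rw [hy] at hVe hrow
      rw [if_neg (by decide), one_mul] at hVe
      rw [mul_zero] at hrow
      have hu := up2_odd (n := Vv m y) (by omega)
      have h8 : Vv m y % 8 = 1 := by rw [hVe]; exact f8_eq_zero hV4 hrow
      exact Or.inl ⟨by rw [hu.1]; exact h8, hu.2⟩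
    · rw [hy] at hVe hrow
      rw [if_pos rfl] at hVe
      rw [mul_one] at hrow
      have hu := up2_odd (n := Vv m y) (by omega)
      refine Or.inr ⟨⟨fun hh => absurd hh hu.2, fun hh => absurd hh hum.2⟩, ?_⟩
      rw [hu.1, hum.1, hVe]
      nth_rewrite 2 [hme]
      have := f8_eq hV4 hM4 hrow
      rw [show -1 * V' m y * (-1 * M' m) = V' m y * M' m by ring]
      exact this
  · rw [if_neg h3] at hv2
    by_cases h8 : m % 8 = 2
    · -- `m ≡ 2 mod 8`
      rw [if_pos h8] at hv2
      rw [hv2] at hVe hme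
      have hum : up 2 m = M' m := by
        nth_rewrite 1 [hme]
        exact up2_two
      rcases z2 (y 2) with hy | hy
      · rw [hy] at hVe hrow
        rw [if_neg (by decide), one_mul] at hVe
        rw [mul_zero] at hrow
        have hu := up2_odd (n := Vv m y) (by omega)
        have h8 : Vv m y % 8 = 1 := by rw [hVe]; exact f8_eq_zero hV4 hrow
        exact Or.inl ⟨by rw [hu.1]; exact h8, hu.2⟩
      · rw [hy] at hVe hrow
        rw [if_pos rfl] at hVe
        rw [mul_one] at hrow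
        have hu : up 2 (Vv m y) = V' m y := by rw [hVe]; exact up2_two
        refine Or.inr ⟨⟨fun _ => by omega, fun _ => by omega⟩, ?_⟩
        rw [hu, hum]
        exact f8_eq hV4 hM4 hrow
    · -- `m ≡ 6 mod 8`
      rw [if_neg h8] at hv2
      rw [hv2] at hVe hme
      have hum : up 2 m = -M' m := by
        nth_rewrite 1 [hme]
        rw [show -2 * M' m = 2 * (-M' m) by ring]
        exact up2_two
      rcases z2 (y 2) with hy | hy
      · rw [hy] at hVe hrow
        rw [if_neg (by decide), one_mul] at hVe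
        rw [mul_zero] at hrow
        have hu := up2_odd (n := Vv m y) (by omega)
        have h8 : Vv m y % 8 = 1 := by rw [hVe]; exact f8_eq_zero hV4 hrow
        exact Or.inl ⟨by rw [hu.1]; exact h8, hu.2⟩
      · rw [hy] at hVe hrow
        rw [if_pos rfl] at hVe
        rw [mul_one] at hrow
        have hu : up 2 (Vv m y) = -V' m y := by
          rw [hVe, show -2 * V' m y = 2 * (-V' m y) by ring]; exact up2_two
        refine Or.inr ⟨⟨fun _ => by omega, fun _ => by omega⟩, ?_⟩
        rw [hu, hum, neg_mul_neg]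
        exact f8_eq hV4 hM4 hrow

/-- a solution of the system gives a decomposition of the second kind -/
theorem vd (hm : Squarefree m)
    (h : ∀ p ∈ RS m, ∑ q ∈ RS m, LL m p q * y q = 0) : VD m (Vv m y) := by
  refine ⟨?_, ?_, ?_, e2V hm h⟩
  · intro p hp hp2 hd hh
    have hn : p ∉ RS m := by
      intro hh
      rcases ((mem_RS hm).1 hh).2 with h1 | h1
      · exact hd h1
      · exact hp2 h1.1
    exact hn ((V_up hm hp hp2).2.1 hh).1
  · intro p hp hp2 hd
    have hn : p ∈ RS m := (mem_RS hm).2 ⟨hp, Or.inl hd⟩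
    rw [ind_V hm hn hp2, V_lam hm hn hp2]
    have h1 := h p hn
    rw [← Finset.add_sum_erase _ _ hn] at h1
    have e : ∑ q ∈ (RS m).erase p, LL m p q * y q = ∑ q ∈ (RS m).erase p, lS m q p * y q := by
      refine Finset.sum_congr rfl fun r hr => ?_
      have h2 := Finset.mem_erase.1 hr
      rw [LL_off (Ne.symm h2.1)]
    rw [e, diag_odd hm hn hp2] at h1
    have h3 := z2_add_self (lam p m * y p)
    linear_combination h1 - h3
  · intro h1
    have hn : 2 ∉ RS m := fun hh => (two_mem_RS hm).1 hh h1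
    unfold Vv
    refine prod_mod4 _ _ fun q hq => ?_
    have hq' := (Finset.mem_filter.1 hq).1
    exact vq_mod4 ((mem_RS hm).1 hq').1 (fun hh => hn (hh ▸ hq'))

theorem V_one (hm : Squarefree m) (hV1 : Vv m y = 1) : ∀ p ∈ RS m, y p = 0 := by
  intro p hpm
  have hpp := ((mem_RS hm).1 hpm).1
  rcases z2 (y p) with hy | hy
  · exact hy
  · exfalso
    by_cases hp2 : p = 2
    · subst hp2
      have h1 := V_eq (y := y) hpm
      rw [if_pos hy, hV1] at h1
      have h2 := V'_mod4 (y := y) hm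
      unfold vq at h1
      rw [if_pos rfl] at h1
      split_ifs at h1 <;> omega
    · have := (V_up (y := y) hm hpp hp2).2.2 ⟨hpm, hy⟩
      rw [hV1] at this
      exact nd_one hpp this

theorem V_m (hm : Squarefree m) (hV1 : Vv m y = m) : ∀ p ∈ RS m, y p = 1 := by
  intro p hpm
  have hpp := ((mem_RS hm).1 hpm)
  rcases z2 (y p) with hy | hy
  · exfalso
    by_cases hp2 : p = 2
    · subst hp2
      have h1 := V_eq (y := y) hpm
      rw [hy, if_neg (by decide), one_mul, hV1] at h1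
      have h2 := V'_mod4 (y := y) hm
      have h3 := (two_mem_RS hm).1 hpm
      omega
    · have h1 : (p : ℤ) ∣ m := by
        rcases hpp.2 with h | h
        · exact h
        · exact absurd h.1 hp2
      rw [← hV1] at h1
      have := ((V_up (y := y) hm hpp.1 hp2).2.1 h1).2
      rw [hy] at this
      exact absurd this (by decide)
  · exact hy

end rows

/-- the kernel of the transposed matrix -/
theorem ker {m : ℤ} (hm : Squarefree m)
    (hv : ∀ v : ℤ, Squarefree v → VD m v → v = 1 ∨ v = m)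
    (z : ℕ → ZMod 2) (hz : ∃ p ∈ RS m, z p ≠ 0)
    (hz' : ∀ q ∈ RS m, ∑ p ∈ RS m, LL m p q * z p = 0)
    (x : ℕ → ZMod 2) (hx : ∀ q ∈ RS m, ∑ p ∈ RS m, LL m p q * x p = 0) :
    (∀ p ∈ RS m, x p = 0) ∨ (∀ p ∈ RS m, x p = z p) := by
  let ι := {p : ℕ // p ∈ RS m}
  let M : Matrix ι ι (ZMod 2) := Matrix.of fun q p => LL m p q
  have hM : ∀ (x : ℕ → ZMod 2) (q : ι),
      M.mulVec (fun p : ι => x p) q = ∑ p ∈ RS m, LL m p q * x p := by
    intro x q
    rw [Matrix.mulVec, dotProduct]
    exact Finset.sum_coe_sort (RS m) (fun p => LL m p q * x p)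
  have hMT : ∀ (y : ℕ → ZMod 2) (p : ι),
      M.transpose.mulVec (fun q : ι => y q) p = ∑ q ∈ RS m, LL m p q * y q := by
    intro y q
    rw [Matrix.mulVec, dotProduct]
    exact Finset.sum_coe_sort (RS m) (fun p => LL m q p * y p)
  have hT : ∀ y : ι → ZMod 2, M.transpose.mulVec y = 0 → y = 0 ∨ y = 1 := by
    intro y hy
    let y' : ℕ → ZMod 2 := fun q => if h : q ∈ RS m then y ⟨q, h⟩ else 0
    have hyy : (fun q : ι => y' q) = y := by
      funext q
      show (if h : (q : ℕ) ∈ RS m then y ⟨q, h⟩ else 0) = y q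
      rw [dif_pos q.2]
    have h1 : ∀ p ∈ RS m, ∑ q ∈ RS m, LL m p q * y' q = 0 := by
      intro p hp
      rw [← hMT y' ⟨p, hp⟩, hyy, hy]
      rfl
    rcases hv _ (V_sqf hm) (vd hm h1) with h2 | h2
    · left
      funext p
      rw [← hyy]
      exact V_one hm h2 p p.2
    · right
      funext p
      rw [← hyy]
      exact V_m hm h2 p p.2
  have hz0 : (fun p : ι => z p) ≠ 0 := by
    intro h
    obtain ⟨p, hp, hne⟩ := hz
    exact hne (congrFun h ⟨p, hp⟩)
  have hk := ker_transpose M 1 hT (fun p : ι => z p) hz0 (by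
    funext q
    rw [hM]
    exact hz' q q.2) (fun p : ι => x p) (by
    funext q
    rw [hM]
    exact hx q q.2)
  rcases hk with h | h
  · left
    intro p hp
    exact congrFun h ⟨p, hp⟩
  · right
    intro p hp
    exact congrFun h ⟨p, hp⟩

/-- the column of `2` follows from the other ones -/
theorem col_all {m : ℤ} (x : ℕ → ZMod 2)
    (hx : ∀ q ∈ RS m, q ≠ 2 → ∑ p ∈ RS m, LL m p q * x p = 0) :
    ∀ q ∈ RS m, ∑ p ∈ RS m, LL m p q * x p = 0 := by
  intro q hq
  by_cases h2 : q = 2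
  · subst h2
    have h1 : ∑ q ∈ RS m, ∑ p ∈ RS m, LL m p q * x p = 0 := by
      rw [Finset.sum_comm]
      refine Finset.sum_eq_zero fun p hp => ?_
      rw [← Finset.sum_mul, row_zero hp, zero_mul]
    rw [← Finset.add_sum_erase _ _ hq] at h1
    have h3 : ∑ q ∈ (RS m).erase 2, ∑ p ∈ RS m, LL m p q * x p = 0 := by
      refine Finset.sum_eq_zero fun q hq' => ?_
      exact hx q (Finset.mem_erase.1 hq').2 (Finset.mem_erase.1 hq').1
    rw [h3, add_zero] at h1
    exact h1
  · exact hx q hq h2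

/-- the column of an odd prime -/
theorem col_odd {m : ℤ} (hm : Squarefree m) (x : ℕ → ZMod 2) {q : ℕ} (hq : q ∈ RS m)
    (hq2 : q ≠ 2) (hl : lam q (U m x) = x q * lam q (-m)) :
    ∑ p ∈ RS m, LL m p q * x p = 0 := by
  have hqq := (mem_RS hm).1 hq
  have hqd : (q : ℤ) ∣ m := by
    rcases hqq.2 with h | h
    · exact h
    · exact absurd h.1 hq2
  rw [← Finset.add_sum_erase _ _ hq]
  have e : ∑ r ∈ (RS m).erase q, LL m r q * x r = lam q (U m x) := by
    rw [U_lam hm hqq.1]
    refine Finset.sum_congr rfl fun r hr => ?_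
    have h2 := Finset.mem_erase.1 hr
    rw [LL_off h2.1, lS_rec hqq.1 hq2 ((mem_RS hm).1 h2.2).1 (Ne.symm h2.1)]
  rw [e, hl, lam_neg hm hqq.1 hq2 hqd, diag_odd hm hq hq2]
  have := z2_add_self (x q * (lam q m + f4 q))
  linear_combination this

theorem U_eq {m : ℤ} (hm : Squarefree m) {d : ℕ} (hd : Squarefree d)
    (hp : ∀ p ∈ d.primeFactors, p ∈ RS m) (x : ℕ → ZMod 2)
    (hx : ∀ p ∈ RS m, x p = if p ∣ d then 1 else 0) : U m x = d := by
  unfold U
  have e : (RS m).filter (fun q => x q = 1) = d.primeFactors := by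
    ext p
    rw [Finset.mem_filter, Nat.mem_primeFactors]
    constructor
    · rintro ⟨h1, h2⟩
      refine ⟨((mem_RS hm).1 h1).1, ?_, hd.ne_zero⟩
      rw [hx p h1] at h2
      by_contra h3
      rw [if_neg h3] at h2
      exact absurd h2 (by decide)
    · rintro ⟨h1, h2, h3⟩
      have h4 := hp p (Nat.mem_primeFactors.2 ⟨h1, h2, h3⟩)
      exact ⟨h4, by rw [hx p h4, if_pos h2]⟩
  rw [e, ← Nat.cast_prod, Nat.prod_primeFactors_of_squarefree hd]

/-- **main lemma** -/
theorem main {m : ℤ} (hneg : m < 0) (hm1 : m ≠ -1) (hm : Squarefree m)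
    (hv : ∀ v : ℤ, Squarefree v → VD m v → v = 1 ∨ v = m)
    {d : ℕ} (hd : Squarefree d) (hp : ∀ p ∈ d.primeFactors, p ∈ RS m)
    (hl : ∀ q ∈ RS m, q ≠ 2 → lam q d = (if q ∣ d then 1 else 0) * lam q (-m)) :
    d = 1 ∨ d = m.natAbs := by
  have hmn : Squarefree m.natAbs := Int.squarefree_natAbs.2 hm
  have hmc : ((m.natAbs : ℕ) : ℤ) = -m := by omega
  have hmp : ∀ p ∈ m.natAbs.primeFactors, p ∈ RS m := by
    intro p hp
    rw [Nat.mem_primeFactors, ← Int.natCast_dvd] at hp
    exact (mem_RS hm).2 ⟨hp.1, Or.inl hp.2.1⟩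
  let x : ℕ → ZMod 2 := fun p => if p ∣ d then 1 else 0
  let z : ℕ → ZMod 2 := fun p => if p ∣ m.natAbs then 1 else 0
  have hUx : U m x = d := U_eq hm hd hp x (fun p _ => rfl)
  have hUz : U m z = m.natAbs := U_eq hm hmn hmp z (fun p _ => rfl)
  have hx : ∀ q ∈ RS m, ∑ p ∈ RS m, LL m p q * x p = 0 := by
    refine col_all x fun q hq hq2 => ?_
    refine col_odd hm x hq hq2 ?_
    rw [hUx]
    exact hl q hq hq2
  have hz : ∀ q ∈ RS m, ∑ p ∈ RS m, LL m p q * z p = 0 := by
    refine col_all z fun q hq hq2 => ?_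
    refine col_odd hm z hq hq2 ?_
    have hqq := (mem_RS hm).1 hq
    have hqd : (q : ℤ) ∣ m := by
      rcases hqq.2 with h | h
      · exact h
      · exact absurd h.1 hq2
    have h1 : z q = 1 := if_pos (Int.natCast_dvd.1 hqd)
    rw [hUz, hmc, h1, one_mul]
  have hz0 : ∃ p ∈ RS m, z p ≠ 0 := by
    obtain ⟨p, hp, hpd⟩ := Nat.exists_prime_and_dvd (show m.natAbs ≠ 1 by omega)
    refine ⟨p, hmp p (Nat.mem_primeFactors.2 ⟨hp, hpd, hmn.ne_zero⟩), ?_⟩
    have h1 : z p = 1 := if_pos hpd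
    rw [h1]
    decide
  rcases ker hm hv z hz0 hz x hx with h | h
  · left
    by_contra h1
    obtain ⟨p, hpp, hpd⟩ := Nat.exists_prime_and_dvd h1
    have h2 := h p (hp p (Nat.mem_primeFactors.2 ⟨hpp, hpd, hd.ne_zero⟩))
    have h3 : x p = 1 := if_pos hpd
    rw [h3] at h2
    exact absurd h2 (by decide)
  · right
    have h1 : U m x = m.natAbs := U_eq hm hmn hmp x (fun p hp => h p hp)
    rw [hUx] at h1
    exact_mod_cast h1

theorem lam_nd {p : ℕ} {n : ℤ} (h : ¬ (p : ℤ) ∣ n) : lam p n = aj p n := by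
  rw [lam_eq]
  unfold up
  rw [if_neg h]

theorem lam_d {p : ℕ} {n : ℤ} (h : (p : ℤ) ∣ n) : lam p n = aj p (n / p) := by
  rw [lam_eq]
  unfold up
  rw [if_pos h]

theorem sqf_nd {p n : ℕ} (hp : p.Prime) (hn : Squarefree n) (hd : p ∣ n) : ¬ p ∣ n / p := by
  rintro ⟨k, hk⟩
  have h1 : n = p * p * k := by
    rw [mul_assoc, ← hk, Nat.mul_div_cancel' hd]
  have h2 : IsUnit p := hn p ⟨k, h1⟩
  exact hp.one_lt.ne' (Nat.isUnit_iff.1 h2)

theorem aj_one_iff {p : ℕ} {n : ℤ} (h : jacobiSym n p = 1) : aj p n = 0 := by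
  unfold aj
  rw [if_pos h]

theorem t_VB : S_VB := by
  intro m hneg hm1 hm hv
  have hmn : Squarefree m.natAbs := Int.squarefree_natAbs.2 hm
  have hmc : ((m.natAbs : ℕ) : ℤ) = -m := by omega
  refine ⟨?_, ?_⟩
  · intro h4 b c hbc hb hc
    have hn2 : 2 ∉ RS m := fun hh => (two_mem_RS hm).1 hh h4
    have hbn : b ∣ m.natAbs := ⟨c, hbc.symm⟩
    have hcn : c ∣ m.natAbs := ⟨b, by rw [mul_comm, hbc]⟩
    have hbs : Squarefree b := hmn.squarefree_of_dvd hbn
    have hcs : Squarefree c := hmn.squarefree_of_dvd hcn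
    have hcop : Nat.Coprime b c := by
      rw [← hbc] at hmn
      exact Nat.coprime_of_squarefree_mul hmn
    have h := main (d := b) hneg hm1 hm hv hbs (by
      intro p hp
      rw [Nat.mem_primeFactors] at hp
      exact (mem_RS hm).2 ⟨hp.1, Or.inl (Int.natCast_dvd.2 (hp.2.1.trans hbn))⟩) (by
      intro q hq hq2
      have hqq := (mem_RS hm).1 hq
      have hqp := hqq.1
      have hqd : q ∣ m.natAbs := by
        rcases hqq.2 with h | h
        · exact Int.natCast_dvd.1 h
        · exact absurd h.1 hq2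
      by_cases hqb : q ∣ b
      · rw [if_pos hqb, one_mul, ← hmc, lam_d (Int.natCast_dvd_natCast.2 hqb),
          lam_d (Int.natCast_dvd_natCast.2 hqd)]
        have h1 : ¬ q ∣ b / q := sqf_nd hqp hbs hqb
        have h2 : ¬ q ∣ c := by
          intro hqc
          exact hqp.one_lt.ne' (Nat.Coprime.eq_one_of_dvd (hcop.coprime_dvd_left hqb) hqc)
        have h3 : m.natAbs / q = (b / q) * c := by
          rw [← hbc]
          exact Nat.mul_div_right_comm hqb c
        have h4 : ((m.natAbs : ℕ) : ℤ) / (q : ℤ) = ((b / q : ℕ) : ℤ) * (c : ℤ) := by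
          rw [← Nat.cast_mul, ← h3, Int.natCast_div]
        rw [h4, aj_mul hqp (fun hh => h1 (Int.natCast_dvd_natCast.1 hh))
          (fun hh => h2 (Int.natCast_dvd_natCast.1 hh)), ← Int.natCast_div,
          aj_one_iff (hc q (Nat.mem_primeFactors.2 ⟨hqp, hqb, hbs.ne_zero⟩)), add_zero]
      · rw [if_neg hqb, zero_mul, lam_nd (fun hh => hqb (Int.natCast_dvd_natCast.1 hh))]
        have h1 : q ∣ b * c := by
          rw [hbc]
          exact hqd
        have h2 : q ∣ c := by
          rcases hqp.dvd_mul.1 h1 with h | h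
          · exact absurd h hqb
          · exact h
        exact aj_one_iff (hb q (Nat.mem_primeFactors.2 ⟨hqp, h2, hcs.ne_zero⟩)))
    rcases h with h | h
    · exact Or.inl h
    · right
      rw [← hbc] at h
      have h1 : b * c = b * 1 := by omega
      exact Nat.eq_of_mul_eq_mul_left (Nat.pos_of_ne_zero hbs.ne_zero) h1
  · intro h4 d hd hdp hdj
    have hRS : RS m = (4 * m.natAbs).primeFactors := by
      show (Pool.Agent.H743.X17.Kn m).primeFactors = _
      unfold Pool.Agent.H743.X17.Kn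
      rw [if_neg h4]
    have h44 : 4 * m.natAbs / 4 = m.natAbs := by omega
    rw [h44] at hdj ⊢
    refine main (d := d) hneg hm1 hm hv hd ?_ ?_
    · intro p hp
      rw [hRS, Nat.mem_primeFactors]
      refine ⟨(Nat.mem_primeFactors.1 hp).1, hdp p hp, ?_⟩
      have := hmn.ne_zero
      omega
    · intro q hq hq2
      have hqq := (mem_RS hm).1 hq
      have hqp := hqq.1
      have hqd : q ∣ m.natAbs := by
        rcases hqq.2 with h | h
        · exact Int.natCast_dvd.1 h
        · exact absurd h.1 hq2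
      have hj := hdj q (by rw [← hRS]; exact hq) hq2
      by_cases hqb : q ∣ d
      · rw [if_pos hqb] at hj
        rw [if_pos hqb, one_mul, ← hmc, lam_d (Int.natCast_dvd_natCast.2 hqb),
          lam_d (Int.natCast_dvd_natCast.2 hqd)]
        have h1 : ¬ q ∣ d / q := sqf_nd hqp hd hqb
        have h2 : ¬ q ∣ m.natAbs / q := sqf_nd hqp hmn hqd
        have h5 := aj_one_iff hj
        rw [Nat.cast_mul, aj_mul hqp (fun hh => h1 (Int.natCast_dvd_natCast.1 hh))
          (fun hh => h2 (Int.natCast_dvd_natCast.1 hh))] at h5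
        rw [← Int.natCast_div, ← Int.natCast_div]
        exact z2_eq_of_add h5
      · rw [if_neg hqb] at hj
        rw [if_neg hqb, zero_mul, lam_nd (fun hh => hqb (Int.natCast_dvd_natCast.1 hh))]
        exact aj_one_iff hj

end Pool.Agent.H551.X21
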