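import Pool.Agent.H114.X21.Stm
import Pool.Agent.H743.X17.SYSF
import Pool.Graph.R_pool_sql_team_seeded_63374d34.N875.X15.Lin

/-!
# X21 VF: the decompositions of the second kind are trivial when there is no class of order four
-/

set_option autoImplicit false

open scoped Classical

namespace Pool.Agent.H189.X21.VF

open Pool.Agent.H743.X17 (up lam ind h2 RS pd lS LL al Kn)
open Pool.Agent.H743.X17.QSYSF
open Pool.Agent.H468.X15 (ps ps_unit pI)
open Pool.Agent.H114.X21
open Pool.Agent.N969.P15 (Qc Qe)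

theorem c01 (c : ZMod 2) : c = 0 ∨ c = 1 := by revert c; decide

theorem ne1 {c : ZMod 2} : ¬ c = 1 ↔ c = 0 := by revert c; decide

theorem add0 {a b : ZMod 2} (h : a + b = 0) : a = b := by revert a b; decide

/-- the product of the ramified primes with a given property -/
noncomputable def bp (m : ℤ) (P : ℕ → Prop) : ℕ := ∏ p ∈ (RS m).filter P, p

theorem bp_dvd {m : ℤ} {P : ℕ → Prop} {q : ℕ} (hq : q.Prime) :
    q ∣ bp m P ↔ q ∈ RS m ∧ P q := by
  unfold bp
  constructor
  · intro h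
    obtain ⟨p, hp, hqp⟩ := (Prime.dvd_finsetProd_iff hq.prime _).1 h
    rw [Finset.mem_filter] at hp
    have := (Nat.prime_dvd_prime_iff_eq hq (RS_prime hp.1)).1 hqp
    subst this
    exact hp
  · rintro ⟨h1, h2⟩
    exact Finset.dvd_prod_of_mem (fun p : ℕ => p) (Finset.mem_filter.2 ⟨h1, h2⟩)

theorem bp_ne {m : ℤ} {P : ℕ → Prop} : bp m P ≠ 0 :=
  Finset.prod_ne_zero_iff.2 fun _ hp => (RS_prime (Finset.mem_filter.1 hp).1).ne_zero

theorem bp_sqf {m : ℤ} {P : ℕ → Prop} : Squarefree (bp m P) := by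
  unfold bp
  apply Finset.squarefree_prod_of_pairwise_isCoprime
  · intro p hp q hq hpq
    have hp' := RS_prime (Finset.mem_filter.1 hp).1
    have hq' := RS_prime (Finset.mem_filter.1 hq).1
    exact Nat.coprime_iff_isRelPrime.1 ((Nat.coprime_primes hp' hq').2 hpq)
  · intro p hp
    exact (RS_prime (Finset.mem_filter.1 hp).1).squarefree

/-- the characters of the product -/
theorem F_bp {F : ℤ → ZMod 2} (hF : AddH F) (m : ℤ) (x : ℕ → ZMod 2) :
    F (bp m (fun p => x p = 1) : ℕ) = ∑ p ∈ RS m, x p * F p := by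
  have e : ((bp m (fun p => x p = 1) : ℕ) : ℤ) =
      ∏ p ∈ (RS m).filter (fun p => x p = 1), (p : ℤ) := by
    unfold bp
    rw [Nat.cast_prod]
    refine Finset.prod_congr ?_ fun _ _ => rfl
    ext q
    simp only [Finset.mem_filter]
  rw [e, hF.prod _ (fun p : ℕ => (p : ℤ)) (fun q hq => by
    exact_mod_cast (RS_prime (Finset.mem_filter.1 hq).1).ne_zero), Finset.sum_filter]
  refine Finset.sum_congr rfl fun p _ => ?_
  rcases c01 (x p) with h | h
  · rw [h, zero_mul, if_neg (by decide)]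
  · rw [h, one_mul, if_pos rfl]

/-- the symbol at an odd ramified prime -/
theorem key {m : ℤ} (hm : Squarefree m) (h0 : m < 0) {x : ℕ → ZMod 2} {q : ℕ} (hq : q ∈ RS m)
    (h2 : q ≠ 2) (hx : ∑ p ∈ RS m, LL m p q * x p = 0) :
    Lm q (bp m (fun p => x p = 1) : ℕ) = x q * Lm q (m.natAbs : ℕ) := by
  have hqq := RS_prime hq
  have : Fact q.Prime := ⟨hqq⟩
  have h1 := F_abs (Lm_addH q) hm.ne_zero
  rw [sg_neg h0, one_mul, Lm_neg_one hqq h2, Int.abs_eq_natAbs] at h1
  rw [col hm x hq h2, G_odd h2, ← F_bp (Lm_addH q), al_odd hm hq h2, Lm_neg_one hqq h2, h1] at hx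
  have h4 : ∀ a b c d : ZMod 2, a + b * (c + d + c * c) = 0 → a = b * d := by decide
  exact h4 _ _ _ _ hx

theorem jac_one {q : ℕ} [Fact q.Prime] {n : ℤ} (hn : ¬ (q : ℤ) ∣ n) (h : Lm q n = 0) :
    jacobiSym n q = 1 := by
  rw [Lm_unit hn] at h
  by_contra h'
  rw [if_neg h'] at h
  exact absurd h (by decide)

/-- the first side of the criterion -/
theorem uside {m : ℤ} (hm : Squarefree m) (h0 : m < 0) (hG : Gm m) (x : ℕ → ZMod 2)
    (hx : ∀ q ∈ RS m, ∑ p ∈ RS m, LL m p q * x p = 0) :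
    (∀ p ∈ RS m, x p = 0) ∨ (∀ p ∈ RS m, x p = V p m) := by
  have hm0 := hm.ne_zero
  have hn0 : m.natAbs ≠ 0 := Int.natAbs_ne_zero.2 hm0
  have hnsq : Squarefree m.natAbs := Int.squarefree_natAbs.2 hm
  set b := bp m (fun p => x p = 1) with hb
  have hb0 : ((b : ℕ) : ℤ) ≠ 0 := by exact_mod_cast (bp_ne (m := m) (P := fun p => x p = 1))
  have hbd : ∀ p : ℕ, p.Prime → (p ∣ b ↔ p ∈ RS m ∧ x p = 1) := fun p hp => bp_dvd hp
  have hb1 : b = 1 → ∀ p ∈ RS m, x p = 0 := by
    intro h p hp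
    rw [← ne1]
    intro h'
    have := (hbd p (RS_prime hp)).2 ⟨hp, h'⟩
    rw [h, Nat.dvd_one] at this
    exact (RS_prime hp).one_lt.ne' this
  by_cases h4 : m % 4 = 1
  · have hRS : RS m = m.natAbs.primeFactors := by
      unfold Pool.Agent.H743.X17.RS Pool.Agent.H743.X17.Kn
      rw [if_pos h4]
    have h2 : ∀ p ∈ RS m, p ≠ 2 := by
      intro p hp h
      exact (two_RS hm).1 (h ▸ hp) h4
    set c := bp m (fun p => ¬ x p = 1) with hc
    have hc0 : ((c : ℕ) : ℤ) ≠ 0 := by exact_mod_cast (bp_ne (m := m) (P := fun p => ¬ x p = 1))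
    have hcd : ∀ p : ℕ, p.Prime → (p ∣ c ↔ p ∈ RS m ∧ ¬ x p = 1) := fun p hp => bp_dvd hp
    have hbc : b * c = m.natAbs := by
      rw [hb, hc]
      unfold bp
      rw [Finset.prod_filter_mul_prod_filter_not, hRS, Nat.prod_primeFactors_of_squarefree hnsq]
    have hbcZ : ((b : ℕ) : ℤ) * ((c : ℕ) : ℤ) = ((m.natAbs : ℕ) : ℤ) := by exact_mod_cast hbc
    rcases hG.1 h4 b c hbc (by
      intro p hp
      have hpp := Nat.prime_of_mem_primeFactors hp
      have : Fact p.Prime := ⟨hpp⟩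
      obtain ⟨h5, h6⟩ := (hcd p hpp).1 (Nat.dvd_of_mem_primeFactors hp)
      have h7 := key hm h0 h5 (h2 p h5) (hx p h5)
      rw [ne1.1 h6, zero_mul] at h7
      refine jac_one ?_ h7
      intro h8
      exact h6 ((hbd p hpp).1 (by exact_mod_cast h8)).2) (by
      intro p hp
      have hpp := Nat.prime_of_mem_primeFactors hp
      have : Fact p.Prime := ⟨hpp⟩
      obtain ⟨h5, h6⟩ := (hbd p hpp).1 (Nat.dvd_of_mem_primeFactors hp)
      have h7 := key hm h0 h5 (h2 p h5) (hx p h5)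
      rw [h6, one_mul, ← hbcZ, Lm_addH p _ _ hb0 hc0] at h7
      refine jac_one ?_ ?_
      · intro h8
        exact ((hcd p hpp).1 (by exact_mod_cast h8)).2 h6
      · have h9 : ∀ a b : ZMod 2, a = a + b → b = 0 := by decide
        exact h9 _ _ h7) with h | h
    · exact Or.inl (hb1 h)
    · right
      intro p hp
      rw [V_RS hm hp (h2 p hp)]
      by_contra h'
      have := (hcd p (RS_prime hp)).2 ⟨hp, h'⟩
      rw [h, Nat.dvd_one] at this
      exact (RS_prime hp).one_lt.ne' this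
  · have hRS : RS m = (4 * m.natAbs).primeFactors := by
      unfold Pool.Agent.H743.X17.RS Pool.Agent.H743.X17.Kn
      rw [if_neg h4]
    have hdiv : 4 * m.natAbs / 4 = m.natAbs := by omega
    rcases hG.2 h4 b bp_sqf (by
      intro p hp
      have hpp := Nat.prime_of_mem_primeFactors hp
      obtain ⟨h5, h6⟩ := (hbd p hpp).1 (Nat.dvd_of_mem_primeFactors hp)
      rw [hRS] at h5
      exact Nat.dvd_of_mem_primeFactors h5) (by
      intro p hp h2
      rw [← hRS] at hp
      have hpp := RS_prime hp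
      have : Fact p.Prime := ⟨hpp⟩
      have h7 := key hm h0 hp h2 (hx p hp)
      rw [hdiv]
      split_ifs with h5
      · obtain ⟨h6, h8⟩ := (hbd p hpp).1 h5
        have hpn : p ∣ m.natAbs := Int.natCast_dvd.1 (dvd_of_RS hm hp h2)
        rw [h8, one_mul] at h7
        obtain ⟨b', hb'⟩ := h5
        obtain ⟨n', hn'⟩ := hpn
        have hbs : Squarefree b := bp_sqf
        have e1 : ¬ p ∣ b' := by
          rintro ⟨k, hk⟩
          exact hpp.one_lt.ne' (Nat.isUnit_iff.1 (hbs p ⟨k, by rw [hb', hk]; ring⟩))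
        have e2 : ¬ p ∣ n' := by
          rintro ⟨k, hk⟩
          exact hpp.one_lt.ne' (Nat.isUnit_iff.1 (hnsq p ⟨k, by rw [hn', hk]; ring⟩))
        have e3 : b / p = b' := by rw [hb', Nat.mul_div_cancel_left _ hpp.pos]
        have e4 : m.natAbs / p = n' := by rw [hn', Nat.mul_div_cancel_left _ hpp.pos]
        have hp0 : (p : ℤ) ≠ 0 := by exact_mod_cast hpp.ne_zero
        have hb'0 : (b' : ℤ) ≠ 0 := by
          intro h
          exact e1 ⟨0, by rw [mul_zero]; exact_mod_cast h⟩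
        have hn'0 : (n' : ℤ) ≠ 0 := by
          intro h
          exact e2 ⟨0, by rw [mul_zero]; exact_mod_cast h⟩
        have f1 : Lm p (b : ℕ) = Lm p (b' : ℕ) := by
          rw [hb', Nat.cast_mul, Lm_addH p _ _ hp0 hb'0, Lm_self, zero_add]
        have f2 : Lm p (m.natAbs : ℕ) = Lm p (n' : ℕ) := by
          rw [hn', Nat.cast_mul, Lm_addH p _ _ hp0 hn'0, Lm_self, zero_add]
        rw [e3, e4]
        refine jac_one ?_ ?_
        · intro h
          have h' : p ∣ b' * n' := by exact_mod_cast h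
          rcases hpp.dvd_mul.1 h' with h' | h'
          · exact e1 h'
          · exact e2 h'
        · rw [Nat.cast_mul, Lm_addH p _ _ hb'0 hn'0, ← f1, ← f2, h7, z2]
      · have h8 : ¬ x p = 1 := fun h => h5 ((hbd p hpp).2 ⟨hp, h⟩)
        rw [ne1.1 h8, zero_mul] at h7
        refine jac_one ?_ h7
        intro h
        exact h5 (by exact_mod_cast h)) with h | h
    · exact Or.inl (hb1 h)
    · right
      intro p hp
      have hpp := RS_prime hp
      rw [hdiv] at h
      by_cases hpm : (p : ℤ) ∣ m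
      · rw [V_one hm hpp hpm]
        have : p ∣ b := by rw [h]; exact Int.natCast_dvd.1 hpm
        exact ((hbd p hpp).1 this).2
      · rw [V_zero hpp hpm, ← ne1]
        intro h'
        have h5 := (hbd p hpp).2 ⟨hp, h'⟩
        rw [h] at h5
        exact hpm (Int.natCast_dvd.2 h5)

theorem RS_ne {m : ℤ} (hm : Squarefree m) (h0 : m < 0) : ∃ p, p ∈ RS m := by
  by_cases h4 : m % 4 = 1
  · have h1 : m.natAbs ≠ 1 := by omega
    obtain ⟨p, hp, hpm⟩ := Nat.exists_prime_and_dvd h1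
    exact ⟨p, (mem_RS hm.ne_zero p).2 ⟨hp, Or.inl (Int.natCast_dvd.2 hpm)⟩⟩
  · exact ⟨2, (two_RS hm).2 h4⟩

/-- the second side of the criterion -/
theorem vside {m : ℤ} (hm : Squarefree m) (h0 : m < 0) (hG : Gm m) (y : ℕ → ZMod 2)
    (hy : ∀ p ∈ RS m, ∑ q ∈ RS m, LL m p q * y q = 0) :
    (∀ p ∈ RS m, y p = 0) ∨ (∀ p ∈ RS m, y p = 1) := by
  let ι := {p : ℕ // p ∈ RS m}
  let M : Matrix ι ι (ZMod 2) := Matrix.of fun p q => LL m (p : ℕ) (q : ℕ)
  have hM : ∀ (y : ℕ → ZMod 2) (p : ι), M.mulVec (fun q => y q) p =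
      ∑ q ∈ RS m, LL m (p : ℕ) q * y q := by
    intro y p
    rw [← Finset.sum_coe_sort (RS m) (fun q => LL m (p : ℕ) q * y q)]
    rfl
  have hMT : ∀ (x : ℕ → ZMod 2) (q : ι), M.transpose.mulVec (fun p => x p) q =
      ∑ p ∈ RS m, LL m p (q : ℕ) * x p := by
    intro x q
    rw [← Finset.sum_coe_sort (RS m) (fun p => LL m p (q : ℕ) * x p)]
    rfl
  have hT : ∀ x : ι → ZMod 2, M.transpose.mulVec x = 0 → x = 0 ∨ x = fun p : ι => V (p : ℕ) m := by
    intro x hx
    have e : x = fun p : ι => (fun p : ℕ => if h : p ∈ RS m then x ⟨p, h⟩ else 0) (p : ℕ) := by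
      funext p
      show x p = if h : (p : ℕ) ∈ RS m then x ⟨p, h⟩ else 0
      rw [dif_pos p.2]
    rw [e] at hx
    rcases uside hm h0 hG (fun p : ℕ => if h : p ∈ RS m then x ⟨p, h⟩ else 0) (by
      intro q hq
      have h1 := congrFun hx ⟨q, hq⟩
      have h2 := hMT (fun p : ℕ => if h : p ∈ RS m then x ⟨p, h⟩ else 0) ⟨q, hq⟩
      exact h2.symm.trans h1) with h | h
    · left
      funext p
      have h1 := h p p.2
      rw [dif_pos p.2] at h1
      exact h1
    · right
      funext p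
      have h1 := h p p.2
      rw [dif_pos p.2] at h1
      exact h1
  have h1M : M.mulVec (fun _ => 1) = 0 := by
    funext p
    have hpp := RS_prime p.2
    have h1 := hM (fun _ => 1) p
    rw [h1, row hm (fun _ => 1) p.2]
    simp only [one_mul]
    rw [sum_pd (G_addH hpp) hm, z2]
    rfl
  have h1ne : (fun _ => 1 : ι → ZMod 2) ≠ 0 := by
    intro h
    obtain ⟨p, hp⟩ := RS_ne hm h0
    have h1 : (1 : ZMod 2) = 0 := congrFun h ⟨p, hp⟩
    exact absurd h1 (by decide)
  have hyM : M.mulVec (fun q => y q) = 0 := by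
    funext p
    rw [hM, hy p p.2]
    rfl
  rcases Pool.Agent.N875.X15.ker_transpose M _ hT _ h1ne h1M _ hyM with h | h
  · left
    intro p hp
    exact congrFun h ⟨p, hp⟩
  · right
    intro p hp
    exact congrFun h ⟨p, hp⟩

/-- the condition at two -/
theorem at2 {m v : ℤ} (hm : Squarefree m) (hv : Squarefree v)
    (g1 : (up 2 v % 8 = 1 ∧ ¬ (2 : ℤ) ∣ v) ∨
      (((2 : ℤ) ∣ v ↔ (2 : ℤ) ∣ m) ∧ (up 2 v * up 2 m) % 8 = 1)) :
    ∃ c : ZMod 2, A4 v = c * A4 m ∧ A8 v = c * A8 m ∧ V 2 v = c * V 2 m := by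
  have hm0 := hm.ne_zero
  have hv0 := hv.ne_zero
  rcases g1 with ⟨k1, k2⟩ | ⟨k1, k2⟩
  · rw [sf_od hv] at k1
    refine ⟨0, ?_, ?_, ?_⟩
    · unfold A4; rw [if_neg (by omega), zero_mul]
    · unfold A8; rw [if_pos (Or.inl k1), zero_mul]
    · rw [V_zero Nat.prime_two (by exact_mod_cast k2), zero_mul]
  · rw [sf_od hv, sf_od hm] at k2
    refine ⟨1, ?_, ?_, ?_⟩
    · rw [one_mul]
      have k3 : A4 (od v * od m) = 0 := by
        rw [A4_odd (by omega), if_neg (by omega)]
      have o1 := (od_spec hv0).2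
      have o2 := (od_spec hm0).2
      rw [A4_addH _ _ (by omega) (by omega)] at k3
      have e1 : A4 (od v) = A4 v := by unfold A4; rw [od_odd o1]
      have e2 : A4 (od m) = A4 m := by unfold A4; rw [od_odd o2]
      rw [e1, e2] at k3
      exact dd2 _ _ k3
    · rw [one_mul]
      have k3 : A8 (od v * od m) = 0 := by
        rw [A8_odd (by omega), if_pos (Or.inl k2)]
      have o1 := (od_spec hv0).2
      have o2 := (od_spec hm0).2
      rw [A8_addH _ _ (by omega) (by omega)] at k3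
      have e1 : A8 (od v) = A8 v := by unfold A8; rw [od_odd o1]
      have e2 : A8 (od m) = A8 m := by unfold A8; rw [od_odd o2]
      rw [e1, e2] at k3
      exact dd2 _ _ k3
    · rw [one_mul]
      by_cases hm2 : (2 : ℤ) ∣ m
      · rw [V_one hm Nat.prime_two (by exact_mod_cast hm2),
          V_one hv Nat.prime_two (by exact_mod_cast k1.2 hm2)]
      · have hv2 : ¬ (2 : ℤ) ∣ v := fun h' => hm2 (k1.1 h')
        have q1 : V 2 v = 0 := V_zero Nat.prime_two (by exact_mod_cast hv2)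
        have q2 : V 2 m = 0 := V_zero Nat.prime_two (by exact_mod_cast hm2)
        rw [q1, q2]

/-- squarefree integers in the same class -/
theorem eq_of_sq {a b : ℤ} (ha : Squarefree a) (hb : Squarefree b)
    (h : ∀ F : ℤ → ZMod 2, AddH F → F a = F b) : a = b := by
  have ha0 := ha.ne_zero
  have hb0 := hb.ne_zero
  have hs := h sg sg_addH
  have hdvd : ∀ p : ℕ, p.Prime → ((p : ℤ) ∣ a ↔ (p : ℤ) ∣ b) := by
    intro p hp
    have : Fact p.Prime := ⟨hp⟩
    have h1 := h (V p) (V_addH p)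
    constructor
    · intro h2
      rw [V_one ha hp h2] at h1
      by_contra h3
      rw [V_zero hp h3] at h1
      exact absurd h1 (by decide)
    · intro h2
      rw [V_one hb hp h2] at h1
      by_contra h3
      rw [V_zero hp h3] at h1
      exact absurd h1 (by decide)
  have habs : a.natAbs = b.natAbs := by
    rw [← Nat.prod_primeFactors_of_squarefree (Int.squarefree_natAbs.2 ha),
      ← Nat.prod_primeFactors_of_squarefree (Int.squarefree_natAbs.2 hb)]
    refine Finset.prod_congr ?_ fun _ _ => rfl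
    ext p
    rw [Nat.mem_primeFactors_of_ne_zero (Int.natAbs_ne_zero.2 ha0),
      Nat.mem_primeFactors_of_ne_zero (Int.natAbs_ne_zero.2 hb0)]
    constructor
    · rintro ⟨h1, h2⟩
      exact ⟨h1, Int.natCast_dvd.1 ((hdvd p h1).1 (Int.natCast_dvd.2 h2))⟩
    · rintro ⟨h1, h2⟩
      exact ⟨h1, Int.natCast_dvd.1 ((hdvd p h1).2 (Int.natCast_dvd.2 h2))⟩
  rcases lt_or_gt_of_ne ha0 with h1 | h1 <;> rcases lt_or_gt_of_ne hb0 with h2 | h2
  · omega
  · rw [sg_neg h1, sg_pos h2] at hs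
    exact absurd hs (by decide)
  · rw [sg_pos h1, sg_neg h2] at hs
    exact absurd hs (by decide)
  · omega

/-- **VF** -/
theorem t_VF : Pool.Agent.H114.X21.S_VF := by
  intro m h0 hm hG v hv hD
  have hm0 := hm.ne_zero
  have hv0 := hv.ne_zero
  obtain ⟨c, hc⟩ : ∃ c : ZMod 2, m % 4 ≠ 1 →
      A4 v = c * A4 m ∧ A8 v = c * A8 m ∧ V 2 v = c * V 2 m := by
    by_cases h1 : m % 4 = 1
    · exact ⟨0, fun h2 => absurd h1 h2⟩
    · obtain ⟨c, hc⟩ := at2 hm hv (hD.e2 h1)
      exact ⟨c, fun _ => hc⟩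
  have supp : ∀ q : ℕ, q.Prime → q ∉ RS m → V q v = 0 := by
    intro q hq hqS
    rw [mem_RS hm0] at hqS
    have hqm : ¬ (q : ℤ) ∣ m := fun h' => hqS ⟨hq, Or.inl h'⟩
    apply V_zero hq
    by_cases h2 : q = 2
    · subst h2
      have h1 : m % 4 = 1 := by
        by_contra h1
        exact hqS ⟨hq, Or.inr ⟨rfl, h1⟩⟩
      have h3 := hD.o2 h1
      have h4 : ¬ (2 : ℤ) ∣ v := by omega
      exact_mod_cast h4
    · exact hD.dvd q hq h2 hqm
  set y : ℕ → ZMod 2 := fun q => if q = 2 then c else V q v with hy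
  have y2 : y 2 = c := by rw [hy]; simp
  have yo : ∀ q : ℕ, q ≠ 2 → y q = V q v := by
    intro q hq
    rw [hy]; simp [hq]
  have hyV : ∀ q ∈ RS m, y q * V q m = V q v := by
    intro q hq
    by_cases h2 : q = 2
    · subst h2
      rw [y2]
      exact (hc ((two_RS hm).1 hq)).2.2.symm
    · rw [yo q h2, V_RS hm hq h2, mul_one]
  have Fv : ∀ F : ℤ → ZMod 2, AddH F → F v = sg v * F (-1) + ∑ q ∈ RS m, V q v * F q := by
    intro F hF
    rw [F_abs hF hv0, expand hF (abs_pos.2 hv0) (RS m) (fun q hq => RS_prime hq)]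
    · congr 1
      refine Finset.sum_congr rfl fun q hq => ?_
      rw [V_abs (RS_prime hq) hv0]
    · intro q hq hqS
      rw [V_abs hq hv0]
      exact supp q hq hqS
  have hyw : ∀ F : ℤ → ZMod 2, ∑ q ∈ RS m, y q * V q m * F q = ∑ q ∈ RS m, V q v * F q := by
    intro F
    refine Finset.sum_congr rfl fun q hq => ?_
    rw [hyV q hq]
  have hsgn : ∑ q ∈ RS m, y q * al m q = sg v := by
    rw [sum_y_al hm y, hyw A4, y2]
    have h1 := Fv A4 A4_addH
    rw [A4_neg_one, mul_one] at h1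
    by_cases h4 : m % 4 = 1
    · rw [A4_zero (hD.o2 h4)] at h1
      rw [A4_zero h4, mul_zero, add_zero]
      exact (add0 h1.symm).symm
    · rw [(hc h4).1] at h1
      rw [h1]
      have h3 : ∀ a b : ZMod 2, b + (a + b) = a := by decide
      exact h3 _ _
  have Fw : ∀ F : ℤ → ZMod 2, AddH F → ∑ q ∈ RS m, y q * F (pd m q) = F v := by
    intro F hF
    rw [sum_w hF hm y, hsgn, hyw F, ← Fv F hF]
  rcases vside hm h0 hG y (by
    intro p hp
    have hpp := RS_prime hp
    rw [row hm y hp, Fw _ (G_addH hpp)]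
    by_cases h2 : p = 2
    · subst h2
      rw [G_two, y2, (hc ((two_RS hm).1 hp)).2.1, z2]
    · have : Fact p.Prime := ⟨hpp⟩
      have h3 := hD.odd p hpp h2 (dvd_of_RS hm hp h2)
      rw [sf_lam hv, sf_ind hv, sf_lam hm] at h3
      rw [G_odd h2, yo p h2, h3, z2]) with h | h
  · left
    refine eq_of_sq hv squarefree_one fun F hF => ?_
    rw [← Fw F hF, hF.one]
    exact Finset.sum_eq_zero fun q hq => by rw [h q hq, zero_mul]
  · right
    refine eq_of_sq hv hm fun F hF => ?_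
    rw [← Fw F hF, ← sum_pd hF hm]
    exact Finset.sum_congr rfl fun q hq => by rw [h q hq, one_mul]

end Pool.Agent.H189.X21.VF
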