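import Mathlib

/-!
# X21, part SQD: the density of a class of negative squarefree integers

The negative squarefree integers `m` with `m % 3 ≠ 1` and `m % 7 ∈ {0, 1, 2, 4}` have natural
density `45 / 128` in the negative squarefree integers.  General tool: for a periodic predicate
`C` modulo `M` the squarefree numbers with `C` have the density
`Σ μ(a)/a² #{r < M : C (a² r)} / M`.
-/

set_option autoImplicit false

namespace Pool.Agent.H233.X21.SQD

open Finset Filter Topology

/-- the Moebius function as a real number -/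
noncomputable def mu (n : ℕ) : ℝ := ((ArithmeticFunction.moebius n : ℤ) : ℝ)

theorem mu_abs (n : ℕ) : |mu n| ≤ 1 := by
  unfold mu
  have := ArithmeticFunction.abs_moebius_le_one (n := n)
  exact_mod_cast this

theorem mu_summable : Summable fun d : ℕ => mu d / (d : ℝ) ^ 2 := by
  apply Summable.of_norm_bounded (g := fun d : ℕ => 1 / (d : ℝ) ^ 2)
    (Real.summable_one_div_nat_pow.mpr one_lt_two)
  intro d
  rw [norm_div, norm_pow, Real.norm_natCast, Real.norm_eq_abs]
  gcongr
  exact mu_abs d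

/-- `Σ μ(n)/n² = 6/π²` -/
theorem mu_tsum : ∑' d : ℕ, mu d / (d : ℝ) ^ 2 = 6 / Real.pi ^ 2 := by
  have hs : 1 < (2 : ℂ).re := by norm_num
  have h1 := ArithmeticFunction.LSeries_zeta_mul_Lseries_moebius hs
  rw [ArithmeticFunction.LSeries_zeta_eq_riemannZeta hs, riemannZeta_two] at h1
  have h2 : LSeries (fun n => ((ArithmeticFunction.moebius n : ℤ) : ℂ)) 2 =
      ((∑' d : ℕ, mu d / (d : ℝ) ^ 2 : ℝ) : ℂ) := by
    rw [LSeries, Complex.ofReal_tsum]
    apply tsum_congr
    intro n
    rw [LSeries.term_def]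
    split_ifs with h
    · subst h; simp [mu]
    · unfold mu
      push_cast
      congr 1
      norm_cast
  rw [h2] at h1
  have h3 : Real.pi ^ 2 / 6 * (∑' d : ℕ, mu d / (d : ℝ) ^ 2) = 1 := by exact_mod_cast h1
  have hpi : Real.pi ^ 2 ≠ 0 := by positivity
  field_simp at h3 ⊢
  linarith

theorem mu_sq_eq (n : ℕ) (hn : n ≠ 0) :
    (if Squarefree n then (1 : ℝ) else 0) = ∑' d : ℕ, if d ^ 2 ∣ n then mu d else 0 := by
  obtain ⟨a, b, hab, ha⟩ := Nat.sq_mul_squarefree n
  have hb0 : b ≠ 0 := by rintro rfl; apply hn; rw [← hab]; simp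
  have ha0 : a ≠ 0 := by rintro rfl; apply hn; rw [← hab]; simp
  have key : ∀ d : ℕ, d ^ 2 ∣ n ↔ d ∣ b := by
    intro d
    constructor
    · intro h
      have hd0 : d ≠ 0 := by
        rintro rfl
        rw [zero_pow two_ne_zero, zero_dvd_iff] at h
        exact hn h
      rw [← Nat.factorization_le_iff_dvd (pow_ne_zero _ hd0) hn] at h
      rw [← Nat.factorization_le_iff_dvd hd0 hb0]
      intro p
      have h1 := h p
      rw [← hab, Nat.factorization_mul (pow_ne_zero _ hb0) ha0, Nat.factorization_pow,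
        Nat.factorization_pow] at h1
      have h2 := ha.natFactorization_le_one p
      simp only [Finsupp.coe_smul, Finsupp.coe_add, Pi.add_apply, Pi.smul_apply, smul_eq_mul] at h1
      omega
    · intro h
      rw [← hab]
      exact Dvd.dvd.mul_right (pow_dvd_pow_of_dvd h 2) a
  have h1 : (∑' d : ℕ, if d ^ 2 ∣ n then mu d else 0) = ∑ d ∈ b.divisors, mu d := by
    rw [tsum_eq_sum (s := b.divisors)]
    · apply Finset.sum_congr rfl
      intro d hd
      rw [if_pos ((key d).mpr (Nat.dvd_of_mem_divisors hd))]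
    · intro d hd
      rw [if_neg]
      intro h
      exact hd (Nat.mem_divisors.mpr ⟨(key d).mp h, hb0⟩)
  rw [h1]
  have h2 : (∑ d ∈ b.divisors, (ArithmeticFunction.moebius d : ℤ)) = if b = 1 then 1 else 0 := by
    have := congrArg (fun f => f b) ArithmeticFunction.moebius_mul_coe_zeta
    simp only [ArithmeticFunction.coe_mul_zeta_apply, ArithmeticFunction.one_apply] at this
    exact this
  have h2' : (∑ d ∈ b.divisors, mu d) = if b = 1 then 1 else 0 := by
    have := congrArg (fun z : ℤ => (z : ℝ)) h2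
    push_cast at this
    exact this
  rw [h2']
  have h4 : Squarefree n ↔ b = 1 := by
    constructor
    · intro h
      have := h b (by rw [← hab, ← sq]; exact dvd_mul_right _ _)
      exact Nat.isUnit_iff.mp this
    · rintro rfl
      rw [← hab]; simpa using ha
  simp only [h4]

/-- the terms of the sum over the numbers prime to `m` -/
noncomputable def gm (m d : ℕ) : ℝ := if Nat.Coprime d m then mu d / (d : ℝ) ^ 2 else 0

theorem gm_summable (m : ℕ) : Summable (gm m) := by
  apply Summable.of_norm_bounded (g := fun d : ℕ => ‖mu d / (d : ℝ) ^ 2‖) mu_summable.norm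
  intro d
  unfold gm
  split_ifs
  · exact le_rfl
  · rw [norm_zero]; exact norm_nonneg _

theorem mu_mul_prime {p : ℕ} (hp : p.Prime) (b : ℕ) :
    mu (p * b) = if Nat.Coprime b p then -mu b else 0 := by
  unfold mu
  split_ifs with h
  · rw [ArithmeticFunction.isMultiplicative_moebius.map_mul_of_coprime h.symm,
      ArithmeticFunction.moebius_apply_prime hp]
    push_cast; ring
  · have hd : p ∣ b := by
      by_contra hd
      exact h ((Nat.Prime.coprime_iff_not_dvd hp).2 hd).symm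
    obtain ⟨c, rfl⟩ := hd
    have : ¬ Squarefree (p * (p * c)) := by
      intro hsq
      have h2 := hsq p ⟨c, by ring⟩
      rw [Nat.isUnit_iff] at h2
      exact hp.one_lt.ne' h2
    rw [ArithmeticFunction.moebius_eq_zero_of_not_squarefree this]
    simp

theorem gm_step {m p : ℕ} (hp : p.Prime) (hpm : Nat.Coprime p m) :
    ∑' d, gm m d = (1 - 1 / (p : ℝ) ^ 2) * ∑' d, gm (m * p) d := by
  have hp0 : (p : ℝ) ≠ 0 := by exact_mod_cast hp.ne_zero
  set h : ℕ → ℝ := fun d => if p ∣ d then gm m d else 0 with hh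
  have e1 : ∀ d, gm m d = gm (m * p) d + h d := by
    intro d
    rw [hh]
    unfold gm
    simp only
    by_cases h1 : Nat.Coprime d m
    · by_cases h2 : p ∣ d
      · have h3 : ¬ Nat.Coprime d (m * p) := fun h3 =>
          (Nat.Prime.coprime_iff_not_dvd hp).1 (Nat.Coprime.coprime_mul_left_right h3).symm h2
        rw [if_pos h1, if_neg h3, if_pos h2, zero_add]
      · have h3 : Nat.Coprime d (m * p) :=
          Nat.Coprime.mul_right h1 ((Nat.Prime.coprime_iff_not_dvd hp).2 h2).symm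
        rw [if_pos h1, if_pos h3, if_neg h2, add_zero]
    · have h3 : ¬ Nat.Coprime d (m * p) := fun h3 => h1 (Nat.Coprime.coprime_mul_right_right h3)
      rw [if_neg h1, if_neg h3]
      split_ifs <;> simp
  have e2 : ∀ e, h (p * e) = -(1 / (p : ℝ) ^ 2) * gm (m * p) e := by
    intro e
    rw [hh]
    unfold gm
    simp only
    rw [if_pos (dvd_mul_right p e)]
    by_cases h1 : Nat.Coprime e m
    · rw [if_pos (Nat.Coprime.mul_left hpm h1), mu_mul_prime hp]
      by_cases h2 : Nat.Coprime e p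
      · rw [if_pos h2, if_pos (Nat.Coprime.mul_right h1 h2)]
        push_cast
        field_simp
      · rw [if_neg h2, if_neg (fun h3 => h2 (Nat.Coprime.coprime_mul_left_right h3))]
        simp
    · rw [if_neg (fun h3 => h1 (Nat.Coprime.coprime_mul_left h3)),
        if_neg (fun h3 => h1 (Nat.Coprime.coprime_mul_right_right h3)), mul_zero]
  have e3 : ∑' e, h (p * e) = ∑' d, h d := by
    refine Function.Injective.tsum_eq (g := fun e => p * e)
      (fun a b hab => Nat.eq_of_mul_eq_mul_left hp.pos hab) ?_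
    intro d hd
    rw [Function.mem_support, hh] at hd
    simp only at hd
    by_cases h2 : p ∣ d
    · obtain ⟨e, rfl⟩ := h2
      exact ⟨e, rfl⟩
    · rw [if_neg h2] at hd
      exact absurd rfl hd
  have hs : Summable h := by
    have h1 := (gm_summable m).sub (gm_summable (m * p))
    refine h1.congr fun d => ?_
    rw [e1 d]
    ring
  rw [tsum_congr e1, (gm_summable (m * p)).tsum_add hs, ← e3]
  simp only [e2, tsum_mul_left]
  ring

theorem sq_div (a X : ℕ) (ha : 0 < a) :
    ((X / a ^ 2 : ℕ) : ℝ) ≤ (X : ℝ) / (a : ℝ) ^ 2 ∧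
    (X : ℝ) / (a : ℝ) ^ 2 < ((X / a ^ 2 : ℕ) : ℝ) + 1 := by
  have ha0 : (0 : ℝ) < (a : ℝ) ^ 2 := by positivity
  constructor
  · have := Nat.cast_div_le (α := ℝ) (m := X) (n := a ^ 2)
    push_cast at this
    exact this
  · have h3 : X < (X / a ^ 2 + 1) * a ^ 2 := by
      have ha2 : 0 < a ^ 2 := by positivity
      exact (Nat.div_lt_iff_lt_mul ha2).mp (Nat.lt_succ_self _)
    rw [div_lt_iff₀ ha0]
    exact_mod_cast h3

/-! ## periodic predicates -/

open scoped Classical in
/-- the number of `1 ≤ m ≤ Y` with `P m` -/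
noncomputable def nP (P : ℕ → Prop) (Y : ℕ) : ℕ := ((Ico 1 (Y + 1)).filter P).card

open scoped Classical in
theorem nP_le (P : ℕ → Prop) (Y : ℕ) : nP P Y ≤ Y := by
  unfold nP
  refine (Finset.card_filter_le _ _).trans ?_
  rw [Nat.card_Ico]
  omega

open scoped Classical in
theorem nP_add (P : ℕ → Prop) {M : ℕ} (hP : Function.Periodic P M) (Y : ℕ) :
    nP P (Y + M) = nP P Y + M.count P := by
  have h := Nat.filter_Ico_card_eq_of_periodic (Y + 1) M P hP
  unfold nP
  rw [← h, Finset.card_filter, Finset.card_filter, Finset.card_filter,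
    Finset.sum_Ico_consecutive _ (by omega) (by omega)]
  congr 2
  omega

open scoped Classical in
theorem nP_est (P : ℕ → Prop) {M : ℕ} (hM : 0 < M) (hP : Function.Periodic P M) (Y : ℕ) :
    |(nP P Y : ℝ) - Y * ((M.count P : ℝ) / M)| ≤ M := by
  have hM0 : (0 : ℝ) < M := by exact_mod_cast hM
  have hc : (M.count P : ℝ) ≤ M := by exact_mod_cast Nat.count_le P
  have hc0 : (0 : ℝ) ≤ M.count P := Nat.cast_nonneg _
  induction Y using Nat.strong_induction_on with
  | _ Y ih =>
    by_cases hY : Y < M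
    · have h1 : (nP P Y : ℝ) ≤ Y := by exact_mod_cast nP_le P Y
      have h2 : (0 : ℝ) ≤ nP P Y := Nat.cast_nonneg _
      have h3 : (Y : ℝ) ≤ M := by exact_mod_cast hY.le
      have h4 : (0 : ℝ) ≤ Y := Nat.cast_nonneg _
      have h5 : (M.count P : ℝ) / M ≤ 1 := by rw [div_le_one hM0]; exact hc
      have h6 : 0 ≤ (M.count P : ℝ) / M := by positivity
      rw [abs_le]
      constructor
      · nlinarith
      · nlinarith
    · obtain ⟨Z, rfl⟩ : ∃ Z, Y = Z + M := ⟨Y - M, by omega⟩
      have h1 := ih Z (by omega)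
      rw [nP_add P hP]
      have h2 : ((nP P Z + M.count P : ℕ) : ℝ) - ((Z + M : ℕ) : ℝ) * ((M.count P : ℝ) / M) =
          (nP P Z : ℝ) - Z * ((M.count P : ℝ) / M) := by
        push_cast
        field_simp
        ring
      rw [h2]
      exact h1

open scoped Classical in
theorem nP_lim (P : ℕ → Prop) {M : ℕ} (hM : 0 < M) (hP : Function.Periodic P M) :
    Tendsto (fun Y : ℕ => (nP P Y : ℝ) / Y) atTop (𝓝 ((M.count P : ℝ) / M)) := by
  rw [tendsto_iff_norm_sub_tendsto_zero]
  have hz : Tendsto (fun X : ℕ => (M : ℝ) * (1 / (X : ℝ))) atTop (𝓝 (M * 0)) :=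
    (tendsto_one_div_atTop_nhds_zero_nat (𝕜 := ℝ)).const_mul _
  rw [mul_zero] at hz
  refine squeeze_zero' (Eventually.of_forall fun _ => norm_nonneg _) ?_ hz
  filter_upwards [eventually_ge_atTop 1] with X hX
  have hX0 : (0 : ℝ) < X := by exact_mod_cast hX
  rw [Real.norm_eq_abs]
  have e1 : (nP P X : ℝ) / X - (M.count P : ℝ) / M =
      ((nP P X : ℝ) - X * ((M.count P : ℝ) / M)) / X := by
    field_simp
  rw [e1, abs_div, abs_of_pos hX0, mul_one_div]
  exact div_le_div_of_nonneg_right (nP_est P hM hP X) hX0.le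

theorem per_mul {C : ℕ → Prop} {M : ℕ} (hC : ∀ n, C (n + M) ↔ C n) (b : ℕ) :
    Function.Periodic (fun m => C (b * m)) M := by
  intro m
  have h : ∀ k n : ℕ, C (n + k * M) ↔ C n := by
    intro k
    induction k with
    | zero => intro n; simp
    | succ k ih =>
      intro n
      rw [Nat.succ_mul, ← add_assoc, hC, ih]
  simp only
  rw [mul_add, h]

open scoped Classical in
theorem card_mult (C : ℕ → Prop) (X a : ℕ) (ha : 0 < a) :
    ((Icc 1 X).filter fun n => C n ∧ a ^ 2 ∣ n).card = nP (fun m => C (a ^ 2 * m)) (X / a ^ 2) := by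
  have ha2 : 0 < a ^ 2 := by positivity
  unfold nP
  symm
  apply Finset.card_bij (fun m _ => a ^ 2 * m)
  · intro m hm
    rw [Finset.mem_filter, Finset.mem_Ico] at hm
    rw [Finset.mem_filter, Finset.mem_Icc]
    refine ⟨⟨Nat.mul_pos ha2 hm.1.1, ?_⟩, hm.2, dvd_mul_right _ _⟩
    have h1 : m ≤ X / a ^ 2 := by omega
    rw [Nat.le_div_iff_mul_le ha2] at h1
    rw [mul_comm]
    exact h1
  · intro m _ m' _ h
    exact Nat.eq_of_mul_eq_mul_left ha2 h
  · intro n hn
    rw [Finset.mem_filter, Finset.mem_Icc] at hn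
    obtain ⟨hn1, hn2, m, hm⟩ := hn
    refine ⟨m, ?_, hm.symm⟩
    rw [Finset.mem_filter, Finset.mem_Ico]
    rw [hm] at hn2
    have hm0 : 0 < m := by
      rcases Nat.eq_zero_or_pos m with h | h
      · rw [h, mul_zero] at hm
        omega
      · exact h
    refine ⟨⟨hm0, ?_⟩, hn2⟩
    have : m ≤ X / a ^ 2 := by
      rw [Nat.le_div_iff_mul_le ha2, mul_comm, ← hm]
      exact hn1.2
    omega

theorem mu_zero : mu 0 = 0 := by
  unfold mu
  simp

open scoped Classical in
theorem count_eq (C : ℕ → Prop) (X : ℕ) :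
    (((Icc 1 X).filter fun D => Squarefree D ∧ C D).card : ℝ) =
    ∑' a : ℕ, mu a * nP (fun m => C (a ^ 2 * m)) (X / a ^ 2) := by
  rw [Finset.card_filter]
  push_cast
  have h2 : ∀ n ∈ Icc 1 X, (if Squarefree n ∧ C n then (1 : ℝ) else 0) =
      ∑' a : ℕ, if C n ∧ a ^ 2 ∣ n then mu a else 0 := by
    intro n hn
    rw [Finset.mem_Icc] at hn
    by_cases hC : C n
    · have := mu_sq_eq n (by omega)
      simp only [hC, true_and, and_true]
      exact this
    · simp [hC]
  rw [Finset.sum_congr rfl h2, ← Summable.tsum_finsetSum]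
  · apply tsum_congr
    intro a
    have h3 : ∑ n ∈ Icc 1 X, (if C n ∧ a ^ 2 ∣ n then mu a else 0) =
        mu a * (((Icc 1 X).filter fun n => C n ∧ a ^ 2 ∣ n).card : ℝ) := by
      rw [← Finset.sum_filter, Finset.sum_const, nsmul_eq_mul, mul_comm]
    rw [h3]
    rcases Nat.eq_zero_or_pos a with rfl | ha
    · rw [mu_zero, zero_mul, zero_mul]
    · rw [card_mult C X a ha]
  · intro n hn
    rw [Finset.mem_Icc] at hn
    apply summable_of_hasFiniteSupport
    apply Set.Finite.subset (Finset.finite_toSet (range (n + 1)))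
    intro a ha
    rw [Function.mem_support] at ha
    have h4 : C n ∧ a ^ 2 ∣ n := by
      by_contra h5
      rw [if_neg h5] at ha
      exact ha rfl
    have h6 : a ^ 2 ≤ n := Nat.le_of_dvd (by omega) h4.2
    have h7 : a ≤ n := by nlinarith
    simp only [Finset.coe_range, Set.mem_Iio]
    omega

open scoped Classical in
/-- the density of the squarefree numbers with a periodic property -/
theorem dens {M : ℕ} (hM : 0 < M) {C : ℕ → Prop} (hC : ∀ n, C (n + M) ↔ C n) (F : ℕ → ℝ)
    (hF : ∀ (a : ℕ) (inst : DecidablePred fun r => C (a ^ 2 * r)),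
      (@Nat.count (fun r => C (a ^ 2 * r)) inst M : ℝ) / M = F a) :
    Tendsto (fun X : ℕ => (((Icc 1 X).filter fun D => Squarefree D ∧ C D).card : ℝ) / X) atTop
      (𝓝 (∑' a : ℕ, mu a / (a : ℝ) ^ 2 * F a)) := by
  have e : (fun X : ℕ => (((Icc 1 X).filter fun D => Squarefree D ∧ C D).card : ℝ) / X) =
      fun X : ℕ => ∑' a : ℕ, (mu a * nP (fun m => C (a ^ 2 * m)) (X / a ^ 2)) / X := by
    funext X
    rw [count_eq, tsum_div_const]
  rw [e]
  apply tendsto_tsum_of_dominated_convergence (bound := fun a : ℕ => 1 / (a : ℝ) ^ 2)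
    (Real.summable_one_div_nat_pow.mpr one_lt_two)
  · intro a
    rcases Nat.eq_zero_or_pos a with rfl | ha1
    · simp [mu_zero]
    · have ha0 : (0 : ℝ) < (a : ℝ) ^ 2 := by positivity
      have hdiv : Tendsto (fun X : ℕ => X / a ^ 2) atTop atTop :=
        Nat.tendsto_div_const_atTop (pow_ne_zero 2 ha1.ne')
      have l1 := (nP_lim (fun m => C (a ^ 2 * m)) hM (per_mul hC (a ^ 2))).comp hdiv
      rw [hF a _] at l1
      have l2 : Tendsto (fun X : ℕ => ((X / a ^ 2 : ℕ) : ℝ) / X) atTop (𝓝 (1 / (a : ℝ) ^ 2)) := by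
        rw [tendsto_iff_norm_sub_tendsto_zero]
        refine squeeze_zero' (Eventually.of_forall fun _ => norm_nonneg _) ?_
          (tendsto_one_div_atTop_nhds_zero_nat (𝕜 := ℝ))
        filter_upwards [eventually_ge_atTop 1] with X hX
        have hX0 : (0 : ℝ) < X := by exact_mod_cast hX
        obtain ⟨h1, h2⟩ := sq_div a X ha1
        rw [Real.norm_eq_abs]
        have e1 : ((X / a ^ 2 : ℕ) : ℝ) / X - 1 / (a : ℝ) ^ 2 =
            (((X / a ^ 2 : ℕ) : ℝ) - (X : ℝ) / (a : ℝ) ^ 2) / X := by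
          field_simp
        rw [e1, abs_div, abs_of_pos hX0]
        refine div_le_div_of_nonneg_right ?_ hX0.le
        rw [abs_le]
        constructor <;> linarith
      have l3 := (l1.mul l2).const_mul (mu a)
      have e1 : mu a / (a : ℝ) ^ 2 * F a = mu a * (F a * (1 / (a : ℝ) ^ 2)) := by ring
      rw [e1]
      refine l3.congr fun X => ?_
      simp only [Function.comp_apply]
      by_cases h0 : X / a ^ 2 = 0
      · rw [h0]
        have : nP (fun m => C (a ^ 2 * m)) 0 = 0 := Nat.le_zero.1 (nP_le _ 0)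
        rw [this]
        simp
      · have h0' : ((X / a ^ 2 : ℕ) : ℝ) ≠ 0 := by exact_mod_cast h0
        rw [mul_div_assoc]
        congr 1
        field_simp
  · rw [eventually_atTop]
    refine ⟨1, fun X hX a => ?_⟩
    have hX0 : (0 : ℝ) < X := by exact_mod_cast hX
    rcases Nat.eq_zero_or_pos a with rfl | ha1
    · simp [mu_zero]
    · have ha0 : (0 : ℝ) < (a : ℝ) ^ 2 := by positivity
      rw [norm_div, norm_mul, Real.norm_natCast, Real.norm_natCast, Real.norm_eq_abs]
      have h1 : (nP (fun m => C (a ^ 2 * m)) (X / a ^ 2) : ℝ) ≤ (X : ℝ) / (a : ℝ) ^ 2 := by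
        have h2 : (nP (fun m => C (a ^ 2 * m)) (X / a ^ 2) : ℝ) ≤ ((X / a ^ 2 : ℕ) : ℝ) := by
          exact_mod_cast nP_le _ _
        exact h2.trans (sq_div a X ha1).1
      calc |mu a| * (nP (fun m => C (a ^ 2 * m)) (X / a ^ 2) : ℝ) / X
          ≤ 1 * ((X : ℝ) / (a : ℝ) ^ 2) / X := by
            gcongr
            exact mu_abs a
        _ = 1 / (a : ℝ) ^ 2 := by field_simp

/-! ## the class -/

/-- the class, for positive numbers -/
def Cl (k : ℕ) : Prop := k % 3 ≠ 2 ∧ (k % 7 = 0 ∨ k % 7 = 3 ∨ k % 7 = 5 ∨ k % 7 = 6)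

instance (k : ℕ) : Decidable (Cl k) :=
  inferInstanceAs (Decidable (k % 3 ≠ 2 ∧ (k % 7 = 0 ∨ k % 7 = 3 ∨ k % 7 = 5 ∨ k % 7 = 6)))

theorem Cl_per (n : ℕ) : Cl (n + 21) ↔ Cl n := by unfold Cl; omega

theorem Cl_mod (n : ℕ) : Cl n ↔ Cl (n % 21) := by unfold Cl; omega

theorem Cl_sq (a r : ℕ) : Cl (a ^ 2 * r) ↔ Cl ((a % 21) ^ 2 * r) := by
  rw [Cl_mod (a ^ 2 * r), Cl_mod ((a % 21) ^ 2 * r)]
  have h : a ^ 2 * r ≡ (a % 21) ^ 2 * r [MOD 21] :=
    Nat.ModEq.mul_right r ((Nat.mod_modEq a 21).symm.pow 2)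
  rw [show a ^ 2 * r % 21 = (a % 21) ^ 2 * r % 21 from h]

theorem cnt_dec : ∀ s < 21, ((range 21).filter fun r => Cl (s ^ 2 * r)).card +
    (if Nat.Coprime s 3 then 7 else 0) + (if Nat.Coprime s 7 then 9 else 0) =
    21 + (if Nat.Coprime s 21 then 3 else 0) := by
  decide +kernel

theorem coprime_mod {a m : ℕ} (hm : m ∣ 21) : Nat.Coprime (a % 21) m ↔ Nat.Coprime a m := by
  have h : a % 21 ≡ a [MOD m] := (Nat.mod_modEq a 21).of_dvd hm
  unfold Nat.Coprime
  rw [Nat.gcd_comm, Nat.gcd_comm a m, Nat.gcd_rec m (a % 21), Nat.gcd_rec m a,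
    show a % 21 % m = a % m from h]

theorem cnt_val (a : ℕ) (inst : DecidablePred fun r => Cl (a ^ 2 * r)) :
    (@Nat.count (fun r => Cl (a ^ 2 * r)) inst 21 : ℝ) / (21 : ℕ) =
    1 - (if Nat.Coprime a 3 then 1 / 3 else 0) - (if Nat.Coprime a 7 then 3 / 7 else 0) +
      (if Nat.Coprime a 21 then 1 / 7 else 0) := by
  have h := cnt_dec (a % 21) (Nat.mod_lt _ (by norm_num))
  have e : @Nat.count (fun r => Cl (a ^ 2 * r)) inst 21 =
      ((range 21).filter fun r => Cl ((a % 21) ^ 2 * r)).card := by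
    rw [Nat.count_eq_card_filter_range]
    congr 1
    ext r
    simp only [Finset.mem_filter, Finset.mem_range, Cl_sq a r]
  rw [← e] at h
  simp only [coprime_mod (m := 3) (by norm_num), coprime_mod (m := 7) (by norm_num),
    coprime_mod (m := 21) (by norm_num)] at h
  have h' : ((@Nat.count (fun r => Cl (a ^ 2 * r)) inst 21 : ℕ) : ℝ) +
      (if Nat.Coprime a 3 then 7 else 0) + (if Nat.Coprime a 7 then 9 else 0) =
      21 + (if Nat.Coprime a 21 then 3 else 0) := by exact_mod_cast h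
  split_ifs at h' ⊢ <;> push_cast <;> linarith

theorem gm_one : ∑' d, gm 1 d = 6 / Real.pi ^ 2 := by
  rw [← mu_tsum]
  refine tsum_congr fun d => ?_
  unfold gm
  rw [if_pos (Nat.coprime_one_right d)]

theorem card_inst (p : ℕ → Prop) (s : Finset ℕ) (i j : DecidablePred p) :
    (@Finset.filter ℕ p i s).card = (@Finset.filter ℕ p j s).card := by
  rw [Subsingleton.elim i j]

open scoped Classical in
theorem lim_Cl : Tendsto (fun X : ℕ =>
    (((Icc 1 X).filter fun D => Squarefree D ∧ Cl D).card : ℝ) / X) atTop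
      (𝓝 (45 / 128 * (6 / Real.pi ^ 2))) := by
  have h := dens (M := 21) (by norm_num) Cl_per _ cnt_val
  have e : ∑' a : ℕ, mu a / (a : ℝ) ^ 2 *
      (1 - (if Nat.Coprime a 3 then 1 / 3 else 0) - (if Nat.Coprime a 7 then 3 / 7 else 0) +
      (if Nat.Coprime a 21 then 1 / 7 else 0)) = 45 / 128 * (6 / Real.pi ^ 2) := by
    have hs := (((gm_summable 1).hasSum.sub ((gm_summable 3).hasSum.mul_left (1 / 3))).sub
      ((gm_summable 7).hasSum.mul_left (3 / 7))).add ((gm_summable 21).hasSum.mul_left (1 / 7))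
    have e1 : ∀ a : ℕ, mu a / (a : ℝ) ^ 2 *
        (1 - (if Nat.Coprime a 3 then 1 / 3 else 0) - (if Nat.Coprime a 7 then 3 / 7 else 0) +
        (if Nat.Coprime a 21 then 1 / 7 else 0)) =
        gm 1 a - 1 / 3 * gm 3 a - 3 / 7 * gm 7 a + 1 / 7 * gm 21 a := by
      intro a
      unfold gm
      rw [if_pos (Nat.coprime_one_right a)]
      split_ifs <;> ring
    rw [tsum_congr e1, hs.tsum_eq]
    have h1 := gm_step (m := 1) (p := 3) Nat.prime_three (by norm_num)
    have h2 := gm_step (m := 3) (p := 7) (by norm_num) (by norm_num)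
    have h3 := gm_step (m := 1) (p := 7) (by norm_num) (by norm_num)
    rw [gm_one] at h1 h3 ⊢
    have e3 : gm (1 * 3) = gm 3 := by norm_num
    have e7 : gm (1 * 7) = gm 7 := by norm_num
    have e21 : gm (3 * 7) = gm 21 := by norm_num
    rw [e3] at h1
    rw [e7] at h3
    rw [e21] at h2
    push_cast at h1 h2 h3
    generalize (∑' d, gm 3 d) = x at h1 h2 ⊢
    generalize (∑' d, gm 7 d) = y at h3 ⊢
    generalize (∑' d, gm 21 d) = z at h2 ⊢
    generalize 6 / Real.pi ^ 2 = w at h1 h3 ⊢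
    linarith
  rw [e] at h
  exact h.congr fun X => congrArg (fun n : ℕ => (n : ℝ) / X) (card_inst _ _ _ _)

open scoped Classical in
theorem lim_all : Tendsto (fun X : ℕ =>
    (((Icc 1 X).filter fun D => Squarefree D ∧ True).card : ℝ) / X) atTop
      (𝓝 (6 / Real.pi ^ 2)) := by
  have h := dens (M := 1) one_pos (C := fun _ => True) (fun _ => Iff.rfl) (fun _ => 1) (by
    intro a inst
    rw [Nat.count_eq_card_filter_range]
    simp)
  simp only [mul_one] at h
  rw [mu_tsum] at h
  exact h.congr fun X => congrArg (fun n : ℕ => (n : ℝ) / X) (card_inst _ _ _ _)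

/-- from negative integers to natural numbers -/
theorem neg_card (X : ℕ) (q : ℤ → Prop) (r : ℕ → Prop) [DecidablePred q] [DecidablePred r]
    (h : ∀ k : ℕ, 1 ≤ k → (q (-(k : ℤ)) ↔ r k)) (hneg : ∀ m, q m → m < 0) :
    ((Icc (-(X : ℤ)) X).filter q).card = ((Icc 1 X).filter r).card := by
  symm
  apply Finset.card_bij (fun (k : ℕ) _ => -(k : ℤ))
  · intro k hk
    rw [Finset.mem_filter, Finset.mem_Icc] at hk ⊢
    refine ⟨by omega, (h k hk.1.1).2 hk.2⟩
  · intro a _ b _ hab
    simpa using hab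
  · intro m hm
    rw [Finset.mem_filter, Finset.mem_Icc] at hm
    have hm0 := hneg m hm.2
    refine ⟨(-m).toNat, ?_, by omega⟩
    have e : -(((-m).toNat : ℕ) : ℤ) = m := by omega
    rw [Finset.mem_filter, Finset.mem_Icc]
    refine ⟨by omega, (h _ (by omega)).1 (by rw [e]; exact hm.2)⟩

end Pool.Agent.H233.X21.SQD

namespace Pool.Agent.H233.X21

open SQD

open scoped Classical in
/-- SQD: the class has density `45 / 128` in the negative squarefree integers. -/
theorem t_SQD : Filter.Tendsto (fun X : ℕ =>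
    (((Finset.Icc (-(X : ℤ)) X).filter fun m : ℤ => m < 0 ∧ Squarefree m ∧
      (m % 3 ≠ 1 ∧ (m % 7 = 0 ∨ m % 7 = 1 ∨ m % 7 = 2 ∨ m % 7 = 4))).card : ℝ) /
    (((Finset.Icc (-(X : ℤ)) X).filter fun m : ℤ => m < 0 ∧ Squarefree m).card : ℝ))
    Filter.atTop (nhds (45 / 128)) := by
  have hpi : (6 / Real.pi ^ 2 : ℝ) ≠ 0 := by positivity
  have h := lim_Cl.div lim_all hpi
  rw [mul_div_assoc, div_self hpi, mul_one] at h
  refine Filter.Tendsto.congr' ?_ h
  filter_upwards [Filter.eventually_ge_atTop 1] with X hX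
  have hX0 : (X : ℝ) ≠ 0 := by
    have : (0 : ℝ) < X := by exact_mod_cast hX
    exact this.ne'
  have hsq : ∀ k : ℕ, Squarefree (-(k : ℤ)) ↔ Squarefree k := by
    intro k
    rw [← Int.squarefree_natAbs, Int.natAbs_neg, Int.natAbs_natCast]
  rw [neg_card X (fun m : ℤ => m < 0 ∧ Squarefree m ∧
      (m % 3 ≠ 1 ∧ (m % 7 = 0 ∨ m % 7 = 1 ∨ m % 7 = 2 ∨ m % 7 = 4)))
      (fun D => Squarefree D ∧ Cl D) ?_ (fun m hm => hm.1),
    neg_card X (fun m : ℤ => m < 0 ∧ Squarefree m) (fun D => Squarefree D ∧ True) ?_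
      (fun m hm => hm.1)]
  · simp only [Pi.div_apply]
    rw [div_div_div_cancel_right₀ hX0]
  · intro k hk
    rw [hsq, and_true]
    constructor
    · exact fun h => h.2
    · exact fun h => ⟨by omega, h⟩
  · intro k hk
    rw [hsq]
    have e1 : (-(k : ℤ)) % 3 ≠ 1 ↔ k % 3 ≠ 2 := by omega
    have e2 : ((-(k : ℤ)) % 7 = 0 ∨ (-(k : ℤ)) % 7 = 1 ∨ (-(k : ℤ)) % 7 = 2 ∨
        (-(k : ℤ)) % 7 = 4) ↔ (k % 7 = 0 ∨ k % 7 = 3 ∨ k % 7 = 5 ∨ k % 7 = 6) := by omega
    rw [e1, e2]
    constructor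
    · exact fun h => h.2
    · exact fun h => ⟨by omega, h⟩

end Pool.Agent.H233.X21
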