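import Pool.Agent.H114.X21.Stm
import Pool.Graph.R_seed8.Y809.BSD14.Tam3

/-!
# Twists of `X_0(21)`: coordinates, and the Tamagawa number at `3`, `N ≡ 2 mod 3`
-/

set_option autoImplicit false
set_option linter.all false

open scoped Classical

open WeierstrassCurve

namespace Pool.Agent.H161.X21

open Pool.Agent.H114.X21
open Pool.Agent.Y700 (SingRed E0 tam PtP)
open Pool.Agent.Y809.BSD14

section crd

variable {K : Type} [Field K]

/-- the shape of the equation -/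
structure IsW (W : WeierstrassCurve.Affine K) (a m : K) : Prop where
  a1 : W.a₁ = a
  a3 : W.a₃ = 0
  a2 : 4 * W.a₂ = 25 * m - a ^ 2
  a4 : W.a₄ = 9 * m ^ 2
  a6 : W.a₆ = 0

variable {W : WeierstrassCurve.Affine K} {a m : K}

theorem IsW.eqn (h : IsW W a m) {x y : K} (hE : W.Equation x y) :
    (4 * (2 * y + a * x)) ^ 2 = (4 * x) ^ 3 + 25 * m * (4 * x) ^ 2 + 144 * m ^ 2 * (4 * x) := by
  rw [Affine.equation_iff, h.a1, h.a3, h.a4, h.a6] at hE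
  linear_combination 64 * hE + 16 * x ^ 2 * h.a2

theorem IsW.eqn' (h : IsW W a m) (h2 : (2 : K) ≠ 0) {x y : K}
    (hE : (4 * (2 * y + a * x)) ^ 2 = (4 * x) ^ 3 + 25 * m * (4 * x) ^ 2 +
      144 * m ^ 2 * (4 * x)) : W.Equation x y := by
  rw [Affine.equation_iff, h.a1, h.a3, h.a4, h.a6]
  have h64 : (64 : K) ≠ 0 := by
    have : (64 : K) = 2 ^ 6 := by norm_num
    rw [this]
    exact pow_ne_zero _ h2
  apply mul_left_cancel₀ h64
  linear_combination hE - 16 * x ^ 2 * h.a2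

theorem IsW.fx (h : IsW W a m) (x y : K) : 16 * (W.a₁ * y - (3 * x ^ 2 + 2 * W.a₂ * x + W.a₄)) =
    2 * a * (4 * (2 * y + a * x)) -
      (3 * (4 * x) ^ 2 + 50 * m * (4 * x) + 144 * m ^ 2) := by
  rw [h.a1, h.a4]
  linear_combination (-8 * x) * h.a2

/-- the point `P` has the coordinates `X = 4 x`, `Y = 4 (2 y + a x)` -/
def At (a : K) (P : W.Point) (X Y : K) : Prop :=
  ∃ (x y : K) (h : W.Nonsingular x y), P = Affine.Point.some x y h ∧ X = 4 * x ∧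
    Y = 4 * (2 * y + a * x)

theorem At.eqn (hW : IsW W a m) {P : W.Point} {X Y : K} (h : At a P X Y) :
    Y ^ 2 = X * (X + 9 * m) * (X + 16 * m) := by
  obtain ⟨x, y, hn, rfl, rfl, rfl⟩ := h
  have h1 := hW.eqn hn.1
  linear_combination h1

theorem At.ne_zero {P : W.Point} {X Y : K} (h : At a P X Y) : P ≠ 0 := by
  obtain ⟨x, y, hn, rfl, _⟩ := h
  exact Affine.Point.some_ne_zero _

theorem exists_at (a : K) {P : W.Point} (h : P ≠ 0) : ∃ X Y, At a P X Y := by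
  rcases P with _ | ⟨x, y, hn⟩
  · exact absurd rfl h
  · exact ⟨_, _, x, y, hn, rfl, rfl, rfl⟩

theorem At.ext (h2 : (2 : K) ≠ 0) {P P' : W.Point} {X Y : K} (h : At a P X Y) (h' : At a P' X Y) :
    P = P' := by
  obtain ⟨x, y, hn, rfl, e1, e2⟩ := h
  obtain ⟨x', y', hn', rfl, e1', e2'⟩ := h'
  have hx : x = x' := by
    have h3 : (2 ^ 2 : K) * x = 2 ^ 2 * x' := by linear_combination e1' - e1
    exact mul_left_cancel₀ (pow_ne_zero 2 h2) h3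
  have hy : y = y' := by
    have h3 : (2 ^ 3 : K) * y = 2 ^ 3 * y' := by rw [hx] at e2; linear_combination e2' - e2
    exact mul_left_cancel₀ (pow_ne_zero 3 h2) h3
  subst hx hy
  rfl

theorem At.neg (hW : IsW W a m) {P : W.Point} {X Y : K} (h : At a P X Y) : At a (-P) X (-Y) := by
  obtain ⟨x, y, hn, rfl, rfl, rfl⟩ := h
  rw [Affine.Point.neg_some]
  refine ⟨_, _, _, rfl, rfl, ?_⟩
  rw [WeierstrassCurve.Affine.negY, hW.a1, hW.a3]
  ring

/-- the point `(0, 0)` -/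
theorem exists_T (hW : IsW W a m) (h2 : (2 : K) ≠ 0) (h3 : (3 : K) ≠ 0) (hm : m ≠ 0) :
    ∃ P : W.Point, At a P 0 0 := by
  have h4 : (4 : K) ≠ 0 := by
    have : (4 : K) = 2 ^ 2 := by norm_num
    rw [this]
    exact pow_ne_zero _ h2
  obtain ⟨x, hx⟩ : ∃ x : K, 0 = 4 * x := ⟨0, by ring⟩
  obtain ⟨y, hy⟩ : ∃ y : K, 0 = 4 * (2 * y + a * x) :=
    ⟨(-(a * x)) / 2, by field_simp; ring⟩
  have hq : W.Equation x y := by
    apply hW.eqn' h2
    rw [← hx, ← hy]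
    ring
  have hn : W.Nonsingular x y := by
    rw [Affine.nonsingular_iff]
    refine ⟨hq, ?_⟩
    by_contra hcon
    rw [not_or, not_ne_iff, not_ne_iff] at hcon
    obtain ⟨hc1, hc2⟩ := hcon
    have hf := hW.fx x y
    rw [hc1, sub_self, mul_zero, ← hx, ← hy] at hf
    have h5 : ((2 : K) ^ 4 * 3 ^ 2) * m ^ 2 = 0 := by linear_combination hf
    exact mul_ne_zero (mul_ne_zero (pow_ne_zero _ h2) (pow_ne_zero _ h3)) (pow_ne_zero _ hm) h5
  exact ⟨Affine.Point.some x y hn, x, y, hn, rfl, hx, hy⟩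

variable [DecidableEq K]

theorem At.add (hW : IsW W a m) (h2 : (2 : K) ≠ 0) {P P' : W.Point} {X Y X' Y' : K}
    (h : At a P X Y) (h' : At a P' X' Y') (hne : X ≠ X') :
    ∃ Y3, At a (P + P') (((Y - Y') / (X - X')) ^ 2 - 25 * m - X - X') Y3 := by
  obtain ⟨x, y, hn, rfl, rfl, rfl⟩ := h
  obtain ⟨x', y', hn', rfl, rfl, rfl⟩ := h'
  have hx : x ≠ x' := fun h => hne (by rw [h])
  rw [Affine.Point.add_of_X_ne hx]
  refine ⟨_, _, _, _, rfl, ?_, rfl⟩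
  rw [WeierstrassCurve.Affine.addX, WeierstrassCurve.Affine.slope_of_X_ne hx, hW.a1]
  have h1 : x - x' ≠ 0 := sub_ne_zero.2 hx
  have h4 : (4 : K) ≠ 0 := by
    have : (4 : K) = 2 ^ 2 := by norm_num
    rw [this]
    exact pow_ne_zero _ h2
  have h5 : (4 * (2 * y + a * x) - 4 * (2 * y' + a * x')) /
      (4 * x - 4 * x') = 2 * ((y - y') / (x - x')) + a := by
    have h6 : 4 * x - 4 * x' = 4 * (x - x') := by ring
    rw [h6]
    field_simp
    ring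
  rw [h5]
  linear_combination hW.a2

/-- translation by a point of order two with the coordinates `(e, 0)` -/
theorem At.addT (hW : IsW W a m) (h2 : (2 : K) ≠ 0) {P T : W.Point} {X Y e : K} (h : At a P X Y)
    (hT : At a T e 0) (hX : X ≠ e) : ∃ X3 Y3, At a (P + T) X3 Y3 ∧
      (X3 - e) * (X - e) = 3 * e ^ 2 + 50 * m * e + 144 * m ^ 2 := by
  obtain ⟨Y3, h3⟩ := h.add hW h2 hT hX
  refine ⟨_, Y3, h3, ?_⟩
  have e0 := h.eqn hW
  have eT := hT.eqn hW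
  have hXe : X - e ≠ 0 := sub_ne_zero.2 hX
  rw [sub_zero]
  obtain ⟨L, hL⟩ : ∃ L : K, L = Y / (X - e) := ⟨_, rfl⟩
  have hL1 : L * (X - e) = Y := by rw [hL, div_mul_cancel₀ _ hXe]
  rw [← hL]
  have e3 : L ^ 2 * (X - e) = X ^ 2 + (e + 25 * m) * X + (e ^ 2 + 25 * m * e + 144 * m ^ 2) := by
    apply mul_right_cancel₀ hXe
    rw [← hL1] at e0
    linear_combination e0 - eT
  linear_combination e3

theorem two_tors (hW : IsW W a m) (h2 : (2 : K) ≠ 0) {T : W.Point} {e : K} (hT : At a T e 0) :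
    T + T = 0 := by
  have h1 : At a (-T) e 0 := by simpa using hT.neg hW
  have h3 : T = -T := hT.ext h2 h1
  calc T + T = T + -T := by rw [← h3]
    _ = 0 := add_neg_cancel T

theorem isW {W : WeierstrassCurve ℤ} {N : ℤ} (h : IsN W N) (h2 : (2 : K) ≠ 0) :
    IsW (W.map (Int.castRingHom K)).toAffine ((W.a₁ : ℤ) : K) (N : K) := by
  have e2 := congrArg (Int.cast (R := K)) h.b2
  have e4 := congrArg (Int.cast (R := K)) h.b4
  rw [WeierstrassCurve.b₂] at e2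
  rw [WeierstrassCurve.b₄, h.a3, mul_zero, add_zero] at e4
  push_cast at e2 e4
  refine ⟨rfl, ?_, ?_, ?_, ?_⟩
  · show ((W.a₃ : ℤ) : K) = 0
    rw [h.a3, Int.cast_zero]
  · show 4 * ((W.a₂ : ℤ) : K) = _
    linear_combination e2
  · show ((W.a₄ : ℤ) : K) = _
    apply mul_left_cancel₀ h2
    linear_combination e4
  · show ((W.a₆ : ℤ) : K) = 0
    rw [h.a6, Int.cast_zero]

end crd

section

variable {q : ℕ} [Fact q.Prime] {W : WeierstrassCurve ℤ} {N : ℤ}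

theorem nint (n : ℤ) : ‖(n : ℚ_[q])‖ ≤ 1 := Padic.norm_int_le_one n

theorem unit_int {n : ℤ} (h : ¬ (q : ℤ) ∣ n) : ‖(n : ℚ_[q])‖ = 1 :=
  le_antisymm (Padic.norm_int_le_one n) (not_lt.1 fun h1 => h (Padic.norm_intCast_lt_one_iff.1 h1))

theorem sq_lt {x : ℚ_[q]} (h : ‖x ^ 2‖ < 1) : ‖x‖ < 1 := by
  rw [norm_pow] at h
  by_contra h1
  rw [not_lt] at h1
  have := one_le_pow₀ h1 (n := 2)
  linarith

/-- singular reduction in the coordinates `X`, `Y` -/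
theorem sing_XY (h : IsN W N) (hq2 : q ≠ 2) (x y : ℚ_[q]) :
    SingRed W q x y ↔ ‖4 * x‖ ≤ 1 ∧ ‖4 * (2 * y + (W.a₁ : ℚ_[q]) * x)‖ < 1 ∧
      ‖3 * (4 * x) ^ 2 + 50 * N * (4 * x) + 144 * (N : ℚ_[q]) ^ 2‖ < 1 := by
  have h2 : (2 : ℚ_[q]) ≠ 0 := two_ne_zero
  have hW := isW (K := ℚ_[q]) h h2
  have e2 := hW.fx x y
  have n4 := norm4 hq2
  have n2' := norm2 hq2
  have n16 := norm16 hq2
  have ha := nint (q := q) W.a₁
  have c3 : ((W.a₃ : ℤ) : ℚ_[q]) = 0 := by rw [h.a3, Int.cast_zero]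
  have e3 : 16 * ((W.a₁ : ℚ_[q]) * y - (3 * x ^ 2 + 2 * (W.a₂ : ℚ_[q]) * x +
      (W.a₄ : ℚ_[q]))) = 2 * (W.a₁ : ℚ_[q]) * (4 * (2 * y + (W.a₁ : ℚ_[q]) * x)) -
      (3 * (4 * x) ^ 2 + 50 * N * (4 * x) + 144 * (N : ℚ_[q]) ^ 2) := e2
  constructor
  · rintro ⟨hx, hy, hfx, hfy⟩
    rw [c3, add_zero] at hfy
    have hY : ‖4 * (2 * y + (W.a₁ : ℚ_[q]) * x)‖ < 1 := by rw [norm_mul, n4, one_mul]; exact hfy
    refine ⟨nmul n4.le hx, hY, ?_⟩
    have h1 := lmul (a := (16 : ℚ_[q])) n16.le hfx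
    rw [e3] at h1
    have h3 := lsub (lmul (a := (2 * (W.a₁ : ℚ_[q]))) (nmul n2'.le ha) hY) h1
    have e4 : 3 * (4 * x) ^ 2 + 50 * N * (4 * x) + 144 * (N : ℚ_[q]) ^ 2 =
      2 * (W.a₁ : ℚ_[q]) * (4 * (2 * y + (W.a₁ : ℚ_[q]) * x)) -
      (2 * (W.a₁ : ℚ_[q]) * (4 * (2 * y + (W.a₁ : ℚ_[q]) * x)) -
      (3 * (4 * x) ^ 2 + 50 * N * (4 * x) + 144 * (N : ℚ_[q]) ^ 2)) := by ring
    rw [e4]
    exact h3
  · rintro ⟨hX, hY, hF⟩
    rw [norm_mul, n4, one_mul] at hX hY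
    have hy : ‖y‖ ≤ 1 := by
      have h1 : ‖2 * y‖ = ‖y‖ := by rw [norm_mul, n2', one_mul]
      rw [← h1]
      have : 2 * y = (2 * y + (W.a₁ : ℚ_[q]) * x) - (W.a₁ : ℚ_[q]) * x := by ring
      rw [this]
      exact nsub hY.le (nmul ha hX)
    refine ⟨hX, hy, ?_, ?_⟩
    · have h1 : ‖16 * ((W.a₁ : ℚ_[q]) * y - (3 * x ^ 2 + 2 * (W.a₂ : ℚ_[q]) * x +
          (W.a₄ : ℚ_[q])))‖ < 1 := by
        rw [e3]
        refine lsub (lmul (nmul n2'.le ha) ?_) hF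
        rw [norm_mul, n4, one_mul]
        exact hY
      rw [norm_mul, n16, one_mul] at h1
      exact h1
    · rw [c3, add_zero]
      exact hY

/-- membership in `E⁰` -/
theorem mem_E0 (h : IsN W N) (hq2 : q ≠ 2) {P : PtP W q} {X Y : ℚ_[q]}
    (hP : At (W.a₁ : ℚ_[q]) P X Y) : P ∉ E0 W q ↔ ‖X‖ ≤ 1 ∧ ‖Y‖ < 1 ∧
      ‖3 * X ^ 2 + 50 * N * X + 144 * (N : ℚ_[q]) ^ 2‖ < 1 := by
  obtain ⟨x, y, hn, rfl, rfl, rfl⟩ := hP
  rw [← sing_XY h hq2, t_E0]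
  constructor
  · intro h1
    push Not at h1
    obtain ⟨x', y', h', e, hs⟩ := h1
    injection e with e1 e2
    rw [e1, e2]
    exact hs
  · intro hs h1
    exact h1 x y hn rfl hs

end

theorem z3_sq : ∀ a b : ZMod 3, a ^ 2 + b ^ 2 = 0 → b = 0 := by decide

theorem z3_3 : (3 : ZMod 3) = 0 := by decide

theorem z3_16 : (16 : ZMod 3) = 1 := by decide

section three

variable [Fact (Nat.Prime 3)] {W : WeierstrassCurve ℤ} {N : ℤ}

theorem t_n3 : ‖(3 : ℚ_[3])‖ = 1 / 3 := by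
  have := Padic.norm_p (p := 3)
  simpa using this

theorem t_lt3 {x : ℚ_[3]} (h : ‖x‖ < 1) : ‖x‖ ≤ 1 / 3 := by
  have := norm_le_inv 3 h
  simpa using this

theorem t_div3 {x : ℚ_[3]} (h : ‖x‖ < 1) : ∃ u : ℚ_[3], x = 3 * u ∧ ‖u‖ ≤ 1 := by
  refine ⟨x / 3, by rw [mul_div_cancel₀]; norm_num, ?_⟩
  rw [norm_div, t_n3, div_le_iff₀ (by norm_num)]
  linarith [t_lt3 h]

/-- at `3` the points outside `E⁰` are those with `|X| < 1` -/
theorem mem3 (h : IsN W N) (hN : ¬ (3 : ℤ) ∣ N) {P : PtP W 3} {X Y : ℚ_[3]}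
    (hP : At (W.a₁ : ℚ_[3]) P X Y) : P ∉ E0 W 3 ↔ ‖X‖ < 1 := by
  have hW := isW (K := ℚ_[3]) h two_ne_zero
  have he := hP.eqn hW
  have hmi := nint (q := 3) N
  have l3 : ‖(3 : ℚ_[3])‖ < 1 := by rw [t_n3]; norm_num
  have i9 : ‖(9 : ℚ_[3])‖ ≤ 1 := by exact_mod_cast nnat (K := ℚ_[3]) 9
  have i16 : ‖(16 : ℚ_[3])‖ ≤ 1 := by exact_mod_cast nnat (K := ℚ_[3]) 16
  have i17 : ‖(17 : ℚ_[3])‖ ≤ 1 := by exact_mod_cast nnat (K := ℚ_[3]) 17
  have i48 : ‖(48 : ℚ_[3])‖ ≤ 1 := by exact_mod_cast nnat (K := ℚ_[3]) 48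
  have uN : ‖(N : ℚ_[3])‖ = 1 := unit_int (q := 3) (by exact_mod_cast hN)
  rw [mem_E0 h (by norm_num) hP]
  constructor
  · rintro ⟨hX, hY, hF⟩
    have h1 : ‖N * X‖ < 1 := by
      have e : N * X = 3 * (X ^ 2 + 17 * (N * X) + 48 * (N : ℚ_[3]) ^ 2) -
        (3 * X ^ 2 + 50 * N * X + 144 * (N : ℚ_[3]) ^ 2) := by ring
      rw [e]
      exact lsub (lmul' l3 (nadd (nadd (npow hX 2) (nmul i17 (nmul hmi hX)))
        (nmul i48 (npow hmi 2)))) hF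
    rwa [norm_mul, uN, one_mul] at h1
  · intro hU
    refine ⟨hU.le, ?_, ?_⟩
    · apply sq_lt
      rw [he]
      exact lmul' (lmul' hU (nadd hU.le (nmul i9 hmi))) (nadd hU.le (nmul i16 hmi))
    · have e : 3 * X ^ 2 + 50 * N * X + 144 * (N : ℚ_[3]) ^ 2 =
        3 * (X ^ 2 + 17 * (N * X) + 48 * (N : ℚ_[3]) ^ 2) - N * X := by ring
      rw [e]
      exact lsub (lmul' l3 (nadd (nadd (npow hU.le 2) (nmul i17 (nmul hmi hU.le)))
        (nmul i48 (npow hmi 2)))) (lmul hmi hU)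

end three

theorem t_TAM3 : S_TAM3 := by
  intro W N _ h hN
  have hN' : ¬ (3 : ℤ) ∣ N := by omega
  have h2 : (2 : ℚ_[3]) ≠ 0 := two_ne_zero
  have h30 : (3 : ℚ_[3]) ≠ 0 := by norm_num
  have hW := isW (K := ℚ_[3]) h h2
  have hN0 : (N : ℚ_[3]) ≠ 0 := by
    have : N ≠ 0 := by omega
    exact_mod_cast this
  have uN : ‖(N : ℚ_[3])‖ = 1 := unit_int (q := 3) (by exact_mod_cast hN')
  obtain ⟨T, hT⟩ := exists_T hW h2 h30 hN0
  have hTn : T ∉ E0 W 3 := (mem3 h hN' hT).2 (by rw [norm_zero]; norm_num)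
  rw [Pool.Agent.Y700.tam, AddSubgroup.index_eq_two_iff_exists_notMem_and]
  refine ⟨T, hTn, fun P => ?_⟩
  by_cases hP : P ∈ E0 W 3
  · exact Or.inr hP
  left
  have hP0 : P ≠ 0 := fun h0 => hP (by rw [h0]; exact zero_mem _)
  obtain ⟨X, Y, hat⟩ := exists_at ((W.a₁ : ℤ) : ℚ_[3]) hP0
  have hU := (mem3 h hN' hat).1 hP
  have he := hat.eqn hW
  obtain ⟨u, hu, hu1⟩ := t_div3 hU
  -- `u` is not a unit
  have hul : ‖u‖ < 1 := by
    refine lt_of_le_of_ne hu1 fun hu2 => ?_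
    have hY : ‖Y‖ < 1 := ((mem_E0 h (by norm_num) hat).1 hP).2.1
    obtain ⟨w, hw, hw1⟩ := t_div3 hY
    have e1 : w ^ 2 = u * (u + 3 * N) * (3 * u + 16 * N) := by
      have h9 : (9 : ℚ_[3]) ≠ 0 := by norm_num
      apply mul_left_cancel₀ h9
      rw [hu, hw] at he
      linear_combination he
    obtain ⟨a, rfl⟩ : ∃ a : ℤ_[3], (a : ℚ_[3]) = w := ⟨⟨w, hw1⟩, rfl⟩
    obtain ⟨b, rfl⟩ : ∃ b : ℤ_[3], (b : ℚ_[3]) = u := ⟨⟨u, hu1⟩, rfl⟩
    have e2 : a ^ 2 = b * (b + 3 * N) * (3 * b + 16 * N) := by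
      apply Subtype.coe_injective
      push_cast
      exact e1
    have e3 := congrArg PadicInt.toZMod e2
    simp only [map_mul, map_pow, map_sub, map_add, map_ofNat, map_intCast] at e3
    have hM' : ((N : ℤ) : ZMod 3) = 2 := by
      have : ((2 : ℤ) : ZMod 3) = 2 := by norm_num
      rw [← this, ZMod.intCast_eq_intCast_iff]
      exact hN
    rw [hM'] at e3
    have h3 : (3 : ZMod 3) = 0 := z3_3
    have h16 : (16 : ZMod 3) = 1 := z3_16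
    rw [h3, h16] at e3
    have e4 : (PadicInt.toZMod a) ^ 2 + (PadicInt.toZMod b) ^ 2 = 0 := by
      linear_combination e3 + (PadicInt.toZMod b) ^ 2 * h3
    have e5 := z3_sq _ _ e4
    have e6 := toZMod_eq_zero.1 e5
    rw [PadicInt.norm_def] at e6
    linarith
  by_cases hXe : X = 0
  · have hY : Y = 0 := by
      rw [hXe] at he
      have h4 : Y ^ 2 = 0 := by
        rw [he]
        ring
      exact pow_eq_zero_iff two_ne_zero |>.1 h4
    rw [hY, hXe] at hat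
    rw [hat.ext h2 hT, two_tors hW h2 hT]
    exact AddSubgroup.zero_mem _
  · obtain ⟨X3, Y3, h3, h4⟩ := hat.addT hW h2 hT hXe
    by_contra hcon
    have h5 := (mem3 h hN' h3).1 hcon
    have e5 : X3 * (3 * u) = (16 * 9) * (N : ℚ_[3]) ^ 2 := by
      rw [hu] at h4
      linear_combination h4
    have u9 : ‖(9 : ℚ_[3])‖ = 1 / 9 := by
      have : (9 : ℚ_[3]) = 3 ^ 2 := by norm_num
      rw [this, norm_pow, t_n3]
      norm_num
    have u16 : ‖(16 : ℚ_[3])‖ = 1 := norm16 (by norm_num)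
    have e6 := congrArg norm e5
    rw [norm_mul, norm_mul, norm_mul, norm_mul, norm_pow, u16, u9, uN, t_n3] at e6
    have h8 : ‖X3‖ * ‖u‖ = 1 / 3 := by linarith
    have h7 := t_lt3 hul
    have h9 : 0 < ‖u‖ := by
      by_contra h
      have : ‖u‖ = 0 := le_antisymm (not_lt.1 h) (norm_nonneg _)
      rw [this, mul_zero] at h8
      norm_num at h8
    have h10 : ‖X3‖ * ‖u‖ < 1 * ‖u‖ := mul_lt_mul_of_pos_right h5 h9
    linarith

end Pool.Agent.H161.X21
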